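import Mathlib

set_option autoImplicit false

/-! Large compactifications: definitions and the extension criterion. -/

namespace Pool.Agent.V11218.LC

open Set Filter Topology

/-- `e : X → K` is (equivalent to) the Stone-Cech compactification of `X`: some homeomorphism
from `StoneCech X` onto `K` carries the canonical map to `e`. -/
def IsBeta {X K : Type} [TopologicalSpace X] [TopologicalSpace K] (e : X → K) : Prop :=
  ∃ h : StoneCech X ≃ₜ K, ∀ x, h (stoneCechUnit x) = e x

/-- `e : X → K` is a compactification. -/
def IsCompactification {X K : Type} [TopologicalSpace X] [TopologicalSpace K] (e : X → K) :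
    Prop :=
  CompactSpace K ∧ T2Space K ∧ IsEmbedding e ∧ DenseRange e

/-- A large compactification: `K = βV` for all open `V ⊇ X`. -/
def IsLarge {X K : Type} [TopologicalSpace X] [TopologicalSpace K] (e : X → K) : Prop :=
  ∀ V : Set K, IsOpen V → range e ⊆ V → IsBeta (Subtype.val : V → K)

/-- `X` is `G_δ`-closed in `K`. -/
def GdeltaClosed {X K : Type} [TopologicalSpace X] [TopologicalSpace K] (e : X → K) : Prop :=
  ∀ y ∉ range e, ∃ G : Set K, IsGδ G ∧ y ∈ G ∧ Disjoint G (range e)

/-- The property (**). -/
def StarStar (X : Type) [TopologicalSpace X] : Prop :=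
  ∀ (K : Type) [TopologicalSpace K] (e : X → K),
    IsCompactification e → IsLarge e → GdeltaClosed e → IsBeta e

/-- The extension criterion. -/
theorem isBeta_iff {X K : Type} [TopologicalSpace X] [TopologicalSpace K] {e : X → K}
    (he : Continuous e) (hd : DenseRange e) [CompactSpace K] [T2Space K] :
    IsBeta e ↔ ∀ f : C(X, ℝ), (∃ M, ∀ x, |f x| ≤ M) → ∃ F : C(K, ℝ), ∀ x, F (e x) = f x := by
  constructor
  · rintro ⟨h, hh⟩ f ⟨M, hM⟩
    let f' : X → Icc (-M) M := fun x => ⟨f x, abs_le.1 (hM x)⟩
    have hf' : Continuous f' := by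
      exact Continuous.subtype_mk f.continuous _
    refine ⟨⟨fun k => Subtype.val (stoneCechExtend hf' (h.symm k)), ?_⟩, fun x => ?_⟩
    · exact continuous_subtype_val.comp ((continuous_stoneCechExtend hf').comp h.symm.continuous)
    · show Subtype.val (stoneCechExtend hf' (h.symm (e x))) = f x
      rw [← hh x, Homeomorph.symm_apply_apply]
      have := congrFun (stoneCechExtend_extends hf') x
      simp only [Function.comp] at this
      rw [this]
  · intro H
    have hg : Continuous (stoneCechExtend he) := continuous_stoneCechExtend he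
    have hge : ∀ x, stoneCechExtend he (stoneCechUnit x) = e x := fun x =>
      congrFun (stoneCechExtend_extends he) x
    have hsurj : Function.Surjective (stoneCechExtend he) := by
      intro k
      have hc : IsClosed (range (stoneCechExtend he)) := (isCompact_range hg).isClosed
      have : closure (range e) ⊆ range (stoneCechExtend he) :=
        hc.closure_subset_iff.2 (by rintro _ ⟨x, rfl⟩; exact ⟨_, hge x⟩)
      exact this (hd k)
    have hinj : Function.Injective (stoneCechExtend he) := by
      intro p q hpq
      by_contra hne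
      obtain ⟨F, hF0, hF1, hF⟩ := exists_continuous_zero_one_of_isClosed
        (isClosed_singleton (x := p)) (isClosed_singleton (x := q))
        (by simpa using hne)
      have hbd : ∃ M, ∀ x, |(⟨fun x => F (stoneCechUnit x),
          F.continuous.comp continuous_stoneCechUnit⟩ : C(X, ℝ)) x| ≤ M := by
        refine ⟨1, fun x => ?_⟩
        have := hF (stoneCechUnit x)
        show |F (stoneCechUnit x)| ≤ 1
        rw [abs_le]
        exact ⟨by linarith [this.1], this.2⟩
      obtain ⟨F', hF'⟩ := H _ hbd
      have heq : (fun s => F' (stoneCechExtend he s)) = F := by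
        refine Continuous.ext_on denseRange_stoneCechUnit (F'.continuous.comp hg) F.continuous ?_
        rintro _ ⟨x, rfl⟩
        show F' (stoneCechExtend he (stoneCechUnit x)) = F (stoneCechUnit x)
        rw [hge, hF']
        rfl
      have h1 := congrFun heq p
      have h2 := congrFun heq q
      rw [hpq] at h1
      rw [h1] at h2
      have h3 : F p = 0 := hF0 (mem_singleton _)
      have h4 : F q = 1 := hF1 (mem_singleton _)
      rw [h3, h4] at h2
      exact zero_ne_one h2
    refine ⟨Continuous.homeoOfEquivCompactToT2 (f := Equiv.ofBijective _ ⟨hinj, hsurj⟩) hg,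
      fun x => ?_⟩
    exact hge x

/-- (**) is a topological property. -/
theorem StarStar.of_homeo {X Y : Type} [TopologicalSpace X] [TopologicalSpace Y] (φ : X ≃ₜ Y)
    (hY : StarStar Y) : StarStar X := by
  intro K _ e he hl hg
  obtain ⟨hK1, hK2, h3, h4⟩ := he
  have hr : range (fun y => e (φ.symm y)) = range e := by
    ext k
    constructor
    · rintro ⟨y, rfl⟩
      exact ⟨_, rfl⟩
    · rintro ⟨x, rfl⟩
      exact ⟨φ x, by simp⟩
  have hc : IsCompactification (fun y => e (φ.symm y)) := by
    refine ⟨hK1, hK2, h3.comp φ.symm.isEmbedding, ?_⟩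
    show Dense (range _)
    rw [hr]
    exact h4
  have hl' : IsLarge (fun y => e (φ.symm y)) := by
    intro V hV hVr
    exact hl V hV (hr ▸ hVr)
  have hg' : GdeltaClosed (fun y => e (φ.symm y)) := by
    intro y hy
    rw [hr] at hy
    obtain ⟨G, h1, h2, h3⟩ := hg y hy
    exact ⟨G, h1, h2, by rw [hr]; exact h3⟩
  have hb := hY K _ hc hl' hg'
  rw [isBeta_iff hc.2.2.1.continuous hc.2.2.2] at hb
  rw [isBeta_iff h3.continuous h4]
  intro f ⟨M, hM⟩
  obtain ⟨F, hF⟩ := hb (f.comp ⟨φ.symm, φ.symm.continuous⟩) ⟨M, fun y => hM _⟩
  refine ⟨F, fun x => ?_⟩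
  have := hF (φ x)
  simpa using this

end Pool.Agent.V11218.LC
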