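import Mathlib
import Pool.Agent.V11218.LC1

set_option autoImplicit false

/-! A summand that makes (**) vacuous. -/

namespace Pool.Agent.V11218.LC

open Set Filter Topology

/-- The sigma-product: points of `2^ℝ` with countable support. -/
abbrev N : Type := {x : ℝ → Bool // {i | x i = true}.Countable}

theorem N_seq_compact (p : ℕ → N) : ∃ C : Set N, IsCompact C ∧ ∀ n, p n ∈ C := by
  let S : Set ℝ := ⋃ n, {i | (p n).1 i = true}
  have hS : S.Countable := countable_iUnion fun n => (p n).2
  refine ⟨{x : N | ∀ i ∉ S, x.1 i = false}, ?_, fun n i hi => ?_⟩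
  · have hemb : IsEmbedding (Subtype.val : N → ℝ → Bool) := IsEmbedding.subtypeVal
    rw [hemb.isCompact_iff]
    have h1 : (Subtype.val : N → ℝ → Bool) '' {x : N | ∀ i ∉ S, x.1 i = false} =
        {x : ℝ → Bool | ∀ i ∉ S, x i = false} := by
      ext x
      constructor
      · rintro ⟨y, hy, rfl⟩
        exact hy
      · intro hx
        refine ⟨⟨x, hS.mono fun i hi => ?_⟩, hx, rfl⟩
        by_contra hiS
        have h2 := hx i hiS
        have h3 : x i = true := hi
        rw [h2] at h3
        cases h3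
    rw [h1]
    apply IsClosed.isCompact
    have h2 : {x : ℝ → Bool | ∀ i ∉ S, x i = false} =
        ⋂ i ∈ Sᶜ, {x : ℝ → Bool | x i = false} := by
      ext x
      simp
    rw [h2]
    refine isClosed_biInter fun i _ => ?_
    exact isClosed_eq (continuous_apply i) continuous_const
  · by_contra h
    apply hi
    rw [Bool.not_eq_false] at h
    exact mem_iUnion.2 ⟨n, h⟩

theorem N_not_compact : ¬ IsCompact (univ : Set N) := by
  intro hc
  classical
  have hcl : IsClosed (range (Subtype.val : N → ℝ → Bool)) := by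
    rw [← image_univ]
    exact (hc.image continuous_subtype_val).isClosed
  have h1 : Tendsto (fun F : Finset ℝ => (fun i => if i ∈ F then true else false : ℝ → Bool)) atTop
      (𝓝 (fun _ => true)) := by
    rw [tendsto_pi_nhds]
    intro i
    apply tendsto_nhds_of_eventually_eq
    filter_upwards [eventually_ge_atTop ({i} : Finset ℝ)] with F hF
    have : i ∈ F := hF (Finset.mem_singleton_self i)
    rw [if_pos this]
  have h2 := hcl.mem_of_tendsto h1 (Eventually.of_forall fun F => by
    refine ⟨⟨_, ?_⟩, rfl⟩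
    refine (F.countable_toSet).mono fun i hi => ?_
    by_contra h
    have h5 : (if i ∈ F then true else false) = true := hi
    rw [if_neg (fun h6 => h (Finset.mem_coe.2 h6))] at h5
    cases h5)
  obtain ⟨y, hy⟩ := h2
  have h3 := y.2
  rw [hy] at h3
  have h4 : {i : ℝ | (fun _ : ℝ => true) i = true} = univ := by
    ext i
    simp
  rw [h4] at h3
  exact not_countable_univ h3

/-- A space with a clopen copy of `N` is never `G_δ`-closed in a compactification. -/
theorem starStar_sum (X : Type) [TopologicalSpace X] : StarStar (X ⊕ N) := by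
  intro K _ e he _ hg
  obtain ⟨hK1, hK2, hemb, hd⟩ := he
  exfalso
  have hcont := hemb.continuous
  have hN : ¬ IsClosed (e '' range (Sum.inr : N → X ⊕ N)) := by
    intro h
    have h1 := h.isCompact
    rw [← hemb.isCompact_iff] at h1
    rw [← image_univ, ← (IsEmbedding.inr (X := X) (Y := N)).isCompact_iff] at h1
    exact N_not_compact h1
  obtain ⟨y, hy, hyN⟩ : ∃ y ∈ closure (e '' range (Sum.inr : N → X ⊕ N)),
      y ∉ e '' range (Sum.inr : N → X ⊕ N) := by
    by_contra hcon
    push Not at hcon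
    exact hN (isClosed_of_closure_subset hcon)
  have hyr : y ∉ range e := by
    rintro ⟨z, rfl⟩
    have h1 : z ∈ closure (range (Sum.inr : N → X ⊕ N)) := by
      rw [hemb.isInducing.closure_eq_preimage_closure_image]
      exact hy
    rw [(isClosed_range_inr).closure_eq] at h1
    exact hyN ⟨z, h1, rfl⟩
  obtain ⟨G, hG, hyG, hdis⟩ := hg y hyr
  obtain ⟨U, hUo, rfl⟩ := hG.eq_iInter_nat
  have hW : ∀ n, ∃ W : Set K, W ∈ 𝓝 y ∧ IsClosed W ∧ W ⊆ U n := by
    intro n
    have h1 : U n ∈ 𝓝 y := (hUo n).mem_nhds (mem_iInter.1 hyG n)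
    obtain ⟨W, hW1, hW2, hW3⟩ := exists_mem_nhds_isClosed_subset h1
    exact ⟨W, hW1, hW2, hW3⟩
  choose W hW1 hW2 hW3 using hW
  have hp : ∀ n, ∃ p : N, ∀ k ≤ n, e (Sum.inr p) ∈ W k := by
    intro n
    have h1 : (⋂ k ∈ Finset.range (n + 1), W k) ∈ 𝓝 y :=
      (Filter.biInter_finset_mem _).2 fun k _ => hW1 k
    obtain ⟨_, h2, _, ⟨p, rfl⟩, rfl⟩ := mem_closure_iff_nhds.1 hy _ h1
    refine ⟨p, fun k hk => ?_⟩
    simp only [mem_iInter] at h2
    exact h2 k (Finset.mem_range.2 (by omega))
  choose p hp using hp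
  obtain ⟨C, hC, hpC⟩ := N_seq_compact p
  obtain ⟨q, hqC, hq⟩ := hC.exists_mapClusterPt_of_frequently
    (f := p) (l := atTop) (Eventually.of_forall hpC).frequently
  have hq2 : ∀ k, e (Sum.inr q) ∈ W k := by
    intro k
    have hcl : IsClosed {r : N | e (Sum.inr r) ∈ W k} :=
      (hW2 k).preimage (hcont.comp continuous_inr)
    by_contra hcon
    have h1 : {r : N | e (Sum.inr r) ∈ W k}ᶜ ∈ 𝓝 q := hcl.isOpen_compl.mem_nhds hcon
    have h2 := (mapClusterPt_iff_frequently.1 hq) _ h1
    have h3 : ∀ᶠ n in atTop, p n ∈ {r : N | e (Sum.inr r) ∈ W k} := by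
      filter_upwards [eventually_ge_atTop k] with n hn
      exact hp n k hn
    obtain ⟨n, hn1, hn2⟩ := (h2.and_eventually h3).exists
    exact hn1 hn2
  exact disjoint_left.1 hdis (mem_iInter.2 fun k => hW3 k (hq2 k)) ⟨_, rfl⟩

end Pool.Agent.V11218.LC
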