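import Mathlib
import Pool.Agent.W642.HG.Hom
import Pool.Agent.V11218.LC1

set_option autoImplicit false

/-! A space that fails (**), built on the space of `W642/HG`. -/

namespace Pool.Agent.V11218.LC

open Set Filter Topology Pool.Agent.W642.HG Pool.Agent.W642.HG.Pt

variable {R : Set (ℕ → Bool)}

theorem Φ_injective : Function.Injective (Φ : Pt R → _) := by
  classical
  intro z w h
  have h1 : ∀ u, inP u z ↔ inP u w := fun u => by
    have h0 := congrFun (congrArg Prod.fst h) u
    simpa [Φ] using h0
  have h2 : lab z = lab w := congrArg (fun t => t.2.1) h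
  have h3 : ∀ e : (ℕ → Bool) × ℝ, (lab z = e.1 ∧ e.1 ∈ R ∧ f z = e.2) ↔
      (lab w = e.1 ∧ e.1 ∈ R ∧ f w = e.2) := fun e => by
    have h0 := congrFun (congrArg (fun t => t.2.2) h) e
    exact decide_eq_decide.1 h0
  cases z with
  | node p r c =>
    cases w with
    | node q s d =>
      obtain rfl : r = s := Subtype.ext h2
      obtain rfl : p = q := by
        have a : p <:+ q := (h1 p).1 (List.suffix_refl p)
        have b : q <:+ p := (h1 q).2 (List.suffix_refl q)
        exact a.eq_of_length_le b.length_le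
      have h4 := ((h3 (r.1, val p c)).1 ⟨rfl, r.2, rfl⟩).2.2
      have h5 : val p d = val p c := h4
      unfold val at h5
      have h6 : ((d : ℕ) : ℝ) * (1 / 2) ^ (p.length + 1) = ((c : ℕ) : ℝ) * (1 / 2) ^ (p.length + 1) :=
        by linarith
      have h7 : ((d : ℕ) : ℝ) = ((c : ℕ) : ℝ) :=
        mul_right_cancel₀ (pow_ne_zero _ (by norm_num)) h6
      have h8 : d = c := Fin.ext (by exact_mod_cast h7)
      rw [h8]
    | br x s =>
      exfalso
      have h4 : r.1 = s.1 := h2
      exact s.2 (h4 ▸ r.2)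
  | br x r =>
    cases w with
    | node q s d =>
      exfalso
      have h4 : r.1 = s.1 := h2
      exact r.2 (h4 ▸ s.2)
    | br y s =>
      have h4 : r = s := Subtype.ext h2
      have h5 : ∀ n, ini x n = ini y n := by
        intro n
        have h6 : inP (ini x n) (br x r : Pt R) := by
          show ini x n = ini x (ini x n).length
          rw [ini_length]
        have h7 : ini x n = ini y (ini x n).length := (h1 _).1 h6
        rw [ini_length] at h7
        exact h7
      have h6 : x = y := by
        funext n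
        have h7 := h5 (n + 1)
        simp only [ini, List.cons.injEq] at h7
        exact h7.1
      rw [h4, h6]

/-- The index set: members of the algebra with values in the unit interval. -/
abbrev Idx (R : Set (ℕ → Bool)) : Type := {a : C(Pt R, ℝ) // a ∈ alg R ∧ ∀ z, a z ∈ Icc (0 : ℝ) 1}

/-- The evaluation map. -/
noncomputable def E (z : Pt R) : Idx R → ℝ := fun a => a.1 z

theorem continuous_E : Continuous (E : Pt R → Idx R → ℝ) :=
  continuous_pi fun a => a.1.continuous

theorem eventually_mem_iff
    (hR : ∀ e : (ℕ → Bool) → (ℕ → Bool), Continuous e → Function.Injective e →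
    ∃ y, e y ∉ R) {U : Set (Pt R)} (hU : IsClopen U) (z : Pt R) :
    ∀ᶠ w in comap (E : Pt R → Idx R → ℝ) (𝓝 (E z)), (w ∈ U ↔ z ∈ U) := by
  let a : Idx R := ⟨ind U hU, ind_mem hR hU, fun z => by
    by_cases hz : z ∈ U
    · rw [ind_apply_mem hU hz]; simp
    · rw [ind_apply_notMem hU hz]; simp⟩
  have h1 : {k : Idx R → ℝ | |k a - E z a| < 1 / 2} ∈ 𝓝 (E z) := by
    apply IsOpen.mem_nhds
    · exact isOpen_lt (by fun_prop) continuous_const
    · show |E z a - E z a| < 1 / 2
      simp
  filter_upwards [preimage_mem_comap h1] with w hw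
  have h2 : |ind U hU w - ind U hU z| < 1 / 2 := hw
  by_cases hz : z ∈ U
  · by_cases hw' : w ∈ U
    · exact ⟨fun _ => hz, fun _ => hw'⟩
    · rw [ind_apply_mem hU hz, ind_apply_notMem hU hw'] at h2
      norm_num at h2
  · by_cases hw' : w ∈ U
    · rw [ind_apply_mem hU hw', ind_apply_notMem hU hz] at h2
      norm_num at h2
    · exact ⟨fun h => absurd h hw', fun h => absurd h hz⟩

theorem inducing_E (hR : ∀ e : (ℕ → Bool) → (ℕ → Bool), Continuous e → Function.Injective e →
    ∃ y, e y ∉ R) : IsInducing (E : Pt R → Idx R → ℝ) := by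
  classical
  rw [isInducing_iff_nhds]
  intro z
  refine le_antisymm (continuous_E.continuousAt.tendsto.le_comap) ?_
  rw [nhds_induced, ← tendsto_iff_comap]
  have hbool : ∀ (g : Pt R → Bool), IsClopen (g ⁻¹' {true}) →
      Tendsto g (comap (E : Pt R → Idx R → ℝ) (𝓝 (E z))) (𝓝 (g z)) := by
    intro g hg
    apply tendsto_nhds_of_eventually_eq
    filter_upwards [eventually_mem_iff hR hg z] with w hw
    have hw2 : g w = true ↔ g z = true := hw
    exact Bool.eq_iff_iff.2 hw2
  refine Tendsto.prodMk_nhds ?_ (Tendsto.prodMk_nhds ?_ ?_)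
  · rw [tendsto_pi_nhds]
    intro u
    apply hbool (fun w => decide (inP u w))
    convert isClopen_inP (R := R) u using 1
    ext w
    simp
  · rw [tendsto_pi_nhds]
    intro i
    apply hbool (fun w => lab w i)
    exact (isClopen_discrete {true}).preimage ((continuous_apply i).comp continuous_lab)
  · rw [tendsto_pi_nhds]
    intro e
    apply hbool (fun w => decide (lab w = e.1 ∧ e.1 ∈ R ∧ f w = e.2))
    convert isClopen_E (R := R) e using 1
    ext w
    simp

theorem injective_E (hR : ∀ e : (ℕ → Bool) → (ℕ → Bool), Continuous e → Function.Injective e →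
    ∃ y, e y ∉ R) : Function.Injective (E : Pt R → Idx R → ℝ) := by
  classical
  intro z w h
  have hU : ∀ {U : Set (Pt R)}, IsClopen U → (w ∈ U ↔ z ∈ U) := by
    intro U hU
    have h1 := eventually_mem_iff hR hU z
    rw [h] at h1
    have h2 : ({w' | w' ∈ U ↔ z ∈ U} : Set (Pt R)) ∈ comap (E : Pt R → Idx R → ℝ) (𝓝 (E w)) := h1
    obtain ⟨t, ht, hts⟩ := h2
    have h3 : w ∈ (E : Pt R → Idx R → ℝ) ⁻¹' t := mem_of_mem_nhds (x := E w) ht
    exact hts h3
  apply Φ_injective
  have h1 : (Φ z).1 = (Φ w).1 := by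
    funext u
    exact decide_eq_decide.2 (hU (isClopen_inP (R := R) u)).symm
  have h2 : (Φ z).2.1 = (Φ w).2.1 := by
    funext i
    have h3 := hU ((isClopen_discrete {true}).preimage ((continuous_apply i).comp
      (continuous_lab (R := R))))
    exact Bool.eq_iff_iff.2 h3.symm
  have h3 : (Φ z).2.2 = (Φ w).2.2 := by
    funext e
    exact decide_eq_decide.2 (hU (isClopen_E (R := R) e)).symm
  exact Prod.ext h1 (Prod.ext h2 h3)

/-- The compactification. -/
abbrev KK (R : Set (ℕ → Bool)) : Type := closure (range (E : Pt R → Idx R → ℝ))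

theorem isCompact_KK : IsCompact (closure (range (E : Pt R → Idx R → ℝ))) := by
  have h1 : IsCompact (Set.pi univ fun _ : Idx R => Icc (0 : ℝ) 1) :=
    isCompact_univ_pi fun _ => isCompact_Icc
  refine h1.of_isClosed_subset isClosed_closure ?_
  refine h1.isClosed.closure_subset_iff.2 ?_
  rintro _ ⟨z, rfl⟩ a _
  exact a.2.2 z

instance : CompactSpace (KK R) := isCompact_iff_compactSpace.1 isCompact_KK

/-- The embedding. -/
noncomputable def ee (z : Pt R) : KK R := ⟨E z, subset_closure ⟨z, rfl⟩⟩

theorem embedding_ee (hR : ∀ e : (ℕ → Bool) → (ℕ → Bool), Continuous e → Function.Injective e →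
    ∃ y, e y ∉ R) : IsEmbedding (ee : Pt R → KK R) := by
  have h1 : IsEmbedding (E : Pt R → Idx R → ℝ) := ⟨inducing_E hR, injective_E hR⟩
  exact IsEmbedding.of_comp (Continuous.subtype_mk continuous_E _) continuous_subtype_val h1

theorem dense_ee : DenseRange (ee : Pt R → KK R) := by
  intro k
  rw [closure_subtype]
  have h1 : (Subtype.val '' range (ee : Pt R → KK R)) = range (E : Pt R → Idx R → ℝ) := by
    rw [← range_comp]
    rfl
  rw [h1]
  exact k.2

/-- Restrictions of continuous functions on `KK` are in the algebra. -/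
theorem comp_mem (hR : ∀ e : (ℕ → Bool) → (ℕ → Bool), Continuous e → Function.Injective e →
    ∃ y, e y ∉ R) (F : C(KK R, ℝ)) (g : C(Pt R, ℝ)) (hg : ∀ z, g z = F (ee z)) : g ∈ alg R := by
  let ec : C(Pt R, KK R) := ⟨ee, (embedding_ee hR).continuous⟩
  let S : Subalgebra ℝ C(KK R, ℝ) := (alg R).comap (ContinuousMap.compRightAlgHom ℝ ℝ ec)
  have hS : ∀ G : C(KK R, ℝ), G ∈ S ↔ G.comp ec ∈ alg R := fun G => Iff.rfl
  have hsep : S.SeparatesPoints := by
    intro k l hkl
    have h1 : k.1 ≠ l.1 := fun h => hkl (Subtype.ext h)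
    obtain ⟨a, ha⟩ := Function.ne_iff.1 h1
    refine ⟨fun k => k.1 a, ⟨⟨fun k => k.1 a, (continuous_apply a).comp continuous_subtype_val⟩, ?_, rfl⟩, ha⟩
    show _ ∈ S
    rw [hS]
    exact a.2.1
  have htop := ContinuousMap.subalgebra_topologicalClosure_eq_top_of_separatesPoints S hsep
  have hF : F ∈ closure (S : Set C(KK R, ℝ)) := by
    rw [← Subalgebra.topologicalClosure_coe, htop]
    trivial
  obtain ⟨s, hs, hsF⟩ := mem_closure_iff_seq_limit.1 hF
  refine mem_of_forall (fun n => (s n).comp ec) (fun n => (hS _).1 (hs n)) fun z w h => ?_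
  have hz : ∀ z : Pt R, Tendsto (fun n => s n (ee z)) atTop (𝓝 (g z)) := by
    intro z
    rw [hg]
    exact ((continuous_eval_const (ee z)).tendsto F).comp hsF
  refine tendsto_nhds_unique (hz z) ?_
  refine (hz w).congr fun n => ?_
  exact (h n).symm

end Pool.Agent.V11218.LC
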