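import Mathlib
import Pool.Agent.V11218.LC3

set_option autoImplicit false

/-! The compactification is large, the space is `G_δ`-closed in it, and it is not the
Stone-Cech compactification. -/

namespace Pool.Agent.V11218.LC

open Set Filter Topology Pool.Agent.W642.HG Pool.Agent.W642.HG.Pt

variable {R : Set (ℕ → Bool)}

/-- Bounded members of the algebra extend over `KK`. -/
theorem extend_mem {g : C(Pt R, ℝ)} (hg : g ∈ alg R) {M : ℝ} (hM : ∀ z, |g z| ≤ M) :
    ∃ F : C(KK R, ℝ), ∀ z, F (ee z) = g z := by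
  have hM1 : 0 < 2 * (|M| + 1) := by positivity
  have hM2 : ∀ z, |g z| ≤ |M| + 1 := fun z => by
    have := hM z
    have := le_abs_self M
    linarith
  let c : ℝ := 1 / (2 * (|M| + 1))
  let g1 : C(Pt R, ℝ) := c • g + algebraMap ℝ C(Pt R, ℝ) (1 / 2)
  have hg1 : g1 ∈ alg R := add_mem ((alg R).smul_mem hg c) ((alg R).algebraMap_mem _)
  have hval : ∀ z, g1 z = c * g z + 1 / 2 := fun z => rfl
  have hIcc : ∀ z, g1 z ∈ Icc (0 : ℝ) 1 := by
    intro z
    rw [hval]
    have h1 := abs_le.1 (hM2 z)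
    have hc : c * (|M| + 1) = 1 / 2 := by
      simp only [c]
      field_simp
    have hc0 : 0 < c := by positivity
    have h2 : c * (-(|M| + 1)) ≤ c * g z := mul_le_mul_of_nonneg_left h1.1 hc0.le
    have h3 : c * g z ≤ c * (|M| + 1) := mul_le_mul_of_nonneg_left h1.2 hc0.le
    constructor <;> nlinarith
  let a : Idx R := ⟨g1, hg1, hIcc⟩
  refine ⟨⟨fun k => (2 * (|M| + 1)) * (k.1 a - 1 / 2), ?_⟩, fun z => ?_⟩
  · have : Continuous fun k : KK R => k.1 a := (continuous_apply a).comp continuous_subtype_val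
    exact continuous_const.mul (this.sub continuous_const)
  · show (2 * (|M| + 1)) * (g1 z - 1 / 2) = g z
    rw [hval]
    simp only [c]
    field_simp
    ring

/-- The space. -/
theorem not_beta (hR : ∀ e : (ℕ → Bool) → (ℕ → Bool), Continuous e → Function.Injective e →
    ∃ y, e y ∉ R) (hR2 : ¬ R.Countable) : ¬ IsBeta (ee : Pt R → KK R) := by
  rw [isBeta_iff (embedding_ee hR).continuous dense_ee]
  intro H
  obtain ⟨F, hF⟩ := H fC ⟨1, fun z => by
    have h1 : inP [] z := by
      cases z with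
      | node p r c => exact List.nil_suffix
      | br x r => rfl
    have h2 := f_bounds h1
    simp only [left, List.length_nil, pow_zero, zero_add] at h2
    show |f z| ≤ 1
    rw [abs_le]
    exact ⟨by linarith [h2.1], h2.2⟩⟩
  exact fC_notMem hR2 (comp_mem hR F fC fun z => (hF z).symm)

theorem large (hR : ∀ e : (ℕ → Bool) → (ℕ → Bool), Continuous e → Function.Injective e →
    ∃ y, e y ∉ R) : IsLarge (ee : Pt R → KK R) := by
  intro V hV hr
  have hsub : Dense V := (dense_ee (R := R)).mono hr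
  have hdr : DenseRange (Subtype.val : V → KK R) := by
    show Dense (range _)
    rw [Subtype.range_coe]
    exact hsub
  rw [isBeta_iff continuous_subtype_val hdr]
  intro g ⟨M, hM⟩
  let eV : Pt R → V := fun z => ⟨ee z, hr ⟨z, rfl⟩⟩
  have heV : Continuous eV := Continuous.subtype_mk (embedding_ee hR).continuous _
  let g0 : C(Pt R, ℝ) := g.comp ⟨eV, heV⟩
  have hg0 : g0 ∈ alg R := by
    apply mem_of_local hR
    intro z
    obtain ⟨W, hW1, hW2, hW3⟩ := exists_mem_nhds_isClosed_subset (hV.mem_nhds (hr ⟨z, rfl⟩))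
    let gW : C(W, ℝ) := g.comp ⟨fun w => ⟨w.1, hW3 w.2⟩, by fun_prop⟩
    obtain ⟨G, hG⟩ := gW.exists_restrict_eq hW2
    refine ⟨ee ⁻¹' W, (embedding_ee hR).continuous.continuousAt.preimage_mem_nhds hW1,
      fun _ => G.comp ⟨ee, (embedding_ee hR).continuous⟩,
      fun _ => comp_mem hR G _ fun _ => rfl, ?_⟩
    intro w hw w' hw' h
    have h1 : ∀ w, w ∈ ee ⁻¹' W → g0 w = G (ee w) := by
      intro w hw
      have h2 := congrArg (fun φ : C(W, ℝ) => φ ⟨ee w, hw⟩) hG
      exact h2.symm
    rw [h1 w hw, h1 w' hw']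
    exact h 0
  obtain ⟨F, hF⟩ := extend_mem hg0 (fun z => hM (eV z))
  refine ⟨F, fun v => ?_⟩
  have hdV : DenseRange eV := by
    intro v
    rw [closure_subtype]
    have h1 : (Subtype.val '' range eV) = range (ee : Pt R → KK R) := by
      rw [← range_comp]
      rfl
    rw [h1]
    exact dense_ee _
  have h1 : (fun v : V => F v.1) = g := by
    refine Continuous.ext_on hdV (F.continuous.comp continuous_subtype_val) g.continuous ?_
    rintro _ ⟨z, rfl⟩
    exact hF z
  exact congrFun h1 v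

theorem sq_inj {s t : ℝ} (h : s / (1 + |s|) = t / (1 + |t|)) : s = t := by
  have hs : 0 < 1 + |s| := by positivity
  have ht : 0 < 1 + |t| := by positivity
  rw [div_eq_div_iff hs.ne' ht.ne'] at h
  rcases le_or_gt 0 s with h1 | h1 <;> rcases le_or_gt 0 t with h2 | h2
  · rw [abs_of_nonneg h1, abs_of_nonneg h2] at h
    nlinarith
  · rw [abs_of_nonneg h1, abs_of_neg h2] at h
    nlinarith
  · rw [abs_of_neg h1, abs_of_nonneg h2] at h
    nlinarith
  · rw [abs_of_neg h1, abs_of_neg h2] at h
    nlinarith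

theorem gdelta_closed (hR : ∀ e : (ℕ → Bool) → (ℕ → Bool), Continuous e →
    Function.Injective e → ∃ y, e y ∉ R) : GdeltaClosed (ee : Pt R → KK R) := by
  intro y hy
  by_contra hcon
  push Not at hcon
  apply hy
  -- common values
  have hval : ∀ (F : ℕ → C(KK R, ℝ)), ∃ z, ∀ n, F n (ee z) = F n y := by
    intro F
    have h1 : IsGδ (⋂ n, {k | F n k = F n y}) := by
      refine IsGδ.iInter fun n => ?_
      exact (isClosed_singleton (x := F n y)).isGδ.preimage (F n).continuous
    have h2 := hcon _ h1 (mem_iInter.2 fun n => rfl)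
    rw [not_disjoint_iff] at h2
    obtain ⟨_, h3, ⟨z, rfl⟩⟩ := h2
    exact ⟨z, fun n => mem_iInter.1 h3 n⟩
  -- bounded transforms
  have htr : ∀ a : alg R, ∃ F : C(KK R, ℝ), ∀ z, F (ee z) = a.1 z / (1 + |a.1 z|) := by
    intro a
    have hc : Continuous fun z => a.1 z / (1 + |a.1 z|) := by
      refine a.1.continuous.div (by fun_prop) fun z => ?_
      positivity
    have hm : (⟨_, hc⟩ : C(Pt R, ℝ)) ∈ alg R := by
      refine mem_of_forall (fun _ => a.1) (fun _ => a.2) fun z w h => ?_
      show a.1 z / (1 + |a.1 z|) = a.1 w / (1 + |a.1 w|)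
      rw [h 0]
    refine extend_mem hm (M := 1) fun z => ?_
    show |a.1 z / (1 + |a.1 z|)| ≤ 1
    have hp : 0 < 1 + |a.1 z| := by positivity
    rw [abs_div, abs_of_pos hp, div_le_one hp]
    linarith
  choose T hT using htr
  have hφ : ∀ a : alg R, ∃ z, T a (ee z) = T a y := fun a => by
    obtain ⟨z, hz⟩ := hval fun _ => T a
    exact ⟨z, hz 0⟩
  choose z0 hz0 using hφ
  let φ0 : alg R → ℝ := fun a => a.1 (z0 a)
  have hmain : ∀ s : ℕ → alg R, ∃ z, ∀ n, (s n).1 z = φ0 (s n) := by
    intro s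
    obtain ⟨z, hz⟩ := hval fun n => T (s n)
    refine ⟨z, fun n => ?_⟩
    have h1 := hz n
    rw [← hz0 (s n), hT, hT] at h1
    exact sq_inj h1
  let φ : alg R →+* ℝ :=
    { toFun := φ0
      map_one' := rfl
      map_mul' := by
        intro a b
        obtain ⟨z, hz⟩ := hmain fun n => if n = 0 then a else if n = 1 then b else a * b
        have h0 := hz 0
        have h1 := hz 1
        have h2 := hz 2
        simp only [if_true, one_ne_zero, if_false, OfNat.ofNat_ne_zero, OfNat.ofNat_ne_one] at h0 h1 h2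
        rw [← h0, ← h1, ← h2]
        rfl
      map_zero' := rfl
      map_add' := by
        intro a b
        obtain ⟨z, hz⟩ := hmain fun n => if n = 0 then a else if n = 1 then b else a + b
        have h0 := hz 0
        have h1 := hz 1
        have h2 := hz 2
        simp only [if_true, one_ne_zero, if_false, OfNat.ofNat_ne_zero, OfNat.ofNat_ne_one] at h0 h1 h2
        rw [← h0, ← h1, ← h2]
        rfl }
  obtain ⟨z, hz⟩ := hom_eval hR φ
  refine ⟨z, ?_⟩
  apply Subtype.ext
  funext a
  show a.1 z = y.1 a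
  have h1 : φ0 ⟨a.1, a.2.1⟩ = a.1 z := hz ⟨a.1, a.2.1⟩
  let C : C(KK R, ℝ) := ⟨fun k => k.1 a, (continuous_apply a).comp continuous_subtype_val⟩
  obtain ⟨w, hw⟩ := hval fun n => if n = 0 then C else T ⟨a.1, a.2.1⟩
  have h2 := hw 0
  have h3 := hw 1
  simp only [if_true, one_ne_zero, if_false] at h2 h3
  have h4 : a.1 w = y.1 a := h2
  rw [← hz0, hT, hT] at h3
  have h5 : a.1 w = φ0 ⟨a.1, a.2.1⟩ := sq_inj h3
  rw [← h1, ← h5, h4]

end Pool.Agent.V11218.LC
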