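import Mathlib
import Pool.Agent.V11218.BetaOm

set_option autoImplicit false

namespace Pool.Agent.V11218.CpT

open Set Topology Filter Pool.Agent.V11218.BetaOm

/-- pointwise topology -/
abbrev pt (X : Type*) [TopologicalSpace X] : TopologicalSpace C(X, ℝ) :=
  TopologicalSpace.induced (fun f : C(X, ℝ) => (f : X → ℝ)) inferInstance

/-- identification -/
def toCp (X : Type*) [TopologicalSpace X] : C(X, ℝ) ≃ₗ[ℝ] Cp X where
  toFun f := ⟨f, f.continuous⟩
  invFun f := ⟨f.1, f.2⟩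
  map_add' _ _ := rfl
  map_smul' _ _ := rfl
  left_inv _ := rfl
  right_inv _ := rfl

theorem toCp_cont (X : Type*) [TopologicalSpace X] :
    @Continuous _ _ (pt X) _ (toCp X) := by
  refine @Continuous.subtype_mk _ _ _ (pt X) _ _ ?_ _
  exact continuous_induced_dom

theorem toCp_symm_cont (X : Type*) [TopologicalSpace X] :
    @Continuous _ _ _ (pt X) (toCp X).symm := by
  refine continuous_induced_rng.2 ?_
  exact continuous_subtype_val

/-- transport of maps -/
theorem lift_cont {A X : Type*} [TopologicalSpace A] [TopologicalSpace X]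
    (φ : C(A, ℝ) →ₗ[ℝ] C(X, ℝ)) (h : @Continuous _ _ (pt A) (pt X) φ) :
    Continuous (fun f : Cp A => toCp X (φ ((toCp A).symm f))) :=
  (@Continuous.comp _ _ _ _ (pt X) _ _ _ (toCp_cont X)
    (@Continuous.comp _ _ _ _ (pt A) (pt X) _ _ h (toCp_symm_cont A)))

theorem unlift_cont {A X : Type*} [TopologicalSpace A] [TopologicalSpace X]
    (ψ : Cp A → Cp X) (h : Continuous ψ) :
    @Continuous _ _ (pt A) (pt X) (fun f : C(A, ℝ) => (toCp X).symm (ψ (toCp A f))) :=
  (@Continuous.comp _ _ _ (pt A) _ (pt X) _ _ (toCp_symm_cont X)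
    (@Continuous.comp _ _ _ (pt A) _ _ _ _ h (toCp_cont A)))

theorem of_equiv {A X : Type*} [TopologicalSpace A] [TopologicalSpace X]
    (L : Cp A ≃L[ℝ] Cp X) : ∃ e : C(A, ℝ) ≃ₗ[ℝ] C(X, ℝ),
      @Continuous _ _ (pt A) (pt X) (⇑e) ∧ @Continuous _ _ (pt X) (pt A) (⇑e.symm) := by
  refine ⟨(toCp A).trans (L.toLinearEquiv.trans (toCp X).symm), ?_, ?_⟩
  · exact unlift_cont (fun f => L f) L.continuous
  · exact unlift_cont (fun f => L.symm f) L.symm.continuous

theorem to_equiv {A X : Type*} [TopologicalSpace A] [TopologicalSpace X]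
    (e : C(A, ℝ) ≃ₗ[ℝ] C(X, ℝ)) (h1 : @Continuous _ _ (pt A) (pt X) (⇑e))
    (h2 : @Continuous _ _ (pt X) (pt A) (⇑e.symm)) : LEquivalent A X := by
  refine ⟨{ (toCp A).symm.trans (e.trans (toCp X)) with
    continuous_toFun := ?_, continuous_invFun := ?_ }⟩
  · exact lift_cont (e : C(A, ℝ) →ₗ[ℝ] C(X, ℝ)) h1
  · exact lift_cont (e.symm : C(X, ℝ) →ₗ[ℝ] C(A, ℝ)) h2

theorem range_natCast_eq : range ((↑) : ℕ → ℕ∞) = {(⊤ : ℕ∞)}ᶜ := by
  ext x
  simp only [mem_range, mem_compl_iff, mem_singleton_iff]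
  constructor
  · rintro ⟨n, rfl⟩
    exact ENat.natCast_ne_top n
  · intro h
    exact ⟨x.toNat, ENat.natCast_toNat h⟩

/-- the two descriptions of the convergent sequence -/
noncomputable def onePointHomeo : OnePoint ℕ ≃ₜ ℕ∞ :=
  OnePoint.equivOfIsEmbeddingOfRangeEq (⊤ : ℕ∞) ((↑) : ℕ → ℕ∞) ENat.isEmbedding_natCast
    range_natCast_eq

theorem main (H : ∀ (X : Type) [TopologicalSpace X] [T35Space X] [Infinite X],
      (∀ A : Set X,
        (∃ φ : C(A, ℝ) →ₗ[ℝ] C(X, ℝ),
          @Continuous _ _ (pt A) (pt X) (⇑φ) ∧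
          ∀ f : C(A, ℝ), ∀ a : A, φ f a = f a) →
        ∃ e : C(X, ℝ) ≃ₗ[ℝ] C(X ⊕ A, ℝ),
          @Continuous _ _ (pt X) (pt (X ⊕ A)) (⇑e) ∧
          @Continuous _ _ (pt (X ⊕ A)) (pt X) (⇑e.symm)) →
      ∃ e : C(X × OnePoint ℕ, ℝ) ≃ₗ[ℝ] C(X, ℝ),
        @Continuous _ _ (pt (X × OnePoint ℕ)) (pt X) (⇑e) ∧
        @Continuous _ _ (pt X) (pt (X × OnePoint ℕ)) (⇑e.symm)) : False := by
  have hinf : Infinite (Ultrafilter ℕ) :=
    Infinite.of_injective (pure : ℕ → Ultrafilter ℕ) (fun a b h => by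
      have h1 : ({a} : Set ℕ) ∈ (pure b : Ultrafilter ℕ) := by
        rw [← h]
        exact Ultrafilter.mem_pure.2 rfl
      exact (Ultrafilter.mem_pure.1 h1).symm)
  obtain ⟨e, he1, he2⟩ := H (Ultrafilter ℕ) (by
    rintro A ⟨φ, hφ, hext⟩
    obtain ⟨L⟩ := lstable A ⟨{ toFun := fun f => toCp _ (φ ((toCp A).symm f))
                               map_add' := fun f g => by simp
                               map_smul' := fun c f => by simp
                               cont := lift_cont φ hφ }, fun f a => by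
                                exact hext ((toCp A).symm f) a⟩
    exact of_equiv L)
  apply not_sstable
  refine LEquivalent.trans (LEquivalent.of_homeo ?_) (to_equiv e he1 he2)
  exact (Homeomorph.refl (Ultrafilter ℕ)).prodCongr onePointHomeo.symm

end Pool.Agent.V11218.CpT
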