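import Mathlib
import Pool.Agent.Helper639.AL

set_option autoImplicit false

/-! Countably compact sets of functions on spaces with a dense `σ`-bounded subspace. -/

namespace Pool.Agent.V11218.AV

open Set Filter Topology

theorem cluster_unique {x a : ℝ} {u : ℕ → ℝ} (h : MapClusterPt x atTop u)
    (ht : Tendsto u atTop (𝓝 a)) : x = a := by
  have h1 : NeBot (𝓝 x ⊓ map u atTop) := h
  have h2 : NeBot (𝓝 x ⊓ 𝓝 a) := h1.mono (inf_le_inf_left _ ht)
  exact eq_of_nhds_neBot h2

theorem cluster_closed {Y : Type*} [TopologicalSpace Y] {x : Y} {u : ℕ → Y} {C : Set Y}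
    (hC : IsClosed C) (hu : ∀ᶠ n in atTop, u n ∈ C) (h : MapClusterPt x atTop u) : x ∈ C := by
  by_contra hx
  have h1 := (mapClusterPt_iff_frequently.1 h) _ (hC.isOpen_compl.mem_nhds hx)
  obtain ⟨n, hn1, hn2⟩ := (h1.and_eventually hu).exists
  exact hn1 hn2

/-- The double limit lemma. -/
theorem cont_of_closure {P S : Type*} [TopologicalSpace P] (φ : P → S → ℝ)
    (hP : ∀ s, Continuous fun p => φ p s)
    (hcc : ∀ u : ℕ → P, ∃ p, MapClusterPt p atTop u) (B : Set S)
    (hB : ∀ (p : ℕ → P) (s : ℕ → S), (∀ k, s k ∈ B) →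
      ∃ s', ∀ i, MapClusterPt (φ (p i) s') atTop (fun k => φ (p i) (s k)))
    (g : P → ℝ) (hg : g ∈ closure ((fun s p => φ p s) '' B)) : Continuous g := by
  classical
  rw [continuous_iff_continuousAt]
  intro p0
  by_contra hcon
  obtain ⟨ε, hε, hfr⟩ : ∃ ε > 0, ∃ᶠ p in 𝓝 p0, ε ≤ |g p - g p0| := by
    by_contra h
    push Not at h
    apply hcon
    rw [ContinuousAt, Metric.tendsto_nhds]
    intro ε hε
    filter_upwards [h ε hε] with p hp
    rw [Real.dist_eq]
    exact hp
  -- the recursive choice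
  have hchoice := exists_seq_of_forall_finset_exists
    (fun y : ℕ × S × P => y.2.1 ∈ B ∧ ε ≤ |g y.2.2 - g p0| ∧
      |φ p0 y.2.1 - g p0| < 1 / ((y.1 : ℝ) + 1))
    (fun x y : ℕ × S × P => x.1 < y.1 ∧ |φ x.2.2 y.2.1 - g x.2.2| < 1 / ((y.1 : ℝ) + 1) ∧
      |φ y.2.2 x.2.1 - φ p0 x.2.1| < 1 / ((y.1 : ℝ) + 1)) (by
    intro s _
    obtain ⟨N, hN⟩ : ∃ N : ℕ, ∀ x ∈ s, x.1 < N := by
      obtain ⟨M, hM⟩ := (s.image fun x => x.1).exists_le
      exact ⟨M + 1, fun x hx => Nat.lt_succ_of_le (hM _ (Finset.mem_image_of_mem _ hx))⟩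
    have hδ : (0 : ℝ) < 1 / ((N : ℝ) + 1) := by positivity
    -- the point of `S`
    let T : Finset P := insert p0 (s.image fun x => x.2.2)
    have hnb : {q : P → ℝ | ∀ p ∈ T, |q p - g p| < 1 / ((N : ℝ) + 1)} ∈ 𝓝 g := by
      have h1 : IsOpen {q : P → ℝ | ∀ p ∈ T, |q p - g p| < 1 / ((N : ℝ) + 1)} := by
        have h2 : {q : P → ℝ | ∀ p ∈ T, |q p - g p| < 1 / ((N : ℝ) + 1)} =
            ⋂ p ∈ T, {q : P → ℝ | |q p - g p| < 1 / ((N : ℝ) + 1)} := by
          ext q
          simp
        rw [h2]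
        refine isOpen_biInter_finset fun p _ => ?_
        exact isOpen_lt (by fun_prop) continuous_const
      refine h1.mem_nhds fun p _ => ?_
      simpa using hδ
    obtain ⟨_, hq, s', hs', rfl⟩ := mem_closure_iff_nhds.1 hg _ hnb
    -- the point of `P`
    have hnb2 : ∀ᶠ p in 𝓝 p0, ∀ x ∈ s, |φ p x.2.1 - φ p0 x.2.1| < 1 / ((N : ℝ) + 1) := by
      rw [Filter.eventually_all_finset]
      intro x _
      have h1 : IsOpen {p : P | |φ p x.2.1 - φ p0 x.2.1| < 1 / ((N : ℝ) + 1)} :=
        isOpen_lt (((hP x.2.1).sub continuous_const).abs) continuous_const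
      refine h1.mem_nhds ?_
      show |φ p0 x.2.1 - φ p0 x.2.1| < _
      simpa using hδ
    obtain ⟨p', hp1, hp2⟩ := (hfr.and_eventually hnb2).exists
    refine ⟨(N, s', p'), ⟨hs', hp1, hq p0 (Finset.mem_insert_self _ _)⟩, fun x hx =>
      ⟨hN x hx, ?_, hp2 x hx⟩⟩
    exact hq x.2.2 (Finset.mem_insert_of_mem (Finset.mem_image_of_mem _ hx)))
  obtain ⟨f, hf1, hf2⟩ := hchoice
  have hmono : ∀ k, k ≤ (f k).1 := by
    intro k
    induction k with
    | zero => exact Nat.zero_le _
    | succ k ih => exact lt_of_le_of_lt ih (hf2 k (k + 1) (Nat.lt_succ_self k)).1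
  have hinv : ∀ k, 1 / (((f k).1 : ℝ) + 1) ≤ 1 / ((k : ℝ) + 1) := by
    intro k
    apply one_div_le_one_div_of_le (by positivity)
    have : (k : ℝ) ≤ ((f k).1 : ℝ) := by exact_mod_cast hmono k
    linarith
  have hto : ∀ (v : ℕ → ℝ) (a : ℝ) (m : ℕ), (∀ k, m < k → |v k - a| < 1 / (((f k).1 : ℝ) + 1)) →
      Tendsto v atTop (𝓝 a) := by
    intro v a m hv
    rw [tendsto_iff_dist_tendsto_zero]
    refine squeeze_zero' (Eventually.of_forall fun _ => dist_nonneg) ?_
      tendsto_one_div_add_atTop_nhds_zero_nat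
    filter_upwards [eventually_gt_atTop m] with k hk
    rw [Real.dist_eq]
    exact (hv k hk).le.trans (hinv k)
  obtain ⟨ps, hps⟩ := hcc fun k => (f k).2.2
  have hA1 : ∀ m, φ ps (f m).2.1 = φ p0 (f m).2.1 := by
    intro m
    have h1 : MapClusterPt (φ ps (f m).2.1) atTop fun k => φ (f k).2.2 (f m).2.1 :=
      hps.continuousAt_comp (hP (f m).2.1).continuousAt
    exact cluster_unique h1 (hto _ _ m fun k hk => (hf2 m k hk).2.2)
  obtain ⟨s', hs'⟩ := hB (fun i => if i = 0 then ps else (f (i - 1)).2.2) (fun k => (f k).2.1)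
    fun k => (hf1 k).1
  have hA2 : ∀ m, φ (f m).2.2 s' = g (f m).2.2 := by
    intro m
    have h1 := hs' (m + 1)
    simp only [Nat.add_eq_zero_iff, one_ne_zero, and_false, if_false, Nat.add_sub_cancel] at h1
    exact cluster_unique h1 (hto _ _ m fun k hk => (hf2 m k hk).2.1)
  have hA3 : φ ps s' = g p0 := by
    have h1 := hs' 0
    simp only [if_true] at h1
    refine cluster_unique h1 ?_
    simp only [hA1]
    rw [tendsto_iff_dist_tendsto_zero]
    refine squeeze_zero (fun _ => dist_nonneg) (fun k => ?_)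
      tendsto_one_div_add_atTop_nhds_zero_nat
    rw [Real.dist_eq]
    exact (hf1 k).2.2.le.trans (hinv k)
  have hA4 : ε ≤ |φ ps s' - g p0| := by
    have h1 : MapClusterPt (φ ps s') atTop fun k => φ (f k).2.2 s' :=
      hps.continuousAt_comp (hP s').continuousAt
    have h2 : IsClosed {t : ℝ | ε ≤ |t - g p0|} :=
      isClosed_le continuous_const (by fun_prop)
    refine cluster_closed (C := {t : ℝ | ε ≤ |t - g p0|}) h2
      (Eventually.of_forall fun k => ?_) h1
    show ε ≤ |φ (f k).2.2 s' - g p0|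
    rw [hA2]
    exact (hf1 k).2.1
  rw [hA3, sub_self, abs_zero] at hA4
  exact absurd hA4 (not_le.2 hε)

/-- A sequence in a bounded set has a cluster point with respect to countably many functions. -/
theorem bounded_cluster {X : Type*} [TopologicalSpace X] (A : Set X)
    (hA : ∀ f : X → ℝ, Continuous f → ∃ C : ℝ, ∀ x ∈ A, |f x| ≤ C) (T : X → ℕ → ℝ)
    (hT : Continuous T) (s : ℕ → X) (hs : ∀ k, s k ∈ A) :
    ∃ x, MapClusterPt (T x) atTop (fun k => T (s k)) := by
  by_contra hcon
  push Not at hcon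
  let _ : MetricSpace (ℕ → ℝ) := TopologicalSpace.metrizableSpaceMetric (ℕ → ℝ)
  let E : Set ((ℕ → ℝ) × ℝ) := range fun k : ℕ => (T (s k), 1 / ((k : ℝ) + 1))
  have hE : E.Nonempty := range_nonempty _
  let φ : X → ℝ := fun x => Metric.infDist (T x, (0 : ℝ)) E
  have hφ : Continuous φ := (Metric.continuous_infDist_pt E).comp (hT.prodMk continuous_const)
  have hpos : ∀ x, 0 < φ x := by
    intro x
    refine (Metric.infDist_pos_iff_notMem_closure hE).1 ?_
    intro hcl
    apply hcon x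
    rw [mapClusterPt_iff_frequently]
    intro U hU
    rw [frequently_atTop]
    intro N
    obtain ⟨ε, hε, hball⟩ := Metric.mem_nhds_iff.1 hU
    obtain ⟨_, ⟨k, rfl⟩, hk⟩ := Metric.mem_closure_iff.1 hcl (min ε (1 / ((N : ℝ) + 1)))
      (lt_min hε (by positivity))
    rw [Prod.dist_eq, max_lt_iff] at hk
    obtain ⟨hk1, hk2⟩ := hk
    refine ⟨k, ?_, hball ?_⟩
    · have h1 := lt_of_lt_of_le hk2 (min_le_right _ _)
      simp only [Real.dist_eq, zero_sub, abs_neg] at h1
      rw [abs_of_pos (by positivity : (0 : ℝ) < 1 / ((k : ℝ) + 1))] at h1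
      have h2 := lt_of_one_div_lt_one_div (by positivity) h1
      have h3 : (N : ℝ) < k := by linarith
      exact_mod_cast h3.le
    · rw [Metric.mem_ball, dist_comm]
      exact lt_of_lt_of_le hk1 (min_le_left _ _)
  obtain ⟨C, hC⟩ := hA (fun x => (φ x)⁻¹) (hφ.inv₀ fun x => (hpos x).ne')
  obtain ⟨k, hk⟩ := exists_nat_gt C
  have h1 : φ (s k) ≤ 1 / ((k : ℝ) + 1) := by
    refine (Metric.infDist_le_dist_of_mem (mem_range_self k)).trans ?_
    rw [Prod.dist_eq]
    simp only [dist_self, Real.dist_eq, zero_sub, abs_neg]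
    rw [abs_of_pos (by positivity : (0 : ℝ) < 1 / ((k : ℝ) + 1))]
    exact max_le (by positivity) le_rfl
  have h2 := hC (s k) (hs k)
  have h3 : (k : ℝ) + 1 ≤ (φ (s k))⁻¹ := by
    rw [le_inv_comm₀ (by positivity) (hpos _)]
    simpa using h1
  have h4 := le_abs_self ((φ (s k))⁻¹)
  linarith

/-- Sequences in sets of functions of countable support. -/
theorem exists_seq_tendsto {D Γ : Type*} (H : D → Γ → ℝ) (hH : ∀ d, {γ | H d γ ≠ 0}.Countable)
    (z : Γ → ℝ) (hz : {γ | z γ ≠ 0}.Countable) (C : Set D) (hzc : z ∈ closure (H '' C)) :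
    ∃ d : ℕ → D, (∀ k, d k ∈ C) ∧ ∀ γ, Tendsto (fun k => H (d k) γ) atTop (𝓝 (z γ)) := by
  classical
  rcases isEmpty_or_nonempty Γ with hΓ | hΓ
  · obtain ⟨_, d, hd, rfl⟩ := (mem_closure_iff_nhds.1 hzc univ univ_mem).imp fun _ h => h.2
    exact ⟨fun _ => d, fun _ => hd, fun γ => (hΓ.false γ).elim⟩
  have henum : ∀ v : Γ → ℝ, {γ | v γ ≠ 0}.Countable → ∃ e : ℕ → Γ, ∀ γ, v γ ≠ 0 → ∃ j, e j = γ := by
    intro v hv
    rcases ({γ | v γ ≠ 0} : Set Γ).eq_empty_or_nonempty with h0 | h0
    · refine ⟨fun _ => hΓ.some, fun γ hγ => ?_⟩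
      have : γ ∈ ({γ | v γ ≠ 0} : Set Γ) := hγ
      rw [h0] at this
      exact this.elim
    · obtain ⟨e, he⟩ := hv.exists_eq_range h0
      refine ⟨e, fun γ hγ => ?_⟩
      have : γ ∈ ({γ | v γ ≠ 0} : Set Γ) := hγ
      rw [he] at this
      exact this
  obtain ⟨ez, hez⟩ := henum z hz
  choose e he using fun d => henum (H d) (hH d)
  have hchoice := exists_seq_of_forall_finset_exists
    (fun y : ℕ × D => y.2 ∈ C ∧ ∀ j ≤ y.1, |H y.2 (ez j) - z (ez j)| < 1 / ((y.1 : ℝ) + 1))
    (fun x y : ℕ × D => x.1 < y.1 ∧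
      ∀ j ≤ y.1, |H y.2 (e x.2 j) - z (e x.2 j)| < 1 / ((y.1 : ℝ) + 1)) (by
    intro s _
    obtain ⟨N, hN⟩ : ∃ N : ℕ, ∀ x ∈ s, x.1 < N := by
      obtain ⟨M, hM⟩ := (s.image fun x => x.1).exists_le
      exact ⟨M + 1, fun x hx => Nat.lt_succ_of_le (hM _ (Finset.mem_image_of_mem _ hx))⟩
    have hδ : (0 : ℝ) < 1 / ((N : ℝ) + 1) := by positivity
    let T : Finset Γ := (Finset.range (N + 1)).image ez ∪
      s.biUnion fun x => (Finset.range (N + 1)).image (e x.2)
    have hnb : {q : Γ → ℝ | ∀ γ ∈ T, |q γ - z γ| < 1 / ((N : ℝ) + 1)} ∈ 𝓝 z := by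
      have h1 : IsOpen {q : Γ → ℝ | ∀ γ ∈ T, |q γ - z γ| < 1 / ((N : ℝ) + 1)} := by
        have h2 : {q : Γ → ℝ | ∀ γ ∈ T, |q γ - z γ| < 1 / ((N : ℝ) + 1)} =
            ⋂ γ ∈ T, {q : Γ → ℝ | |q γ - z γ| < 1 / ((N : ℝ) + 1)} := by
          ext q
          simp
        rw [h2]
        refine isOpen_biInter_finset fun γ _ => ?_
        exact isOpen_lt (by fun_prop) continuous_const
      refine h1.mem_nhds fun γ _ => ?_
      simpa using hδ
    obtain ⟨_, hq, d, hd, rfl⟩ := mem_closure_iff_nhds.1 hzc _ hnb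
    refine ⟨(N, d), ⟨hd, fun j hj => hq _ ?_⟩, fun x hx => ⟨hN x hx, fun j hj => hq _ ?_⟩⟩
    · exact Finset.mem_union_left _ (Finset.mem_image_of_mem _
        (Finset.mem_range.2 (Nat.lt_succ_of_le hj)))
    · exact Finset.mem_union_right _ (Finset.mem_biUnion.2 ⟨x, hx, Finset.mem_image_of_mem _
        (Finset.mem_range.2 (Nat.lt_succ_of_le hj))⟩))
  obtain ⟨f, hf1, hf2⟩ := hchoice
  have hmono : ∀ k, k ≤ (f k).1 := by
    intro k
    induction k with
    | zero => exact Nat.zero_le _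
    | succ k ih => exact lt_of_le_of_lt ih (hf2 k (k + 1) (Nat.lt_succ_self k)).1
  have hinv : ∀ k, 1 / (((f k).1 : ℝ) + 1) ≤ 1 / ((k : ℝ) + 1) := by
    intro k
    apply one_div_le_one_div_of_le (by positivity)
    have : (k : ℝ) ≤ ((f k).1 : ℝ) := by exact_mod_cast hmono k
    linarith
  have hto : ∀ (v : ℕ → ℝ) (a : ℝ) (m : ℕ), (∀ k, m < k → |v k - a| < 1 / (((f k).1 : ℝ) + 1)) →
      Tendsto v atTop (𝓝 a) := by
    intro v a m hv
    rw [tendsto_iff_dist_tendsto_zero]
    refine squeeze_zero' (Eventually.of_forall fun _ => dist_nonneg) ?_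
      tendsto_one_div_add_atTop_nhds_zero_nat
    filter_upwards [eventually_gt_atTop m] with k hk
    rw [Real.dist_eq]
    exact (hv k hk).le.trans (hinv k)
  refine ⟨fun k => (f k).2, fun k => (hf1 k).1, fun γ => ?_⟩
  by_cases h1 : z γ = 0
  · by_cases h2 : ∀ k, H (f k).2 γ = 0
    · simp only [h2, h1]
      exact tendsto_const_nhds
    · push Not at h2
      obtain ⟨m, hm⟩ := h2
      obtain ⟨j, rfl⟩ := he _ γ hm
      refine hto _ _ (max m j) fun k hk => ?_
      exact (hf2 m k (lt_of_le_of_lt (le_max_left _ _) hk)).2 j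
        ((le_max_right m j).trans (hk.le.trans (hmono k)))
  · obtain ⟨j, rfl⟩ := hez γ h1
    refine hto _ _ j fun k hk => ?_
    exact (hf1 k).2 j (hk.le.trans (hmono k))

/-- The bounded transform. -/
noncomputable def sq (t : ℝ) : ℝ := t / (1 + |t|)

theorem sq_cont : Continuous sq := by
  unfold sq
  refine continuous_id.div (by fun_prop) fun t => ?_
  positivity

theorem sq_le (t : ℝ) : |sq t| ≤ 1 := by
  unfold sq
  have hp : 0 < 1 + |t| := by positivity
  rw [abs_div, abs_of_pos hp, div_le_one hp]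
  linarith

theorem sq_inj {s t : ℝ} (h : sq s = sq t) : s = t := by
  unfold sq at h
  have hs : 0 < 1 + |s| := by positivity
  have ht : 0 < 1 + |t| := by positivity
  rw [div_eq_div_iff hs.ne' ht.ne'] at h
  rcases le_or_gt 0 s with h1 | h1 <;> rcases le_or_gt 0 t with h2 | h2
  · rw [abs_of_nonneg h1, abs_of_nonneg h2] at h
    nlinarith
  · rw [abs_of_nonneg h1, abs_of_neg h2] at h
    nlinarith
  · rw [abs_of_neg h1, abs_of_nonneg h2] at h
    nlinarith
  · rw [abs_of_neg h1, abs_of_neg h2] at h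
    nlinarith

/-- pointwise bounded closed sets of functions are compact -/
theorem isCompact_closure_of_bdd {Y : Type*} (E : Set (Y → ℝ)) (hE : ∀ q ∈ E, ∀ y, |q y| ≤ 1) :
    IsCompact (closure E) := by
  have h1 : IsCompact (Set.pi univ fun _ : Y => Icc (-1 : ℝ) 1) :=
    isCompact_univ_pi fun _ => isCompact_Icc
  refine h1.of_isClosed_subset isClosed_closure ?_
  refine h1.isClosed.closure_subset_iff.2 ?_
  intro q hq y _
  exact abs_le.1 (hE q hq y)

/-- The family of functions on `K`. -/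
noncomputable def fam {X : Type} (K : Set (X → ℝ)) (f : K) : Option (ℕ × X) → ℝ
  | none => 0
  | some (n, x) => sq (f.1 x) / ((n : ℝ) + 1)

theorem fam_le {X : Type} (K : Set (X → ℝ)) (f : K) (s : Option (ℕ × X)) : |fam K f s| ≤ 1 := by
  cases s with
  | none => simp [fam]
  | some y =>
    obtain ⟨n, x⟩ := y
    show |sq (f.1 x) / ((n : ℝ) + 1)| ≤ 1
    have hp : (0 : ℝ) < (n : ℝ) + 1 := by positivity
    rw [abs_div, abs_of_pos hp, div_le_one hp]
    have h1 := sq_le (f.1 x)
    have h2 : (0 : ℝ) ≤ n := Nat.cast_nonneg n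
    linarith

theorem main {X : Type} [TopologicalSpace X] (A : ℕ → Set X)
    (hA : ∀ n, ∀ f : X → ℝ, Continuous f → ∃ C : ℝ, ∀ x ∈ A n, |f x| ≤ C)
    (hd : Dense (⋃ n, A n)) (K : Set (X → ℝ)) (hK : ∀ f ∈ K, Continuous f)
    (hcc : ∀ u : ℕ → K, ∃ p, MapClusterPt p atTop u) :
    CompactSpace K ∧ ∃ (Γ : Type) (e : K → (Γ → ℝ)), Topology.IsEmbedding e ∧
            ∀ k : K, ∀ ε : ℝ, 0 < ε → {γ : Γ | ε ≤ |e k γ|}.Finite := by
  classical
  let B : Set (Option (ℕ × X)) := {s | ∀ n x, s = some (n, x) → x ∈ A n}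
  let M : Set (K → ℝ) := closure ((fun s f => fam K f s) '' B)
  have hMc : IsCompact M := isCompact_closure_of_bdd _ (by
    rintro _ ⟨s, _, rfl⟩ f
    exact fam_le K f s)
  have hfam : ∀ s, Continuous fun f : K => fam K f s := by
    intro s
    cases s with
    | none => exact continuous_const
    | some y =>
      obtain ⟨n, x⟩ := y
      show Continuous fun f : K => sq (f.1 x) / ((n : ℝ) + 1)
      exact (sq_cont.comp ((continuous_apply x).comp continuous_subtype_val)).div_const _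
  have hMcont : ∀ g ∈ M, Continuous g := by
    intro g hg
    refine cont_of_closure (fun f s => fam K f s) hfam hcc B ?_ g hg
    intro p s hs
    by_cases hex : ∃ n, ∃ᶠ k in atTop, ∃ x, s k = some (n, x)
    · obtain ⟨n, hn⟩ := hex
      obtain ⟨ψ, hψ, hx⟩ := extraction_of_frequently_atTop hn
      choose x hx using hx
      have hxA : ∀ j, x j ∈ A n := fun j => hs (ψ j) n (x j) (hx j)
      obtain ⟨x', hx'⟩ := bounded_cluster (A n) (hA n) (fun x i => (p i).1 x)
        (continuous_pi fun i => hK _ (p i).2) x hxA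
      refine ⟨some (n, x'), fun i => ?_⟩
      have h1 : MapClusterPt ((p i).1 x') atTop fun j => (p i).1 (x j) :=
        hx'.continuousAt_comp (f := fun q : ℕ → ℝ => q i) (continuous_apply i).continuousAt
      have h2 : MapClusterPt (fam K (p i) (some (n, x'))) atTop
          fun j => fam K (p i) (some (n, x j)) :=
        h1.continuousAt_comp (f := fun t : ℝ => sq t / ((n : ℝ) + 1))
          (sq_cont.div_const _).continuousAt
      have h3 : MapClusterPt (fam K (p i) (some (n, x'))) atTop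
          ((fun k => fam K (p i) (s k)) ∘ ψ) := by
        have h4 : ((fun k => fam K (p i) (s k)) ∘ ψ) = fun j => fam K (p i) (some (n, x j)) := by
          funext j
          simp only [Function.comp, hx]
        rw [h4]
        exact h2
      exact h3.of_comp hψ.tendsto_atTop
    · push Not at hex
      refine ⟨none, fun i => ?_⟩
      refine Tendsto.mapClusterPt ?_
      show Tendsto (fun k => fam K (p i) (s k)) atTop (𝓝 0)
      rw [Metric.tendsto_nhds]
      intro ε hε
      obtain ⟨N, hN⟩ := exists_nat_one_div_lt hε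
      have h1 : ∀ᶠ k in atTop, ∀ n ∈ Finset.range N, ∀ x, s k ≠ some (n, x) := by
        rw [Filter.eventually_all_finset]
        exact fun n _ => hex n
      filter_upwards [h1] with k hk
      rw [Real.dist_eq, sub_zero]
      cases hsk : s k with
      | none => simpa [fam] using hε
      | some y =>
        obtain ⟨n, x⟩ := y
        have hn : N ≤ n := by
          by_contra hcon
          exact hk n (Finset.mem_range.2 (not_le.1 hcon)) x hsk
        show |sq ((p i).1 x) / ((n : ℝ) + 1)| < ε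
        have hp : (0 : ℝ) < (n : ℝ) + 1 := by positivity
        rw [abs_div, abs_of_pos hp]
        have h2 : |sq ((p i).1 x)| / ((n : ℝ) + 1) ≤ 1 / ((n : ℝ) + 1) :=
          div_le_div_of_nonneg_right (sq_le _) hp.le
        have h3 : 1 / ((n : ℝ) + 1) ≤ 1 / ((N : ℝ) + 1) := by
          apply one_div_le_one_div_of_le (by positivity)
          have : (N : ℝ) ≤ (n : ℝ) := by exact_mod_cast hn
          linarith
        linarith
  have hMle : ∀ g ∈ M, ∀ f, |g f| ≤ 1 := by
    intro g hg f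
    have h1 : IsClosed {q : K → ℝ | |q f| ≤ 1} := isClosed_le (by fun_prop) continuous_const
    have h2 : M ⊆ {q : K → ℝ | |q f| ≤ 1} := h1.closure_subset_iff.2 (by
      rintro _ ⟨s, _, rfl⟩
      exact fam_le K f s)
    exact h2 hg
  have hMcs : CompactSpace M := isCompact_iff_compactSpace.1 hMc
  -- the second closure
  let Q : Set (M → ℝ) := closure ((fun (f : K) (m : M) => m.1 f) '' univ)
  have hQc : IsCompact Q := isCompact_closure_of_bdd _ (by
    rintro _ ⟨f, _, rfl⟩ m
    exact hMle m.1 m.2 f)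
  have hQcs : CompactSpace Q := isCompact_iff_compactSpace.1 hQc
  have hQcont : ∀ q ∈ Q, Continuous q := by
    intro q hq
    refine cont_of_closure (fun (m : M) (f : K) => m.1 f)
      (fun f => (continuous_apply f).comp continuous_subtype_val) ?_ univ ?_ q hq
    · intro u
      obtain ⟨p, -, hp⟩ := isCompact_univ.exists_mapClusterPt_of_frequently
        (f := u) (l := atTop) (Eventually.of_forall fun _ => mem_univ _).frequently
      exact ⟨p, hp⟩
    · intro p s _
      obtain ⟨f, hf⟩ := hcc s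
      exact ⟨f, fun i => hf.continuousAt_comp (hMcont _ (p i).2).continuousAt⟩
  obtain ⟨Γ, h, hC0, hinj⟩ := Pool.Agent.Helper639.Ebl.al (K := Q) (F := M)
    (fun q m => q.1 m) (fun m => (continuous_apply m).comp continuous_subtype_val)
    (fun q => hQcont q.1 q.2) (fun q q' hqq => Subtype.ext (funext hqq))
  let ι : K → Q := fun f => ⟨fun m => m.1 f, subset_closure ⟨f, mem_univ _, rfl⟩⟩
  have hιc : Continuous ι :=
    Continuous.subtype_mk (continuous_pi fun m => hMcont m.1 m.2) _
  have hιi : Function.Injective ι := by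
    intro f f' hff
    have h1 : ∀ m : M, m.1 f = m.1 f' := fun m => congrFun (congrArg Subtype.val hff) m
    have h2 : ∀ n, ∀ x ∈ A n, f.1 x = f'.1 x := by
      intro n x hx
      have h3 : (fun g : K => fam K g (some (n, x))) ∈ M := by
        refine subset_closure ⟨some (n, x), ?_, rfl⟩
        intro n' x' heq
        obtain ⟨rfl, rfl⟩ := Prod.mk.inj (Option.some.inj heq)
        exact hx
      have h4 := h1 ⟨_, h3⟩
      have h5 : sq (f.1 x) / ((n : ℝ) + 1) = sq (f'.1 x) / ((n : ℝ) + 1) := h4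
      have hp : ((n : ℝ) + 1) ≠ 0 := by positivity
      exact sq_inj ((div_left_inj' hp).1 h5)
    apply Subtype.ext
    refine Continuous.ext_on hd (hK _ f.2) (hK _ f'.2) ?_
    intro x hx
    obtain ⟨n, hn⟩ := mem_iUnion.1 hx
    exact h2 n x hn
  have hhc : Continuous h := continuous_pi hC0.cont
  have hcl : IsClosedMap ι := by
    intro C hC
    refine isClosed_of_closure_subset fun q hq => ?_
    have h1 : h q ∈ closure ((fun f : K => h (ι f)) '' C) := by
      have h2 := image_closure_subset_closure_image hhc (mem_image_of_mem h hq)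
      rw [image_image] at h2
      exact h2
    obtain ⟨d, hdC, hdt⟩ := exists_seq_tendsto (fun f : K => h (ι f))
      (fun f => Pool.Agent.Helper639.Ebl.supp_countable (hC0.fin (ι f))) (h q)
      (Pool.Agent.Helper639.Ebl.supp_countable (hC0.fin q)) C h1
    obtain ⟨f, hf⟩ := hcc d
    have hfC : f ∈ C := cluster_closed hC (Eventually.of_forall hdC) hf
    refine ⟨f, hfC, hinj ?_⟩
    funext γ
    have h3 : MapClusterPt (h (ι f) γ) atTop fun k => h (ι (d k)) γ :=
      hf.continuousAt_comp (((hC0.cont γ).comp hιc).continuousAt)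
    exact cluster_unique h3 (hdt γ)
  have hemb : IsClosedEmbedding ι := IsClosedEmbedding.of_continuous_injective_isClosedMap hιc hιi hcl
  have hKc : CompactSpace K := hemb.compactSpace
  refine ⟨hKc, Γ, fun f => h (ι f), ?_, fun f ε hε => hC0.fin (ι f) ε hε⟩
  exact ((hhc.comp hιc).isClosedEmbedding (hinj.comp hιi)).isEmbedding

end Pool.Agent.V11218.AV
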