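import Pool.Agent.Helper614.PB3

/-!
# A space with a cocompact pretty base that is not normal

The space `X4 = Sp u4` of `Pool.Agent.Helper614.PB3` is a plank: its points are the countably
supported ultrafilters on the grid `D4` (cells) and on the index set `I4` of the rows and columns
of the grid.  The set of the points concentrated on the rows and the set of the points concentrated
on the columns are disjoint closed sets.  There are more rows than columns, and the filter of a
column contains all sets of cells of that column that omit at most as many cells as there are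
columns; so open sets containing the two closed sets meet.
-/

open Set Filter Topology TopologicalSpace Cardinal

namespace Pool.Agent.V11218.NNormal

/-- `𝓑` is a pretty base of the space `X`: a base of clopen sets such that whenever countably many
members (the family `𝒞`) are each disjoint from each member of an arbitrary subfamily `𝒟`, some
member `W` contains all members of `𝒞` and misses all members of `𝒟`. -/
structure IsPrettyBase {X : Type*} [TopologicalSpace X] (𝓑 : Set (Set X)) : Prop where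
  isBasis : IsTopologicalBasis 𝓑
  isClopen : ∀ U ∈ 𝓑, IsClopen U
  nested : ∀ 𝒞 ⊆ 𝓑, ∀ 𝒟 ⊆ 𝓑, 𝒞.Countable → (∀ U ∈ 𝒞, ∀ V ∈ 𝒟, Disjoint U V) →
    ∃ W ∈ 𝓑, (∀ U ∈ 𝒞, U ⊆ W) ∧ ∀ V ∈ 𝒟, Disjoint W V

/-- The cotopology of a base `𝓑`: generated by the complements of the closures of its members. -/
abbrev cotopology {X : Type*} [TopologicalSpace X] (𝓑 : Set (Set X)) : TopologicalSpace X :=
  generateFrom {V | ∃ B ∈ 𝓑, V = (closure B)ᶜ}

/-- `X` has a cocompact pretty base: a pretty base whose cotopology is compact. -/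
def HasCocompactPrettyBase (X : Type*) [TopologicalSpace X] : Prop :=
  ∃ 𝓑 : Set (Set X), IsPrettyBase 𝓑 ∧ @CompactSpace X (cotopology 𝓑)

open Pool.Agent.Helper614.PB

/-- the points concentrated on rows -/
def rowSet : Set X4 := {x | ∃ w, x = Sum.inr w ∧ Set.range (Sum.inl : Kap → I4) ∈ w.1}

/-- the points concentrated on columns -/
def colSet : Set X4 :=
  {x | ∃ w, x = Sum.inr w ∧ Set.range (Sum.inr : unitInterval × Lam → I4) ∈ w.1}

theorem disj : Disjoint rowSet colSet := by
  rw [Set.disjoint_left]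
  rintro _ ⟨w, rfl, h1⟩ ⟨w', h, h2⟩
  have hw : w = w' := Sum.inr_injective h
  subst hw
  have h3 := w.1.inter_mem h1 h2
  have h4 : Set.range (Sum.inl : Kap → I4) ∩ Set.range (Sum.inr : unitInterval × Lam → I4) = ∅ := by
    ext i
    simp only [Set.mem_inter_iff, Set.mem_range, Set.mem_empty_iff_false, iff_false, not_and]
    rintro ⟨a, rfl⟩ ⟨b, hb⟩
    exact Sum.inr_ne_inl hb
  rw [h4] at h3
  exact w.1.empty_notMem h3

/-- General fact: the points concentrated on a set `J` of indices form a closed set. -/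
theorem closed_of (J : Set I4) : IsClosed {x : X4 | ∃ w, x = Sum.inr w ∧ J ∈ w.1} := by
  rw [← isOpen_compl_iff, isOpen_iff_mem_nhds]
  rintro x hx
  rw [Pool.Agent.Helper614.PB.mem_nhds_iff']
  rcases x with ⟨p, C, hC, hCc⟩ | ⟨w, S, hS, hSc⟩
  · refine ⟨C, hC, ?_⟩
    rintro y hy ⟨w', rfl, hJ⟩
    have h1 : {i | C ∈ u4 i} ∈ w'.1 := hy
    have h2 : {i | C ∈ u4 i} = ∅ := by
      ext i
      simp only [mem_ofPred_eq, mem_empty_iff_false, iff_false]
      intro h3
      have h4 := Filter.inter_mem h3 (good4.cocount i C hCc)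
      rw [inter_compl_self] at h4
      exact (good4.nebot i).ne (Filter.empty_mem_iff_bot.1 h4)
    rw [h2] at h1
    exact w'.1.empty_notMem h1
  · have hJ : J ∉ w := fun h => hx ⟨_, rfl, h⟩
    have hJ' : Jᶜ ∈ w := Ultrafilter.compl_mem_iff_notMem.2 hJ
    refine ⟨⋃ i ∈ S ∩ Jᶜ, R4 i, ?_, ?_⟩
    · change {i | (⋃ i ∈ S ∩ Jᶜ, R4 i) ∈ u4 i} ∈ w
      refine w.mem_of_superset (w.inter_mem hS hJ') fun i hi => ?_
      exact Filter.mem_of_superset (good4.mem i) (subset_biUnion_of_mem (u := fun i => R4 i) hi)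
    · rintro y hy ⟨w', rfl, hJw⟩
      have h1 : {i | (⋃ i ∈ S ∩ Jᶜ, R4 i) ∈ u4 i} ∈ w'.1 := hy
      obtain ⟨j, hj1, hj2⟩ : ∃ j, j ∈ J ∧ (⋃ i ∈ S ∩ Jᶜ, R4 i) ∈ u4 j := by
        obtain ⟨j, hj⟩ := w'.1.nonempty_of_mem (w'.1.inter_mem hJw h1)
        exact ⟨j, hj.1, hj.2⟩
      have hc : ((⋃ i ∈ S ∩ Jᶜ, R4 i) ∩ R4 j).Countable := by
        rw [iUnion₂_inter]
        refine (hSc.mono inter_subset_left).biUnion fun i hi => good4.ad i j ?_
        rintro rfl
        exact hi.2 hj1
      have h4 := Filter.inter_mem (Filter.inter_mem hj2 (good4.mem j)) (good4.cocount j _ hc)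
      rw [inter_compl_self] at h4
      exact (good4.nebot j).ne (Filter.empty_mem_iff_bot.1 h4)

theorem not_normal : ¬ NormalSpace X4 := by
  intro h
  obtain ⟨U, V, hU, hV, hAU, hBV, hUV⟩ := normal_separation
    (closed_of (Set.range (Sum.inl : Kap → I4)))
    (closed_of (Set.range (Sum.inr : unitInterval × Lam → I4))) disj
  have h1 : ∀ β : Kap, tr U ∈ u4 (Sum.inl β) := by
    intro β
    have : ix u4 (Sum.inl β) ∈ U := hAU ⟨_, rfl, by
      change Sum.inl β ∈ Set.range (Sum.inl : Kap → I4)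
      exact ⟨β, rfl⟩⟩
    exact trace_mem hU this
  have h2 : ∀ q : unitInterval × Lam, tr V ∈ u4 (Sum.inr q) := by
    intro q
    have : ix u4 (Sum.inr q) ∈ V := hBV ⟨_, rfl, by
      change Sum.inr q ∈ Set.range (Sum.inr : unitInterval × Lam → I4)
      exact ⟨q, rfl⟩⟩
    exact trace_mem hV this
  let N : unitInterval × Lam → Set Kap := fun q => {β | (q, β) ∉ tr V}
  have hN : ∀ q, #(N q) ≤ #Lam := by
    intro q
    have h3 : (fun β => (q, β)) ⁻¹' tr V ∈ coLE Kap #Lam aleph0_le_Lam := h2 q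
    exact mem_coLE.1 h3
  have hN' : #(⋃ q, N q) ≤ #Lam := mk_iUnion_le_of aleph0_le_Lam mk_uI_Lam N hN
  obtain ⟨s, hs⟩ := mk_Kap_fiber _ hN' 0
  have hs' : ∀ q, (q, (((0 : unitInterval), s) : Kap)) ∈ tr V := by
    intro q
    by_contra h
    exact hs (mem_iUnion.2 ⟨q, h⟩)
  have h4 := h1 ((0 : unitInterval), s)
  have := good4.nebot (Sum.inl ((0 : unitInterval), s))
  have h5 : R4 (Sum.inl ((0 : unitInterval), s)) ∈ u4 (Sum.inl ((0 : unitInterval), s)) :=
    good4.mem _
  obtain ⟨⟨q, β⟩, hq1, hq2⟩ := Filter.nonempty_of_mem (Filter.inter_mem h4 h5)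
  have hβ : β = ((0 : unitInterval), s) := hq2
  subst hβ
  exact Set.disjoint_left.1 hUV hq1 (hs' q)

/-- There is a Tychonoff space with a cocompact pretty base that is not normal. -/
theorem result : ∃ (X : Type) (_ : TopologicalSpace X), T35Space X ∧
    HasCocompactPrettyBase X ∧ ¬ NormalSpace X := by
  refine ⟨X4, inferInstance, t35 good4, ?_, not_normal⟩
  refine ⟨hat u4 '' Lat u4 R4, ⟨isBasis_lat good4, ?_, ?_⟩, cocompact good4⟩
  · rintro _ ⟨E, hE, rfl⟩; exact isClopen_hat good4 hE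
  · intro 𝒞 h𝒞 𝒟 h𝒟 hc hd
    exact nested good4 𝒞 𝒟 h𝒞 h𝒟 hc hd

end Pool.Agent.V11218.NNormal
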