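import Pool.Agent.V11218.HDL

/-!
# A `T₁` space that is not Lindelöf and has a discretely Lindelöf co-diagonal
-/

set_option autoImplicit false

open Set Topology Cardinal Filter

namespace Pool.Agent.V11218.CoDiag

open Pool.Agent.H960R3.DL
open Pool.Agent.V11218.HDL (Code Mono Rk)

variable {L : ℕ → Type} [∀ n, LinearOrder (L n)]

/-- The point set. -/
def Pt (δ : Ordinal.{0}) (G : Ordinal.{0} → ∀ n, L n) : Type :=
  {e : Code L // Mono e ∧ ∃ ξ < δ, Rk G ξ e}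

/-- Basic open sets. -/
def Bs {δ : Ordinal.{0}} {G : Ordinal.{0} → ∀ n, L n} (s : Finset (Σ n, L n))
    (t : Finset Ordinal.{0}) (F : Finset (Pt δ G)) (q : Pt δ G) : Prop :=
  (∀ a ∈ s, q.1 a = true) ∧ (∀ ζ ∈ t, ¬ Rk G ζ q.1) ∧ q ∉ F

open Classical in
instance topP (δ : Ordinal.{0}) (G : Ordinal.{0} → ∀ n, L n) : TopologicalSpace (Pt δ G) where
  IsOpen O := ∀ p ∈ O, ∃ (s : Finset (Σ n, L n)) (t : Finset Ordinal.{0}) (F : Finset (Pt δ G)),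
    (∀ ζ ∈ t, ζ < δ) ∧ Bs s t F p ∧ ∀ q : Pt δ G, Bs s t F q → q ∈ O
  isOpen_univ := fun _ _ => ⟨∅, ∅, ∅, by simp, by simp [Bs], by simp⟩
  isOpen_inter := by
    intro O O' h h' p hp
    obtain ⟨s, t, F, h1, h2, h3⟩ := h p hp.1
    obtain ⟨s', t', F', h1', h2', h3'⟩ := h' p hp.2
    refine ⟨s ∪ s', t ∪ t', F ∪ F', ?_, ⟨?_, ?_, ?_⟩, ?_⟩
    · intro ζ hζ
      rcases Finset.mem_union.1 hζ with hζ | hζ
      · exact h1 ζ hζ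
      · exact h1' ζ hζ
    · intro ζ hζ
      rcases Finset.mem_union.1 hζ with hζ | hζ
      · exact h2.1 ζ hζ
      · exact h2'.1 ζ hζ
    · intro ζ hζ
      rcases Finset.mem_union.1 hζ with hζ | hζ
      · exact h2.2.1 ζ hζ
      · exact h2'.2.1 ζ hζ
    · intro hζ
      rcases Finset.mem_union.1 hζ with hζ | hζ
      · exact h2.2.2 hζ
      · exact h2'.2.2 hζ
    · intro q hq
      exact ⟨h3 q ⟨fun a ha => hq.1 a (Finset.mem_union_left _ ha),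
        fun a ha => hq.2.1 a (Finset.mem_union_left _ ha),
        fun ha => hq.2.2 (Finset.mem_union_left _ ha)⟩,
        h3' q ⟨fun a ha => hq.1 a (Finset.mem_union_right _ ha),
        fun a ha => hq.2.1 a (Finset.mem_union_right _ ha),
        fun ha => hq.2.2 (Finset.mem_union_right _ ha)⟩⟩
  isOpen_sUnion := by
    intro S hS p hp
    obtain ⟨O, hO, hpO⟩ := hp
    obtain ⟨s, t, F, h1, h2, h3⟩ := hS O hO p hpO
    exact ⟨s, t, F, h1, h2, fun q a => ⟨O, hO, h3 q a⟩⟩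

variable {δ : Ordinal.{0}} {G : Ordinal.{0} → ∀ n, L n}

theorem isOpen_iff' {O : Set (Pt δ G)} : IsOpen O ↔
    ∀ p ∈ O, ∃ (s : Finset (Σ n, L n)) (t : Finset Ordinal.{0}) (F : Finset (Pt δ G)),
    (∀ ζ ∈ t, ζ < δ) ∧ Bs s t F p ∧ ∀ q : Pt δ G, Bs s t F q → q ∈ O := Iff.rfl

instance t1 : T1Space (Pt δ G) := by
  refine ⟨fun p => ⟨?_⟩⟩
  rw [isOpen_iff']
  intro q hq
  refine ⟨∅, ∅, {p}, by simp, ⟨by simp, by simp, by simpa using hq⟩, ?_⟩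
  intro r hr
  simpa using hr.2.2

theorem isClosed_rk {ξ : Ordinal.{0}} (hξ : ξ < δ) : IsClosed {p : Pt δ G | Rk G ξ p.1} := by
  refine ⟨?_⟩
  rw [isOpen_iff']
  intro p hp
  refine ⟨∅, {ξ}, ∅, ?_, ⟨by simp, ?_, by simp⟩, ?_⟩
  · intro c hc
    rw [Finset.mem_singleton] at hc
    subst hc
    exact hξ
  · intro c hc
    rw [Finset.mem_singleton] at hc
    subst hc
    exact hp
  · intro q hq
    exact hq.2.1 ξ (by simp)

theorem isOpen_coord (a : Σ n, L n) : IsOpen {p : Pt δ G | p.1 a = true} := by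
  rw [isOpen_iff']
  intro p hp
  refine ⟨{a}, ∅, ∅, by simp, ⟨?_, by simp, by simp⟩, ?_⟩
  · intro c hc
    rw [Finset.mem_singleton] at hc
    subst hc
    exact hp
  · intro q hq
    exact hq.1 a (by simp)

theorem Rk.mono (hG : ∀ ξ < δ, ∀ η < ξ, ∀ᶠ n in atTop, G η n < G ξ n) {η ξ : Ordinal.{0}}
    (hηξ : η ≤ ξ) (hξ : ξ < δ) {e : Code L} (he : Mono e) (h : Rk G η e) : Rk G ξ e :=
  Pool.Agent.V11218.HDL.Rk.mono hG hηξ hξ he h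

open Classical in
/-- The extremal codes. -/
noncomputable def xc (G : Ordinal.{0} → ∀ n, L n) (ξ : Ordinal.{0}) (A : Set ℕ) : Code L :=
  fun a => decide (a.1 ∈ A ∧ G ξ a.1 ≤ a.2)

theorem xc_eq_true {ξ : Ordinal.{0}} {A : Set ℕ} {a : Σ n, L n} :
    xc G ξ A a = true ↔ a.1 ∈ A ∧ G ξ a.1 ≤ a.2 := by
  simp [xc]

theorem mono_xc (ξ : Ordinal.{0}) (A : Set ℕ) : Mono (xc G ξ A) := by
  intro n a b hab h
  rw [xc_eq_true] at h ⊢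
  exact ⟨h.1, h.2.trans hab⟩

theorem rk_xc (ξ : Ordinal.{0}) {A : Set ℕ} (hA : A.Infinite) : Rk G ξ (xc G ξ A) := by
  have h : ∃ᶠ n in atTop, n ∈ A := Nat.frequently_atTop_iff_infinite.2 hA
  refine h.mono fun n hn => ?_
  rw [xc_eq_true]
  exact ⟨hn, le_rfl⟩

/-- The extremal points. -/
noncomputable def xp {ξ : Ordinal.{0}} (hξ : ξ < δ) {A : Set ℕ} (hA : A.Infinite) : Pt δ G :=
  ⟨xc G ξ A, mono_xc ξ A, ξ, hξ, rk_xc ξ hA⟩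

/-- The trace of a point. -/
def tr (ξ : Ordinal.{0}) (p : Pt δ G) : Set ℕ := {n | p.1 ⟨n, G ξ n⟩ = true}

theorem tr_infinite {ξ : Ordinal.{0}} {p : Pt δ G} (hp : Rk G ξ p.1) : (tr ξ p).Infinite :=
  Nat.frequently_atTop_iff_infinite.1 hp

theorem mem_of_dom {ξ : Ordinal.{0}} {A : Set ℕ} {s : Finset (Σ n, L n)}
    (hs : ∀ a ∈ s, xc G ξ A a = true) {p : Pt δ G} (hp : ∀ a ∈ s, a.1 ∈ tr ξ p) :
    ∀ a ∈ s, p.1 a = true := by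
  intro a ha
  exact p.2.1 a.1 _ _ ((xc_eq_true.1 (hs a ha)).2) (hp a ha)

theorem exists_shrink (ξ : Ordinal.{0}) (B : Set ℕ) (hB : B.Infinite) (c : Code L) :
    ∃ B' : Set ℕ, B' ⊆ B ∧ B'.Infinite ∧ xc G ξ B' ≠ c := by
  by_cases h : xc G ξ B = c
  · obtain ⟨m, hm⟩ := hB.nonempty
    refine ⟨B \ {m}, sdiff_subset, hB.sdiff (finite_singleton m), fun h' => ?_⟩
    have h1 : xc G ξ B ⟨m, G ξ m⟩ = true := xc_eq_true.2 ⟨hm, le_rfl⟩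
    rw [h, ← h', xc_eq_true] at h1
    exact h1.1.2 rfl
  · exact ⟨B, Subset.rfl, hB, h⟩

/-- One-sided covering lemma. -/
theorem cov_one (hG : ∀ ξ < δ, ∀ η < ξ, ∀ᶠ n in atTop, G η n < G ξ n)
    {Z : Type*} (𝒪 : Set (Set Z)) (f : Pt δ G) (j : ∀ y : Pt δ G, y ≠ f → Z)
    (hj : ∀ (y : Pt δ G) (_ : y ≠ f), ∃ O ∈ 𝒪, ∃ (s : Finset (Σ n, L n))
      (t : Finset Ordinal.{0}) (F : Finset (Pt δ G)), (∀ ζ ∈ t, ζ < δ) ∧ Bs s t F y ∧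
      ∀ (q : Pt δ G) (hq : q ≠ f), Bs s t F q → j q hq ∈ O)
    (η : Ordinal.{0}) (hη : η < δ) :
    Cov 𝒪 {z | ∃ (y : Pt δ G) (hy : y ≠ f), Rk G η y.1 ∧ j y hy = z} := by
  classical
  induction η using WellFoundedLT.induction with
  | ind η ih =>
  have hpt : ∀ (y : Pt δ G), Cov 𝒪 {z | ∃ (hy : y ≠ f), j y hy = z} := by
    intro y
    by_cases hy : y = f
    · refine Cov.mono Cov.empty ?_
      rintro z ⟨h, -⟩
      exact absurd hy h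
    · obtain ⟨O, hO, s, t, F, -, h1, h2⟩ := hj y hy
      refine (Cov.of_mem hO).mono ?_
      rintro z ⟨_, rfl⟩
      exact h2 y hy h1
  have h0 : ∀ B : Set ℕ, B.Infinite → ∃ (B' : Set ℕ) (O : Set Z) (s : Finset (Σ n, L n))
      (t : Finset Ordinal.{0}) (F : Finset (Pt δ G)), B' ⊆ B ∧ O ∈ 𝒪 ∧
      (∀ ζ ∈ t, ζ < δ ∧ ζ < η) ∧ (∀ a ∈ s, xc G η B' a = true) ∧
      ∀ (q : Pt δ G) (hq : q ≠ f), Bs s t F q → j q hq ∈ O := by
    intro B hB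
    obtain ⟨B', h1, h2, h3⟩ := exists_shrink (G := G) η B hB f.1
    have h4 : (xp hη h2 : Pt δ G) ≠ f := fun h => h3 (congrArg Subtype.val h)
    obtain ⟨O, hO, s, t, F, ht, hs, hq⟩ := hj _ h4
    refine ⟨B', O, s, t, F, h1, hO, fun ζ hζ => ⟨ht ζ hζ, ?_⟩, hs.1, hq⟩
    by_contra hcon
    exact hs.2.1 ζ hζ (Rk.mono hG (not_lt.1 hcon) (ht ζ hζ) (mono_xc η B') (rk_xc η h2))
  choose! B' O s t F hB' hO ht hs hq using h0
  let dom : Set ℕ → Finset ℕ := fun B => (s B).image Sigma.fst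
  let D : Set (Finset ℕ) := {d | ∃ B : Set ℕ, B.Infinite ∧ dom B = d}
  have hD : ∀ d ∈ D, ∃ B : Set ℕ, B.Infinite ∧ dom B = d := fun d hd => hd
  choose! Ad hAd hAd' using hD
  have hsub : {z | ∃ (y : Pt δ G) (hy : y ≠ f), Rk G η y.1 ∧ j y hy = z} ⊆
      ⋃ d ∈ D, (O (Ad d) ∪
      ((⋃ ζ ∈ (t (Ad d) : Set Ordinal.{0}),
        {z | ∃ (y : Pt δ G) (hy : y ≠ f), Rk G ζ y.1 ∧ j y hy = z}) ∪
        (⋃ y ∈ (F (Ad d) : Set (Pt δ G)), {z | ∃ (hy : y ≠ f), j y hy = z}))) := by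
    rintro z ⟨y, hy, hyη, rfl⟩
    have hA : (tr η y).Infinite := tr_infinite hyη
    have hd : dom (tr η y) ∈ D := ⟨_, hA, rfl⟩
    refine mem_iUnion₂.2 ⟨dom (tr η y), hd, ?_⟩
    have hB := hAd _ hd
    have hB2 := hAd' _ hd
    have hdom : ∀ n ∈ dom (tr η y), n ∈ tr η y := by
      intro n hn
      obtain ⟨c, hc1, rfl⟩ := Finset.mem_image.1 hn
      exact hB' _ hA (xc_eq_true.1 (hs _ hA c hc1)).1
    have hU : ∀ a ∈ s (Ad (dom (tr η y))), y.1 a = true := by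
      refine mem_of_dom (hs _ hB) fun a ha => hdom _ ?_
      rw [← hB2]
      exact Finset.mem_image_of_mem _ ha
    by_cases hW : ∀ ζ ∈ t (Ad (dom (tr η y))), ¬ Rk G ζ y.1
    · by_cases hF : y ∈ F (Ad (dom (tr η y)))
      · exact Or.inr (Or.inr (mem_iUnion₂.2 ⟨y, hF, hy, rfl⟩))
      · exact Or.inl (hq _ hB y hy ⟨hU, hW, hF⟩)
    · push Not at hW
      obtain ⟨ζ, hζ, h⟩ := hW
      exact Or.inr (Or.inl (mem_iUnion₂.2 ⟨ζ, hζ, y, hy, h, rfl⟩))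
  refine Cov.mono ?_ hsub
  refine Cov.biUnion (to_countable D) fun d hd => ?_
  have hB := hAd _ hd
  refine Cov.union (Cov.of_mem (hO _ hB)) (Cov.union ?_ ?_)
  · refine Cov.biUnion (Finset.countable_toSet _) fun ζ hζ => ?_
    obtain ⟨h1, h2⟩ := ht _ hB ζ hζ
    exact ih ζ h2 h1
  · exact Cov.biUnion (Finset.countable_toSet _) fun y _ => hpt y

/-- The co-diagonal. -/
abbrev CoD (X : Type*) := {p : X × X // p.1 ≠ p.2}

theorem nb (𝒪 : Set (Set (CoD (Pt δ G)))) (hO : ∀ O ∈ 𝒪, IsOpen O) (hc : Set.univ ⊆ ⋃₀ 𝒪)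
    (p q : Pt δ G) (hpq : p ≠ q) : ∃ O ∈ 𝒪, ∃ (s : Finset (Σ n, L n)) (t : Finset Ordinal.{0})
      (F : Finset (Pt δ G)) (s' : Finset (Σ n, L n)) (t' : Finset Ordinal.{0})
      (F' : Finset (Pt δ G)), (∀ ζ ∈ t, ζ < δ) ∧ (∀ ζ ∈ t', ζ < δ) ∧ Bs s t F p ∧ Bs s' t' F' q ∧
      ∀ (x y : Pt δ G) (hxy : x ≠ y), Bs s t F x → Bs s' t' F' y → ⟨(x, y), hxy⟩ ∈ O := by
  obtain ⟨O, hO1, hpO⟩ := hc (mem_univ (⟨(p, q), hpq⟩ : CoD (Pt δ G)))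
  obtain ⟨W, hW, hWO⟩ := isOpen_induced_iff.1 (hO O hO1)
  have hmem : (p, q) ∈ W := by
    rw [← hWO] at hpO
    exact hpO
  obtain ⟨u, v, hu, hv, hpu, hqv, huv⟩ := isOpen_prod_iff.1 hW _ _ hmem
  obtain ⟨s, t, F, h1, h2, h3⟩ := isOpen_iff'.1 hu p hpu
  obtain ⟨s', t', F', h1', h2', h3'⟩ := isOpen_iff'.1 hv q hqv
  refine ⟨O, hO1, s, t, F, s', t', F', h1, h1', h2, h2', fun x y hxy hx hy => ?_⟩
  rw [← hWO]
  exact huv ⟨h3 x hx, h3' y hy⟩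

/-- The main covering lemma. -/
theorem cov_two (hG : ∀ ξ < δ, ∀ η < ξ, ∀ᶠ n in atTop, G η n < G ξ n)
    (𝒪 : Set (Set (CoD (Pt δ G)))) (hO : ∀ O ∈ 𝒪, IsOpen O) (hc : Set.univ ⊆ ⋃₀ 𝒪)
    (ξ : Ordinal.{0}) (hξ : ξ < δ) : ∀ (η : Ordinal.{0}), η < δ →
    Cov 𝒪 {p : CoD (Pt δ G) | Rk G ξ p.1.1.1 ∧ Rk G η p.1.2.1} := by
  classical
  induction ξ using WellFoundedLT.induction with
  | ind ξ ihξ =>
  intro η hη
  induction η using WellFoundedLT.induction with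
  | ind η ihη =>
  have hleft : ∀ f : Pt δ G, Cov 𝒪 {p : CoD (Pt δ G) | p.1.1 = f ∧ Rk G η p.1.2.1} := by
    intro f
    refine (cov_one hG 𝒪 f (fun y hy => ⟨(f, y), hy.symm⟩) ?_ η hη).mono ?_
    · intro y hy
      obtain ⟨O, hO1, s, t, F, s', t', F', h1, h1', h2, h2', h3⟩ := nb 𝒪 hO hc f y hy.symm
      exact ⟨O, hO1, s', t', F', h1', h2', fun q hq hqB => h3 f q hq.symm h2 hqB⟩
    · rintro ⟨⟨x, y⟩, hxy⟩ ⟨rfl, h⟩
      exact ⟨y, hxy.symm, h, rfl⟩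
  have hright : ∀ f : Pt δ G, Cov 𝒪 {p : CoD (Pt δ G) | Rk G ξ p.1.1.1 ∧ p.1.2 = f} := by
    intro f
    refine (cov_one hG 𝒪 f (fun y hy => ⟨(y, f), hy⟩) ?_ ξ hξ).mono ?_
    · intro y hy
      obtain ⟨O, hO1, s, t, F, s', t', F', h1, h1', h2, h2', h3⟩ := nb 𝒪 hO hc y f hy
      exact ⟨O, hO1, s, t, F, h1, h2, fun q hq hqB => h3 q f hq hqB h2'⟩
    · rintro ⟨⟨x, y⟩, hxy⟩ ⟨h, rfl⟩
      exact ⟨x, hxy, h, rfl⟩
  have h0 : ∀ AB : Set ℕ × Set ℕ, AB.1.Infinite → AB.2.Infinite →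
      ∃ (B' : Set ℕ) (O : Set (CoD (Pt δ G))) (s : Finset (Σ n, L n)) (t : Finset Ordinal.{0})
      (F : Finset (Pt δ G)) (s' : Finset (Σ n, L n)) (t' : Finset Ordinal.{0})
      (F' : Finset (Pt δ G)), B' ⊆ AB.2 ∧ O ∈ 𝒪 ∧
      (∀ ζ ∈ t, ζ < δ ∧ ζ < ξ) ∧ (∀ ζ ∈ t', ζ < δ ∧ ζ < η) ∧
      (∀ a ∈ s, xc G ξ AB.1 a = true) ∧ (∀ a ∈ s', xc G η B' a = true) ∧
      ∀ (x y : Pt δ G) (hxy : x ≠ y), Bs s t F x → Bs s' t' F' y → ⟨(x, y), hxy⟩ ∈ O := by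
    rintro ⟨A, B⟩ hA hB
    obtain ⟨B', h1, h2, h3⟩ := exists_shrink (G := G) η B hB (xc G ξ A)
    have h4 : (xp hξ hA : Pt δ G) ≠ xp hη h2 := fun h => h3 (congrArg Subtype.val h).symm
    obtain ⟨O, hO1, s, t, F, s', t', F', h5, h5', h6, h6', h7⟩ := nb 𝒪 hO hc _ _ h4
    refine ⟨B', O, s, t, F, s', t', F', h1, hO1, fun ζ hζ => ⟨h5 ζ hζ, ?_⟩,
      fun ζ hζ => ⟨h5' ζ hζ, ?_⟩, h6.1, h6'.1, h7⟩
    · by_contra hcon
      exact h6.2.1 ζ hζ (Rk.mono hG (not_lt.1 hcon) (h5 ζ hζ) (mono_xc ξ A) (rk_xc ξ hA))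
    · by_contra hcon
      exact h6'.2.1 ζ hζ (Rk.mono hG (not_lt.1 hcon) (h5' ζ hζ) (mono_xc η B') (rk_xc η h2))
  choose! B' O s t F s' t' F' hB' hOm ht ht' hs hs' hq using h0
  let dom : Set ℕ × Set ℕ → Finset ℕ × Finset ℕ :=
    fun AB => ((s AB).image Sigma.fst, (s' AB).image Sigma.fst)
  let D : Set (Finset ℕ × Finset ℕ) :=
    {d | ∃ AB : Set ℕ × Set ℕ, AB.1.Infinite ∧ AB.2.Infinite ∧ dom AB = d}
  have hD : ∀ d ∈ D, ∃ AB : Set ℕ × Set ℕ, AB.1.Infinite ∧ AB.2.Infinite ∧ dom AB = d :=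
    fun d hd => hd
  choose! Ad hAd1 hAd2 hAd' using hD
  have hsub : {p : CoD (Pt δ G) | Rk G ξ p.1.1.1 ∧ Rk G η p.1.2.1} ⊆
      ⋃ d ∈ D, (O (Ad d) ∪
      (((⋃ ζ ∈ (t (Ad d) : Set Ordinal.{0}),
        {p : CoD (Pt δ G) | Rk G ζ p.1.1.1 ∧ Rk G η p.1.2.1}) ∪
        (⋃ ζ ∈ (t' (Ad d) : Set Ordinal.{0}),
        {p : CoD (Pt δ G) | Rk G ξ p.1.1.1 ∧ Rk G ζ p.1.2.1})) ∪
        ((⋃ f ∈ (F (Ad d) : Set (Pt δ G)), {p : CoD (Pt δ G) | p.1.1 = f ∧ Rk G η p.1.2.1}) ∪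
        (⋃ f ∈ (F' (Ad d) : Set (Pt δ G)),
          {p : CoD (Pt δ G) | Rk G ξ p.1.1.1 ∧ p.1.2 = f})))) := by
    rintro ⟨⟨x, y⟩, hxy⟩ ⟨hx, hy⟩
    change Rk G ξ x.1 at hx
    change Rk G η y.1 at hy
    have hA : (tr ξ x).Infinite := tr_infinite hx
    have hA2 : (tr η y).Infinite := tr_infinite hy
    have hd : dom (tr ξ x, tr η y) ∈ D := ⟨_, hA, hA2, rfl⟩
    refine mem_iUnion₂.2 ⟨dom (tr ξ x, tr η y), hd, ?_⟩
    have hB1 := hAd1 _ hd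
    have hB2 := hAd2 _ hd
    have hB3 := hAd' _ hd
    have hdom : ∀ n ∈ (s (tr ξ x, tr η y)).image Sigma.fst, n ∈ tr ξ x := by
      intro n hn
      obtain ⟨c, hc1, rfl⟩ := Finset.mem_image.1 hn
      exact (xc_eq_true.1 (hs (tr ξ x, tr η y) hA hA2 c hc1)).1
    have hdom' : ∀ n ∈ (s' (tr ξ x, tr η y)).image Sigma.fst, n ∈ tr η y := by
      intro n hn
      obtain ⟨c, hc1, rfl⟩ := Finset.mem_image.1 hn
      exact hB' (tr ξ x, tr η y) hA hA2 (xc_eq_true.1 (hs' (tr ξ x, tr η y) hA hA2 c hc1)).1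
    have hU : ∀ a ∈ s (Ad (dom (tr ξ x, tr η y))), x.1 a = true := by
      refine mem_of_dom (hs _ hB1 hB2) fun a ha => hdom _ ?_
      have : (s (Ad (dom (tr ξ x, tr η y)))).image Sigma.fst =
        (s (tr ξ x, tr η y)).image Sigma.fst := congrArg Prod.fst hB3
      rw [← this]
      exact Finset.mem_image_of_mem _ ha
    have hU' : ∀ a ∈ s' (Ad (dom (tr ξ x, tr η y))), y.1 a = true := by
      refine mem_of_dom (hs' _ hB1 hB2) fun a ha => hdom' _ ?_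
      have : (s' (Ad (dom (tr ξ x, tr η y)))).image Sigma.fst =
        (s' (tr ξ x, tr η y)).image Sigma.fst := congrArg Prod.snd hB3
      rw [← this]
      exact Finset.mem_image_of_mem _ ha
    by_cases hW : ∀ ζ ∈ t (Ad (dom (tr ξ x, tr η y))), ¬ Rk G ζ x.1
    · by_cases hW' : ∀ ζ ∈ t' (Ad (dom (tr ξ x, tr η y))), ¬ Rk G ζ y.1
      · by_cases hF : x ∈ F (Ad (dom (tr ξ x, tr η y)))
        · exact Or.inr (Or.inr (Or.inl (mem_iUnion₂.2 ⟨x, hF, rfl, hy⟩)))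
        · by_cases hF' : y ∈ F' (Ad (dom (tr ξ x, tr η y)))
          · exact Or.inr (Or.inr (Or.inr (mem_iUnion₂.2 ⟨y, hF', hx, rfl⟩)))
          · exact Or.inl (hq _ hB1 hB2 x y hxy ⟨hU, hW, hF⟩ ⟨hU', hW', hF'⟩)
      · push Not at hW'
        obtain ⟨ζ, hζ, h⟩ := hW'
        exact Or.inr (Or.inl (Or.inr (mem_iUnion₂.2 ⟨ζ, hζ, hx, h⟩)))
    · push Not at hW
      obtain ⟨ζ, hζ, h⟩ := hW
      exact Or.inr (Or.inl (Or.inl (mem_iUnion₂.2 ⟨ζ, hζ, h, hy⟩)))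
  refine Cov.mono ?_ hsub
  refine Cov.biUnion (to_countable D) fun d hd => ?_
  have hB1 := hAd1 _ hd
  have hB2 := hAd2 _ hd
  refine Cov.union (Cov.of_mem (hOm _ hB1 hB2)) (Cov.union (Cov.union ?_ ?_) (Cov.union ?_ ?_))
  · refine Cov.biUnion (Finset.countable_toSet _) fun ζ hζ => ?_
    obtain ⟨h1, h2⟩ := ht _ hB1 hB2 ζ hζ
    exact ihξ ζ h2 h1 η hη
  · refine Cov.biUnion (Finset.countable_toSet _) fun ζ hζ => ?_
    obtain ⟨h1, h2⟩ := ht' _ hB1 hB2 ζ hζ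
    exact ihη ζ h2 h1
  · exact Cov.biUnion (Finset.countable_toSet _) fun f _ => hleft f
  · exact Cov.biUnion (Finset.countable_toSet _) fun f _ => hright f

end Pool.Agent.V11218.CoDiag
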