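import Pool.Agent.V11218.CoDiag

/-!
# Discrete subsets of the co-diagonal are bounded; the main theorem
-/

set_option autoImplicit false

open Set Topology Cardinal Filter

namespace Pool.Agent.V11218.CoDiag

open Pool.Agent.H960R3.DL
open Pool.Agent.V11218.HDL (Code Mono Rk)

/-- Cofinal sets of ordinals below `δ`. -/
def Cof (δ : Ordinal.{0}) (A : Set Ordinal.{0}) : Prop := ∀ ζ < δ, ∃ ξ ∈ A, ζ ≤ ξ ∧ ξ < δ

theorem not_cof {δ : Ordinal.{0}} {A : Set Ordinal.{0}} (h : ¬ Cof δ A) :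
    ∃ ρ < δ, ∀ ξ ∈ A, ξ < δ → ξ < ρ := by
  unfold Cof at h
  push Not at h
  obtain ⟨ρ, hρ, h⟩ := h
  refine ⟨ρ, hρ, fun ξ hξ hξδ => ?_⟩
  by_contra hcon
  exact absurd hξδ (not_lt.2 (h ξ hξ (not_lt.1 hcon)))

theorem comb {P : Type*} {δ : Ordinal.{0}} (hδ : 0 < δ) (y : Ordinal.{0} → P)
    (r : P → Ordinal.{0}) (A : Set Ordinal.{0}) (hA : Cof δ A) (F : Ordinal.{0} → Finset P)
    (hF : ∀ i ∈ A, i < δ → y i ∉ F i) : ∃ B ⊆ A, Cof δ B ∧ ∀ i ∈ B, i < δ →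
      ∃ ρ < δ, ∀ j ∈ B, ρ ≤ j → j < δ → r (y i) ≤ r (y j) ∧ y j ∉ F i := by
  classical
  by_cases h1 : ∃ p, Cof δ {ξ ∈ A | y ξ = p}
  · obtain ⟨p, hp⟩ := h1
    refine ⟨_, sep_subset _ _, hp, fun i hi hiδ => ⟨0, hδ, fun j hj _ _ => ?_⟩⟩
    rw [hi.2, hj.2]
    refine ⟨le_rfl, ?_⟩
    rw [← hi.2]
    exact hF i hi.1 hiδ
  · push Not at h1
    have h2 : ∀ E : Finset P, ∃ ρ < δ, ∀ j ∈ A, ρ ≤ j → j < δ → y j ∉ E := by
      intro E
      induction E using Finset.induction with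
      | empty => exact ⟨0, hδ, fun j _ _ _ => by simp⟩
      | insert a E _ ih =>
        obtain ⟨ρ, hρ, h⟩ := ih
        obtain ⟨ρ', hρ', h'⟩ := not_cof (h1 a)
        refine ⟨max ρ ρ', max_lt hρ hρ', fun j hj hle hjδ => ?_⟩
        rw [Finset.mem_insert, not_or]
        refine ⟨fun heq => ?_, h j hj ((le_max_left _ _).trans hle) hjδ⟩
        exact absurd (h' j ⟨hj, heq⟩ hjδ) (not_lt.2 ((le_max_right _ _).trans hle))
    by_cases h3 : ∃ m, Cof δ {ξ ∈ A | r (y ξ) ≤ m}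
    · let m := WellFounded.min (wellFounded_lt (α := Ordinal.{0}))
        {m | Cof δ {ξ ∈ A | r (y ξ) ≤ m}} h3
      have hm : Cof δ {ξ ∈ A | r (y ξ) ≤ m} :=
        WellFounded.min_mem (wellFounded_lt (α := Ordinal.{0}))
          {m | Cof δ {ξ ∈ A | r (y ξ) ≤ m}} h3
      have hm' : ∀ m' < m, ¬ Cof δ {ξ ∈ A | r (y ξ) ≤ m'} := fun m' hlt hc =>
        WellFounded.not_lt_min (wellFounded_lt (α := Ordinal.{0}))
          {m | Cof δ {ξ ∈ A | r (y ξ) ≤ m}} hc hlt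
      by_cases h4 : Cof δ {ξ ∈ A | r (y ξ) = m}
      · refine ⟨_, sep_subset _ _, h4, fun i hi hiδ => ?_⟩
        obtain ⟨ρ, hρ, h⟩ := h2 (F i)
        refine ⟨ρ, hρ, fun j hj hle hjδ => ⟨?_, h j hj.1 hle hjδ⟩⟩
        rw [hi.2, hj.2]
      · obtain ⟨ρ0, hρ0, h0⟩ := not_cof h4
        have h5 : Cof δ {ξ ∈ A | r (y ξ) < m} := by
          intro ζ hζ
          obtain ⟨ξ, hξ, hle, hlt⟩ := hm (max ζ ρ0) (max_lt hζ hρ0)
          refine ⟨ξ, ⟨hξ.1, lt_of_le_of_ne hξ.2 fun heq => ?_⟩, (le_max_left _ _).trans hle, hlt⟩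
          exact absurd (h0 ξ ⟨hξ.1, heq⟩ hlt) (not_lt.2 ((le_max_right _ _).trans hle))
        refine ⟨_, sep_subset _ _, h5, fun i hi hiδ => ?_⟩
        obtain ⟨ρ, hρ, h⟩ := h2 (F i)
        obtain ⟨ρ', hρ', h'⟩ := not_cof (hm' _ hi.2)
        refine ⟨max ρ ρ', max_lt hρ hρ', fun j hj hle hjδ =>
          ⟨?_, h j hj.1 ((le_max_left _ _).trans hle) hjδ⟩⟩
        by_contra hcon
        exact absurd (h' j ⟨hj.1, (not_le.1 hcon).le⟩ hjδ)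
          (not_lt.2 ((le_max_right _ _).trans hle))
    · push Not at h3
      refine ⟨A, Subset.rfl, hA, fun i hi hiδ => ?_⟩
      obtain ⟨ρ, hρ, h⟩ := h2 (F i)
      obtain ⟨ρ', hρ', h'⟩ := not_cof (h3 (r (y i)))
      refine ⟨max ρ ρ', max_lt hρ hρ', fun j hj hle hjδ =>
        ⟨?_, h j hj ((le_max_left _ _).trans hle) hjδ⟩⟩
      by_contra hcon
      exact absurd (h' j ⟨hj, (not_le.1 hcon).le⟩ hjδ) (not_lt.2 ((le_max_right _ _).trans hle))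

variable {L : ℕ → Type} [∀ n, LinearOrder (L n)]
variable {δ : Ordinal.{0}} {G : Ordinal.{0} → ∀ n, L n}

theorem bounded_fst (hL : Big L)
    (hG : ∀ ξ < δ, ∀ η < ξ, ∀ᶠ n in atTop, G η n < G ξ n)
    (hU : ∀ h : ∀ n, L n, ∃ ξ < δ, ∃ᶠ n in atTop, h n ≤ G ξ n)
    (D : Set (Pt δ G × Pt δ G))
    (hD : ∀ d ∈ D, ∃ (s : Finset (Σ n, L n)) (t : Finset Ordinal.{0})
      (F : Finset (Pt δ G)) (s' : Finset (Σ n, L n)) (t' : Finset Ordinal.{0})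
      (F' : Finset (Pt δ G)), (∀ ζ ∈ t, ζ < δ) ∧ (∀ ζ ∈ t', ζ < δ) ∧ Bs s t F d.1 ∧
      Bs s' t' F' d.2 ∧ ∀ q ∈ D, Bs s t F q.1 → Bs s' t' F' q.2 → q = d) :
    ∃ ξ < δ, ∀ d ∈ D, Rk G ξ d.1.1 := by
  classical
  by_contra hcon
  have h0 : ∀ ξ < δ, ∃ d ∈ D, ¬ Rk G ξ d.1.1 := by
    intro ξ hξ
    by_contra h
    push Not at h
    exact hcon ⟨ξ, hξ, h⟩
  have hne : ∀ n, Nonempty (L n) := fun n => ⟨(hL n ∅ (Or.inl (by simp))).choose⟩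
  obtain ⟨ξ0, hξ0, -⟩ := hU (fun n => (hne n).some)
  have hδ : (0 : Ordinal.{0}) < δ := lt_of_le_of_lt zero_le hξ0
  have hδ' : (⊥ : Ordinal.{0}) < δ := lt_of_le_of_lt bot_le hξ0
  obtain ⟨p0, hp0, -⟩ := h0 ξ0 hξ0
  have : Nonempty (Pt δ G × Pt δ G) := ⟨p0⟩
  choose! d hd hd' using h0
  choose! s t F s' t' F' ht ht' hB hB' hq using hD
  have hinf : Infinite (Σ n, L n) := by
    have hmax : NoMaxOrder (L 0) := ⟨fun a => by
      obtain ⟨b, hb⟩ := hL 0 {a} (Or.inl (by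
        rw [mk_singleton]
        exact one_lt_aleph0.le.trans aleph0_le_continuum))
      exact ⟨b, hb a rfl⟩⟩
    have := hne 0
    have : Infinite (L 0) := NoMaxOrder.infinite
    exact Infinite.of_injective (fun a : L 0 => (⟨0, a⟩ : Σ n, L n)) sigma_mk_injective
  have hSmC : Sm L (Finset (Σ n, L n) × Finset (Σ n, L n)) := by
    have hcard : #(Finset (Σ n, L n) × Finset (Σ n, L n)) ≤ #(Σ n, L n) := by
      rw [mk_prod, lift_id, mk_finset_of_infinite]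
      exact (mul_eq_self (aleph0_le_mk _)).le
    obtain ⟨e⟩ := hcard
    exact sm_of_inj hL e e.injective
  let c : Ordinal.{0} → Finset (Σ n, L n) × Finset (Σ n, L n) :=
    fun ξ => (s (d ξ), s' (d ξ))
  have hpig : ∃ c0, Cof δ {ξ | c ξ = c0} := by
    by_contra h
    unfold Cof at h
    push Not at h
    choose z hz hz' using h
    obtain ⟨ρ, hρ, hρ'⟩ := small_bdd hG hU hSmC z hz
    exact absurd hρ (not_lt.2 (hz' (c ρ) ρ rfl (hρ' _)))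
  obtain ⟨c0, hc0⟩ := hpig
  -- ranks
  let r : Pt δ G → Ordinal.{0} := fun p => sInf {ξ | ξ < δ ∧ Rk G ξ p.1}
  have hr : ∀ p : Pt δ G, r p < δ ∧ Rk G (r p) p.1 := by
    intro p
    obtain ⟨ξ, hξ1, hξ2⟩ := p.2.2
    exact csInf_mem (⟨ξ, hξ1, hξ2⟩ : {ξ | ξ < δ ∧ Rk G ξ p.1}.Nonempty)
  have hr' : ∀ (p : Pt δ G) (ζ : Ordinal.{0}), ζ < δ → Rk G ζ p.1 → r p ≤ ζ :=
    fun p ζ h1 h2 => csInf_le' ⟨h1, h2⟩
  obtain ⟨B, hBsub, hBcof, hBprop⟩ := comb hδ (fun ξ => (d ξ).2) r {ξ | c ξ = c0} hc0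
    (fun ξ => F' (d ξ)) (fun i _ hi => (hB' (d i) (hd i hi)).2.2)
  obtain ⟨i, hiB, -, hi⟩ := hBcof 0 hδ
  obtain ⟨ρ, hρ, hρj⟩ := hBprop i hiB hi
  let ρ2 : Ordinal.{0} := max ((t (d i)).sup id) ((insert (d i).1 (F (d i))).sup r)
  have hρ2 : ρ2 < δ := by
    refine max_lt ((Finset.sup_lt_iff hδ').2 fun ζ hζ => ?_)
      ((Finset.sup_lt_iff hδ').2 fun q _ => (hr q).1)
    exact ht (d i) (hd i hi) ζ hζ
  obtain ⟨j, hjB, hj1, hj⟩ := hBcof (max ρ ρ2) (max_lt hρ hρ2)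
  have hρj1 : ρ ≤ j := (le_max_left _ _).trans hj1
  have hρj2 : ρ2 ≤ j := (le_max_right _ _).trans hj1
  obtain ⟨hj3, hj4⟩ := hρj j hjB hρj1 hj
  have hcij : c i = c j := (hBsub hiB).trans (hBsub hjB).symm
  have hs : s (d i) = s (d j) := congrArg Prod.fst hcij
  have hs' : s' (d i) = s' (d j) := congrArg Prod.snd hcij
  have hnot : ∀ q ∈ insert (d i).1 (F (d i)), (d j).1 ≠ q := by
    intro q hq' heq
    have h2 : r q ≤ ρ2 := le_max_of_le_right (Finset.le_sup (f := r) hq')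
    have h3 : Rk G j (d j).1.1 := by
      rw [heq]
      exact Rk.mono hG (h2.trans hρj2) hj q.2.1 (hr q).2
    exact hd' j hj h3
  have heq : d j = d i := by
    refine hq (d i) (hd i hi) (d j) (hd j hj) ⟨?_, ?_, ?_⟩ ⟨?_, ?_, hj4⟩
    · rw [hs]
      exact (hB (d j) (hd j hj)).1
    · intro ζ hζ hlo
      have h2 : ζ ≤ ρ2 := le_max_of_le_left (Finset.le_sup (f := id) hζ)
      exact hd' j hj (Rk.mono hG (h2.trans hρj2) hj (d j).1.2.1 hlo)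
    · intro hF
      exact hnot _ (Finset.mem_insert_of_mem hF) rfl
    · rw [hs']
      exact (hB' (d j) (hd j hj)).1
    · intro ζ hζ hlo
      have h1 : ζ < δ := ht' (d i) (hd i hi) ζ hζ
      have h2 : r (d j).2 ≤ ζ := hr' _ ζ h1 hlo
      have h3 : r (d i).2 ≤ ζ := hj3.trans h2
      exact (hB' (d i) (hd i hi)).2.1 ζ hζ (Rk.mono hG h3 h1 (d i).2.2.1 (hr (d i).2).2)
  exact hnot _ (Finset.mem_insert_self _ _) (congrArg Prod.fst heq)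

theorem bounded_of_discrete (hL : Big L)
    (hG : ∀ ξ < δ, ∀ η < ξ, ∀ᶠ n in atTop, G η n < G ξ n)
    (hU : ∀ h : ∀ n, L n, ∃ ξ < δ, ∃ᶠ n in atTop, h n ≤ G ξ n)
    (D : Set (CoD (Pt δ G))) (hD : DiscreteTopology D) :
    ∃ ξ < δ, ∀ d ∈ D, Rk G ξ d.1.1.1 ∧ Rk G ξ d.1.2.1 := by
  have hnbd : ∀ d ∈ D, ∃ (s : Finset (Σ n, L n)) (t : Finset Ordinal.{0})
      (F : Finset (Pt δ G)) (s' : Finset (Σ n, L n)) (t' : Finset Ordinal.{0})
      (F' : Finset (Pt δ G)), (∀ ζ ∈ t, ζ < δ) ∧ (∀ ζ ∈ t', ζ < δ) ∧ Bs s t F d.1.1 ∧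
      Bs s' t' F' d.1.2 ∧ ∀ q ∈ D, Bs s t F q.1.1 → Bs s' t' F' q.1.2 → q = d := by
    intro d hd
    have h2 : IsOpen ({⟨d, hd⟩} : Set D) := isOpen_discrete _
    obtain ⟨U, hU1, hU2⟩ := isOpen_induced_iff.1 h2
    obtain ⟨W, hW1, hW2⟩ := isOpen_induced_iff.1 hU1
    have h3 : (d.1.1, d.1.2) ∈ W := by
      have : (⟨d, hd⟩ : D) ∈ (Subtype.val ⁻¹' U : Set D) := by rw [hU2]; rfl
      have h4 : d ∈ U := this
      rw [← hW2] at h4
      exact h4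
    obtain ⟨u, v, hu, hv, hpu, hqv, huv⟩ := isOpen_prod_iff.1 hW1 _ _ h3
    obtain ⟨s, t, F, h4, h5, h6⟩ := isOpen_iff'.1 hu _ hpu
    obtain ⟨s', t', F', h4', h5', h6'⟩ := isOpen_iff'.1 hv _ hqv
    refine ⟨s, t, F, s', t', F', h4, h4', h5, h5', fun q hqD a b => ?_⟩
    have h7 : q ∈ U := by
      rw [← hW2]
      exact huv ⟨h6 _ a, h6' _ b⟩
    have h8 : (⟨q, hqD⟩ : D) ∈ ({⟨d, hd⟩} : Set D) := by
      rw [← hU2]
      exact h7
    exact congrArg Subtype.val h8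
  obtain ⟨ξ1, hξ1, h1⟩ := bounded_fst hL hG hU (Subtype.val '' D) (by
    rintro _ ⟨d, hd, rfl⟩
    obtain ⟨s, t, F, s', t', F', a1, a2, a3, a4, a5⟩ := hnbd d hd
    refine ⟨s, t, F, s', t', F', a1, a2, a3, a4, ?_⟩
    rintro _ ⟨q, hq, rfl⟩ b1 b2
    rw [a5 q hq b1 b2])
  obtain ⟨ξ2, hξ2, h2⟩ := bounded_fst hL hG hU ((fun d : CoD (Pt δ G) => (d.1.2, d.1.1)) '' D) (by
    rintro _ ⟨d, hd, rfl⟩
    obtain ⟨s, t, F, s', t', F', a1, a2, a3, a4, a5⟩ := hnbd d hd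
    refine ⟨s', t', F', s, t, F, a2, a1, a4, a3, ?_⟩
    rintro _ ⟨q, hq, rfl⟩ b1 b2
    rw [a5 q hq b2 b1])
  refine ⟨max ξ1 ξ2, max_lt hξ1 hξ2, fun d hd => ⟨?_, ?_⟩⟩
  · exact Rk.mono hG (le_max_left _ _) (max_lt hξ1 hξ2) d.1.1.2.1 (h1 _ ⟨d, hd, rfl⟩)
  · exact Rk.mono hG (le_max_right _ _) (max_lt hξ1 hξ2) d.1.2.2.1 (h2 _ ⟨d, hd, rfl⟩)

theorem isClosed_two {ξ : Ordinal.{0}} (hξ : ξ < δ) :
    IsClosed {p : CoD (Pt δ G) | Rk G ξ p.1.1.1 ∧ Rk G ξ p.1.2.1} := by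
  have h1 : IsClosed {p : CoD (Pt δ G) | Rk G ξ p.1.1.1} :=
    (isClosed_rk hξ).preimage (continuous_fst.comp continuous_subtype_val)
  have h2 : IsClosed {p : CoD (Pt δ G) | Rk G ξ p.1.2.1} :=
    (isClosed_rk hξ).preimage (continuous_snd.comp continuous_subtype_val)
  exact h1.inter h2

theorem isLindelof_two (hG : ∀ ξ < δ, ∀ η < ξ, ∀ᶠ n in atTop, G η n < G ξ n)
    {ξ : Ordinal.{0}} (hξ : ξ < δ) :
    IsLindelof {p : CoD (Pt δ G) | Rk G ξ p.1.1.1 ∧ Rk G ξ p.1.2.1} := by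
  set Y : Set (CoD (Pt δ G)) := {p : CoD (Pt δ G) | Rk G ξ p.1.1.1 ∧ Rk G ξ p.1.2.1} with hY
  refine isLindelof_of_countable_subcover ?_
  intro ι U hUo hUc
  obtain ⟨V, hV1, hV2, hV3⟩ := cov_two hG (insert Yᶜ (range U))
    (by
      rintro _ (rfl | ⟨i, rfl⟩)
      · exact (isClosed_two hξ).isOpen_compl
      · exact hUo i)
    (by
      intro p _
      by_cases hp : p ∈ Y
      · obtain ⟨i, hi⟩ := mem_iUnion.1 (hUc hp)
        exact ⟨U i, Or.inr ⟨i, rfl⟩, hi⟩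
      · exact ⟨_, Or.inl rfl, hp⟩) ξ hξ ξ hξ
  have hV4 : ∀ v : Set (CoD (Pt δ G)), ∃ i : Option ι, v ∈ V → v ≠ Yᶜ →
      ∃ j, i = some j ∧ U j = v := by
    intro v
    by_cases h : v ∈ V ∧ v ≠ Yᶜ
    · rcases hV1 h.1 with h' | ⟨i, hi⟩
      · exact absurd h' h.2
      · exact ⟨some i, fun _ _ => ⟨i, rfl, hi⟩⟩
    · exact ⟨none, fun h1 h2 => absurd ⟨h1, h2⟩ h⟩
  choose c hc using hV4
  refine ⟨{i | ∃ v ∈ V, c v = some i}, ?_, fun p hp => ?_⟩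
  · have : {i | ∃ v ∈ V, c v = some i} = some ⁻¹' (c '' V) := by
      ext i
      simp
    rw [this]
    exact (hV2.image c).preimage (Option.some_injective ι)
  · obtain ⟨v, hv, hpv⟩ := hV3 hp
    have hne : v ≠ Yᶜ := by
      rintro rfl
      exact hpv hp
    obtain ⟨j, hj1, hj2⟩ := hc v hv hne
    refine mem_iUnion₂.2 ⟨j, ⟨v, hv, hj1⟩, ?_⟩
    rw [hj2]
    exact hpv

theorem exists_space : ∃ (X : Type) (_ : TopologicalSpace X), T1Space X ∧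
    (∀ D : Set {p : X × X // p.1 ≠ p.2}, DiscreteTopology D → IsLindelof (closure D)) ∧
    ¬ LindelofSpace X := by
  classical
  obtain ⟨L, i1, i2, hL⟩ := exists_L
  obtain ⟨δ, G, hG, hU⟩ := exists_G hL
  refine ⟨Pt δ G, inferInstance, inferInstance, ?_, ?_⟩
  · intro D hD
    obtain ⟨ξ, hξ, hDξ⟩ := bounded_of_discrete hL hG hU D hD
    exact (isLindelof_two hG hξ).of_isClosed_subset isClosed_closure
      (closure_minimal hDξ (isClosed_two hξ))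
  · intro hlin
    have hcov : (univ : Set (Pt δ G)) ⊆ ⋃ a : Σ n, L n, {p : Pt δ G | p.1 a = true} := by
      intro p _
      obtain ⟨ξ, -, h⟩ := p.2.2
      obtain ⟨n, hn⟩ := h.exists
      exact mem_iUnion.2 ⟨⟨n, G ξ n⟩, hn⟩
    obtain ⟨r, hr, hrc⟩ := isLindelof_univ.elim_countable_subcover
      (fun a : Σ n, L n => {p : Pt δ G | p.1 a = true})
      (fun a => isOpen_coord a) hcov
    have h1 : ∀ n, ∃ b : L n, ∀ a : L n, (⟨n, a⟩ : Σ n, L n) ∈ r → a < b := by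
      intro n
      have hcount : ((Sigma.mk n) ⁻¹' r : Set (L n)).Countable :=
        hr.preimage sigma_mk_injective
      exact hL n _ (Or.inl (hcount.le_aleph0.trans aleph0_le_continuum))
    choose h hh using h1
    obtain ⟨ξ, hξ, hf⟩ := hU h
    let e : Code L := fun a => decide (h a.1 ≤ a.2)
    have he : Mono e := by
      intro n a b hab ha
      simp only [e, decide_eq_true_eq] at ha ⊢
      exact ha.trans hab
    have her : Rk G ξ e := hf.mono fun n hn => by simpa [e] using hn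
    obtain ⟨a, ha, hpa⟩ := mem_iUnion₂.1 (hrc (mem_univ (⟨e, he, ξ, hξ, her⟩ : Pt δ G)))
    have h2 : a.2 < h a.1 := hh a.1 a.2 ha
    have h3 : e a = true := hpa
    simp only [e, decide_eq_true_eq] at h3
    exact absurd h3 (not_le.2 h2)

end Pool.Agent.V11218.CoDiag
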