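import Pool.Agent.H960R3.DL3

/-!
# A Hausdorff discretely Lindelöf space that is not Lindelöf
-/

set_option autoImplicit false

open Set Topology Cardinal Filter

namespace Pool.Agent.V11218.HDL

open Pool.Agent.H960R3.DL

variable {L : ℕ → Type} [∀ n, LinearOrder (L n)]

/-- Codes: subsets of the disjoint union of the `L n`. -/
abbrev Code (L : ℕ → Type) := (Σ n, L n) → Bool

/-- Monotone codes. -/
def Mono (e : Code L) : Prop := ∀ n (a b : L n), a ≤ b → e ⟨n, a⟩ = true → e ⟨n, b⟩ = true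

/-- `e` has rank at most `ξ`. -/
def Rk (G : Ordinal.{0} → ∀ n, L n) (ξ : Ordinal.{0}) (e : Code L) : Prop :=
  ∃ᶠ n in atTop, e ⟨n, G ξ n⟩ = true

theorem isClosed_mono : IsClosed {e : Code L | Mono e} := by
  have : {e : Code L | Mono e} = ⋂ (n : ℕ) (a : L n) (b : L n) (_ : a ≤ b),
      {e : Code L | e ⟨n, a⟩ = true → e ⟨n, b⟩ = true} := by
    ext e
    simp [Mono]
  rw [this]
  refine isClosed_iInter fun n => isClosed_iInter fun a => isClosed_iInter fun b =>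
    isClosed_iInter fun _ => ?_
  have h2 : {e : Code L | e ⟨n, a⟩ = true → e ⟨n, b⟩ = true} =
      (fun e : Code L => (e ⟨n, a⟩, e ⟨n, b⟩)) ⁻¹' {p | p.1 = true → p.2 = true} := rfl
  rw [h2]
  exact (isClosed_discrete _).preimage
    ((continuous_apply _).prodMk (continuous_apply _))

theorem continuous_coord (s : Σ n, L n) : Continuous fun e : Code L => e s :=
  continuous_apply s

theorem isClosed_coord (s : Σ n, L n) : IsClosed {e : Code L | e s = true} :=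
  (isClosed_discrete ({true} : Set Bool)).preimage (continuous_coord s)

theorem isOpen_coord (s : Σ n, L n) : IsOpen {e : Code L | e s = true} :=
  (isOpen_discrete ({true} : Set Bool)).preimage (continuous_coord s)

/-- The sets of codes of bounded rank are Lindelöf in the compact space of all codes. -/
theorem lindelof_rk (G : Ordinal.{0} → ∀ n, L n) (ξ : Ordinal.{0}) :
    IsLindelof {e : Code L | Mono e ∧ Rk G ξ e} := by
  classical
  refine isLindelof_of_countable_subcover ?_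
  intro ι U hU hsub
  -- the compact pieces
  have hA : ∀ A : Set ℕ, A.Infinite → ∃ (t : Finset ι) (F : Finset ℕ), (↑F : Set ℕ) ⊆ A ∧
      {e : Code L | Mono e ∧ ∀ n ∈ F, e ⟨n, G ξ n⟩ = true} ⊆ ⋃ i ∈ t, U i := by
    intro A hAinf
    have hK : IsCompact {e : Code L | Mono e} := isClosed_mono.isCompact
    have hC : IsCompact {e : Code L | Mono e ∧ ∀ n ∈ A, e ⟨n, G ξ n⟩ = true} := by
      have : {e : Code L | Mono e ∧ ∀ n ∈ A, e ⟨n, G ξ n⟩ = true} = {e : Code L | Mono e} ∩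
          ⋂ n ∈ A, {e : Code L | e ⟨n, G ξ n⟩ = true} := by
        ext e
        simp
      rw [this]
      exact hK.inter_right (isClosed_biInter fun n _ => isClosed_coord _)
    obtain ⟨t, ht⟩ := hC.elim_finite_subcover U hU (by
      intro e he
      apply hsub
      exact ⟨he.1, (Nat.frequently_atTop_iff_infinite.2 hAinf).mono fun n hn => he.2 n hn⟩)
    have hK' : IsCompact ({e : Code L | Mono e} \ ⋃ i ∈ t, U i) :=
      hK.diff (isOpen_biUnion fun i _ => hU i)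
    obtain ⟨F, hF⟩ := hK'.elim_finite_subfamily_closed
      (fun n : A => {e : Code L | e ⟨n, G ξ n⟩ = true}) (fun n => isClosed_coord _) (by
        rw [eq_empty_iff_forall_notMem]
        rintro e ⟨⟨he1, he2⟩, he3⟩
        apply he2
        apply ht
        refine ⟨he1, fun n hn => ?_⟩
        exact mem_iInter.1 he3 ⟨n, hn⟩)
    refine ⟨t, F.image Subtype.val, ?_, ?_⟩
    · intro n hn
      simp only [Finset.coe_image, mem_image, Finset.mem_coe] at hn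
      obtain ⟨m, _, rfl⟩ := hn
      exact m.2
    · intro e he
      by_contra hcon
      have : e ∈ ({e : Code L | Mono e} \ ⋃ i ∈ t, U i) ∩
          ⋂ i ∈ F, {e : Code L | e ⟨i, G ξ i⟩ = true} := by
        refine ⟨⟨he.1, hcon⟩, ?_⟩
        rw [mem_iInter₂]
        intro n hn
        exact he.2 n (Finset.mem_image_of_mem _ hn)
      rw [hF] at this
      exact this
  choose! t F hFA hFt using hA
  let D : Set (Finset ℕ) := {F' | ∃ A : Set ℕ, A.Infinite ∧ F A = F'}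
  have hD : ∀ F' ∈ D, ∃ A : Set ℕ, A.Infinite ∧ F A = F' := fun _ h => h
  choose! Ad hAd1 hAd2 using hD
  refine ⟨⋃ F' ∈ D, (t (Ad F') : Set ι), ?_, ?_⟩
  · exact (to_countable D).biUnion fun F' _ => (Finset.countable_toSet _)
  · intro e he
    let A : Set ℕ := {n | e ⟨n, G ξ n⟩ = true}
    have hAinf : A.Infinite := Nat.frequently_atTop_iff_infinite.1 he.2
    have hFD : F A ∈ D := ⟨A, hAinf, rfl⟩
    have h1 := hFt _ (hAd1 _ hFD)
    rw [hAd2 _ hFD] at h1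
    obtain ⟨i, hi, hei⟩ := mem_iUnion₂.1 (h1 ⟨he.1, fun n hn => hFA A hAinf hn⟩)
    refine mem_iUnion₂.2 ⟨i, ?_, hei⟩
    exact mem_iUnion₂.2 ⟨_, hFD, hi⟩

/-- The point set. -/
def Pt (δ : Ordinal.{0}) (G : Ordinal.{0} → ∀ n, L n) : Type :=
  {e : Code L // Mono e ∧ ∃ ξ < δ, Rk G ξ e}

/-- The topology: traces of open sets of codes, minus finitely many sets of bounded rank. -/
instance topP (δ : Ordinal.{0}) (G : Ordinal.{0} → ∀ n, L n) : TopologicalSpace (Pt δ G) where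
  IsOpen O := ∀ p ∈ O, ∃ V : Set (Code L), IsOpen V ∧ p.1 ∈ V ∧ ∃ t : Finset Ordinal.{0},
    (∀ ζ ∈ t, ζ < δ ∧ ¬ Rk G ζ p.1) ∧ ∀ q : Pt δ G, q.1 ∈ V → (∀ ζ ∈ t, ¬ Rk G ζ q.1) → q ∈ O
  isOpen_univ := fun _ _ => ⟨univ, isOpen_univ, mem_univ _, ∅, by simp, by simp⟩
  isOpen_inter := by
    classical
    intro O O' h h' p hp
    obtain ⟨V, h1, h2, t, h3, h4⟩ := h p hp.1
    obtain ⟨V', h1', h2', t', h3', h4'⟩ := h' p hp.2
    refine ⟨V ∩ V', h1.inter h1', ⟨h2, h2'⟩, t ∪ t', ?_, ?_⟩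
    · intro ζ hζ
      rcases Finset.mem_union.1 hζ with hζ | hζ
      · exact h3 ζ hζ
      · exact h3' ζ hζ
    · intro q hq hq'
      exact ⟨h4 q hq.1 fun ζ hζ => hq' ζ (Finset.mem_union_left _ hζ),
        h4' q hq.2 fun ζ hζ => hq' ζ (Finset.mem_union_right _ hζ)⟩
  isOpen_sUnion := by
    intro S hS p hp
    obtain ⟨O, hO, hpO⟩ := hp
    obtain ⟨V, h1, h2, t, h3, h4⟩ := hS O hO p hpO
    exact ⟨V, h1, h2, t, h3, fun q a b => ⟨O, hO, h4 q a b⟩⟩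

variable {δ : Ordinal.{0}} {G : Ordinal.{0} → ∀ n, L n}

theorem isOpen_iff' {O : Set (Pt δ G)} : IsOpen O ↔
    ∀ p ∈ O, ∃ V : Set (Code L), IsOpen V ∧ p.1 ∈ V ∧ ∃ t : Finset Ordinal.{0},
    (∀ ζ ∈ t, ζ < δ ∧ ¬ Rk G ζ p.1) ∧ ∀ q : Pt δ G, q.1 ∈ V → (∀ ζ ∈ t, ¬ Rk G ζ q.1) → q ∈ O :=
  Iff.rfl

theorem isOpen_preimage {V : Set (Code L)} (hV : IsOpen V) : IsOpen {p : Pt δ G | p.1 ∈ V} := by
  rw [isOpen_iff']
  intro p hp
  exact ⟨V, hV, hp, ∅, by simp, fun q hq _ => hq⟩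

instance t2 : T2Space (Pt δ G) := by
  refine ⟨fun p q hpq => ?_⟩
  have : p.1 ≠ q.1 := fun h => hpq (Subtype.ext h)
  obtain ⟨u, v, hu, hv, hp, hq, huv⟩ := t2_separation this
  refine ⟨_, _, isOpen_preimage hu, isOpen_preimage hv, hp, hq, ?_⟩
  rw [Set.disjoint_left]
  intro x hx hx'
  exact Set.disjoint_left.1 huv hx hx'

theorem isClosed_rk {ξ : Ordinal.{0}} (hξ : ξ < δ) : IsClosed {p : Pt δ G | Rk G ξ p.1} := by
  refine ⟨?_⟩
  rw [isOpen_iff']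
  intro p hp
  refine ⟨univ, isOpen_univ, mem_univ _, {ξ}, ?_, ?_⟩
  · intro c hc
    rw [Finset.mem_singleton] at hc
    subst hc
    exact ⟨hξ, hp⟩
  · intro q _ hq
    exact hq ξ (by simp)

theorem Rk.mono (hG : ∀ ξ < δ, ∀ η < ξ, ∀ᶠ n in atTop, G η n < G ξ n) {η ξ : Ordinal.{0}}
    (hηξ : η ≤ ξ) (hξ : ξ < δ) {e : Code L} (he : Mono e) (h : Rk G η e) : Rk G ξ e := by
  rcases hηξ.eq_or_lt with rfl | hlt
  · exact h
  · exact (h.and_eventually (hG ξ hξ η hlt)).mono fun n hn => he n _ _ hn.2.le hn.1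

theorem cov_rk (hG : ∀ ξ < δ, ∀ η < ξ, ∀ᶠ n in atTop, G η n < G ξ n)
    (𝒪 : Set (Set (Pt δ G))) (hO : ∀ O ∈ 𝒪, IsOpen O) (hc : Set.univ ⊆ ⋃₀ 𝒪)
    (ξ : Ordinal.{0}) (hξ : ξ < δ) : Cov 𝒪 {p : Pt δ G | Rk G ξ p.1} := by
  classical
  induction ξ using WellFoundedLT.induction with
  | ind ξ ih =>
  -- choose for each point
  have h0 : ∀ e : Code L, ∃ (V : Set (Code L)) (O : Set (Pt δ G)) (t : Finset Ordinal.{0}),
      (Mono e ∧ Rk G ξ e) → (IsOpen V ∧ e ∈ V ∧ O ∈ 𝒪 ∧ (∀ ζ ∈ t, ζ < δ ∧ ζ < ξ) ∧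
        ∀ q : Pt δ G, q.1 ∈ V → (∀ ζ ∈ t, ¬ Rk G ζ q.1) → q ∈ O) := by
    intro e
    by_cases he : Mono e ∧ Rk G ξ e
    · let p : Pt δ G := ⟨e, he.1, ξ, hξ, he.2⟩
      obtain ⟨O, hO1, hpO⟩ := hc (mem_univ p)
      obtain ⟨V, hV, hpV, t, ht, hq⟩ := isOpen_iff'.1 (hO O hO1) p hpO
      refine ⟨V, O, t, fun _ => ⟨hV, hpV, hO1, fun ζ hζ => ⟨(ht ζ hζ).1, ?_⟩, hq⟩⟩
      by_contra hcon
      exact (ht ζ hζ).2 (Rk.mono hG (not_lt.1 hcon) (ht ζ hζ).1 he.1 he.2)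
    · exact ⟨univ, ∅, ∅, fun h => absurd h he⟩
  choose V O t hVOt using h0
  obtain ⟨P, hP, hPs, hPc⟩ := (lindelof_rk G ξ).elim_nhds_subcover V fun e he =>
    (hVOt e he).1.mem_nhds (hVOt e he).2.1
  have hsub : {p : Pt δ G | Rk G ξ p.1} ⊆ ⋃ e ∈ P, (O e ∪
      ⋃ ζ ∈ (t e : Set Ordinal.{0}), {p : Pt δ G | Rk G ζ p.1}) := by
    intro p hp
    obtain ⟨e, he, hpe⟩ := mem_iUnion₂.1 (hPc ⟨p.2.1, hp⟩)
    refine mem_iUnion₂.2 ⟨e, he, ?_⟩
    by_cases h : ∀ ζ ∈ t e, ¬ Rk G ζ p.1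
    · exact Or.inl ((hVOt e (hPs e he)).2.2.2.2 p hpe h)
    · push Not at h
      obtain ⟨ζ, hζ, hζ'⟩ := h
      exact Or.inr (mem_iUnion₂.2 ⟨ζ, hζ, hζ'⟩)
  refine Cov.mono ?_ hsub
  refine Cov.biUnion hP fun e he => Cov.union (Cov.of_mem (hVOt e (hPs e he)).2.2.1) ?_
  refine Cov.biUnion (Finset.countable_toSet _) fun ζ hζ => ?_
  obtain ⟨h1, h2⟩ := (hVOt e (hPs e he)).2.2.2.1 ζ hζ
  exact ih ζ h2 h1

theorem isLindelof_rk (hG : ∀ ξ < δ, ∀ η < ξ, ∀ᶠ n in atTop, G η n < G ξ n)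
    {ξ : Ordinal.{0}} (hξ : ξ < δ) : IsLindelof {p : Pt δ G | Rk G ξ p.1} := by
  refine isLindelof_of_countable_subcover ?_
  intro ι U hUo hUc
  -- add the complement to get a cover
  obtain ⟨V, hV1, hV2, hV3⟩ := cov_rk hG (insert {p : Pt δ G | Rk G ξ p.1}ᶜ (range U))
    (by
      rintro _ (rfl | ⟨i, rfl⟩)
      · exact (isClosed_rk hξ).isOpen_compl
      · exact hUo i)
    (by
      intro p _
      by_cases hp : Rk G ξ p.1
      · obtain ⟨i, hi⟩ := mem_iUnion.1 (hUc hp)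
        exact ⟨U i, Or.inr ⟨i, rfl⟩, hi⟩
      · exact ⟨_, Or.inl rfl, hp⟩) ξ hξ
  have hV4 : ∀ v : Set (Pt δ G), ∃ i : Option ι, v ∈ V → v ≠ {p : Pt δ G | Rk G ξ p.1}ᶜ →
      ∃ j, i = some j ∧ U j = v := by
    intro v
    by_cases h : v ∈ V ∧ v ≠ {p : Pt δ G | Rk G ξ p.1}ᶜ
    · rcases hV1 h.1 with h' | ⟨i, hi⟩
      · exact absurd h' h.2
      · exact ⟨some i, fun _ _ => ⟨i, rfl, hi⟩⟩
    · exact ⟨none, fun h1 h2 => absurd ⟨h1, h2⟩ h⟩
  choose c hc using hV4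
  refine ⟨{i | ∃ v ∈ V, c v = some i}, ?_, fun p hp => ?_⟩
  · have : {i | ∃ v ∈ V, c v = some i} = some ⁻¹' (c '' V) := by
      ext i
      simp
    rw [this]
    exact (hV2.image c).preimage (Option.some_injective ι)
  · obtain ⟨v, hv, hpv⟩ := hV3 hp
    have hne : v ≠ {p : Pt δ G | Rk G ξ p.1}ᶜ := by
      rintro rfl
      exact hpv hp
    obtain ⟨j, hj1, hj2⟩ := hc v hv hne
    refine mem_iUnion₂.2 ⟨j, ⟨v, hv, hj1⟩, ?_⟩
    rw [hj2]
    exact hpv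

omit [∀ n, LinearOrder (L n)] in
/-- A basis of the space of codes. -/
theorem exists_box (V : Set (Code L)) (hV : IsOpen V) (e : Code L) (he : e ∈ V) :
    ∃ s : Finset (Σ n, L n), ∀ e' : Code L, (∀ a ∈ s, e' a = e a) → e' ∈ V := by
  obtain ⟨I, u, hu, hsub⟩ := isOpen_pi_iff.1 hV e he
  refine ⟨I, fun e' h => hsub ?_⟩
  intro i hi
  rw [h i hi]
  exact (hu i hi).2

theorem bounded_of_discrete (hL : Big L)
    (hG : ∀ ξ < δ, ∀ η < ξ, ∀ᶠ n in atTop, G η n < G ξ n)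
    (hU : ∀ h : ∀ n, L n, ∃ ξ < δ, ∃ᶠ n in atTop, h n ≤ G ξ n)
    (D : Set (Pt δ G)) (hD : DiscreteTopology D) :
    ∃ ξ < δ, D ⊆ {p : Pt δ G | Rk G ξ p.1} := by
  classical
  by_contra hcon
  have h0 : ∀ ξ < δ, ∃ d ∈ D, ¬ Rk G ξ d.1 := by
    intro ξ hξ
    by_contra h
    push Not at h
    exact hcon ⟨ξ, hξ, fun p hp => h p hp⟩
  have hne : ∀ n, Nonempty (L n) := fun n => ⟨(hL n ∅ (Or.inl (by simp))).choose⟩
  obtain ⟨ξ0, hξ0, -⟩ := hU (fun n => (hne n).some)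
  have hδ : (⊥ : Ordinal.{0}) < δ := lt_of_le_of_lt bot_le hξ0
  obtain ⟨p0, hp0, -⟩ := h0 ξ0 hξ0
  have : Nonempty (Pt δ G) := ⟨p0⟩
  choose! d hd hd' using h0
  have h1 : ∀ ξ < δ, ∃ (s : Finset (Σ n, L n)) (t : Finset Ordinal.{0}),
      (∀ ζ ∈ t, ζ < δ ∧ ¬ Rk G ζ (d ξ).1) ∧
      ∀ q : Pt δ G, q ∈ D → (∀ a ∈ s, q.1 a = (d ξ).1 a) → (∀ ζ ∈ t, ¬ Rk G ζ q.1) →
        q = d ξ := by
    intro ξ hξ
    have h2 : IsOpen ({⟨d ξ, hd ξ hξ⟩} : Set D) := isOpen_discrete _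
    obtain ⟨U, hU1, hU2⟩ := isOpen_induced_iff.1 h2
    have h3 : d ξ ∈ U := by
      have : (⟨d ξ, hd ξ hξ⟩ : D) ∈ (Subtype.val ⁻¹' U : Set D) := by rw [hU2]; rfl
      exact this
    obtain ⟨V, hV, hdV, t, ht, hq⟩ := isOpen_iff'.1 hU1 _ h3
    obtain ⟨s, hs⟩ := exists_box V hV _ hdV
    refine ⟨s, t, ht, fun q hqD a b => ?_⟩
    have h7 : q ∈ U := hq q (hs _ a) b
    have h8 : (⟨q, hqD⟩ : D) ∈ ({⟨d ξ, hd ξ hξ⟩} : Set D) := by
      rw [← hU2]
      exact h7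
    exact congrArg Subtype.val h8
  choose! s t ht hq using h1
  -- pigeonhole
  have hinf : Infinite (Σ n, L n) := by
    have hmax : NoMaxOrder (L 0) := ⟨fun a => by
      obtain ⟨b, hb⟩ := hL 0 {a} (Or.inl (by
        rw [mk_singleton]
        exact one_lt_aleph0.le.trans aleph0_le_continuum))
      exact ⟨b, hb a rfl⟩⟩
    have := hne 0
    have : Infinite (L 0) := NoMaxOrder.infinite
    exact Infinite.of_injective (fun a : L 0 => (⟨0, a⟩ : Σ n, L n)) sigma_mk_injective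
  have hSmC : Sm L (Finset (Σ n, L n) × Finset (Σ n, L n)) := by
    have hcard : #(Finset (Σ n, L n) × Finset (Σ n, L n)) ≤ #(Σ n, L n) := by
      rw [mk_prod, lift_id, mk_finset_of_infinite]
      exact (mul_eq_self (aleph0_le_mk _)).le
    obtain ⟨e⟩ := hcard
    exact sm_of_inj hL e e.injective
  let c : Ordinal.{0} → Finset (Σ n, L n) × Finset (Σ n, L n) :=
    fun ξ => (s ξ, (s ξ).filter fun a => (d ξ).1 a = true)
  have hpig : ∃ c0, ∀ ζ < δ, ∃ ξ, ζ ≤ ξ ∧ ξ < δ ∧ c ξ = c0 := by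
    by_contra h
    push Not at h
    choose z hz hz' using h
    obtain ⟨ρ, hρ, hρ'⟩ := small_bdd hG hU hSmC z hz
    exact hz' (c ρ) ρ (hρ' _) hρ rfl
  obtain ⟨c0, hc0⟩ := hpig
  obtain ⟨i, -, hi, hic⟩ := hc0 ⊥ hδ
  obtain ⟨r, hr, hr'⟩ := (d i).2.2
  let ρ : Ordinal.{0} := max ((t i).sup id) r
  have hρ : ρ < δ := max_lt ((Finset.sup_lt_iff hδ).2 fun ζ hζ => (ht i hi ζ hζ).1) hr
  obtain ⟨j, hj1, hj2, hj3⟩ := hc0 ρ hρ
  have hcij : c i = c j := hic.trans hj3.symm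
  have hsij : s i = s j := congrArg Prod.fst hcij
  have hfij : (s i).filter (fun a => (d i).1 a = true) =
      (s j).filter (fun a => (d j).1 a = true) :=
    congrArg (fun x : Finset (Σ n, L n) × Finset (Σ n, L n) => x.2) hcij
  have heq : d j = d i := by
    refine hq i hi (d j) (hd j hj2) ?_ ?_
    · intro a ha
      have h1 : a ∈ (s i).filter (fun a => (d i).1 a = true) ↔
          a ∈ (s j).filter (fun a => (d j).1 a = true) := by rw [hfij]
      rw [Finset.mem_filter, Finset.mem_filter, ← hsij] at h1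
      have h2 : (d i).1 a = true ↔ (d j).1 a = true := by
        constructor
        · intro h; exact (h1.1 ⟨ha, h⟩).2
        · intro h; exact (h1.2 ⟨ha, h⟩).2
      exact Bool.eq_iff_iff.2 h2.symm
    · intro ζ hζ hlo
      refine hd' j hj2 (Rk.mono hG ?_ hj2 (d j).2.1 hlo)
      exact ((Finset.le_sup (f := id) hζ).trans (le_max_left _ _)).trans hj1
  refine hd' j hj2 ?_
  rw [heq]
  exact Rk.mono hG ((le_max_right _ _).trans hj1) hj2 (d i).2.1 hr'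

/-- A Hausdorff discretely Lindelöf space that is not Lindelöf. -/
theorem exists_space : ∃ (X : Type) (_ : TopologicalSpace X), T2Space X ∧
    (∀ D : Set X, DiscreteTopology D → LindelofSpace (closure D)) ∧ ¬ LindelofSpace X := by
  classical
  obtain ⟨L, i1, i2, hL⟩ := exists_L
  obtain ⟨δ, G, hG, hU⟩ := exists_G hL
  refine ⟨Pt δ G, inferInstance, inferInstance, ?_, ?_⟩
  · intro D hD
    obtain ⟨ξ, hξ, hDξ⟩ := bounded_of_discrete hL hG hU D hD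
    rw [← isLindelof_iff_lindelofSpace]
    exact (isLindelof_rk hG hξ).of_isClosed_subset isClosed_closure
      (closure_minimal hDξ (isClosed_rk hξ))
  · intro hlin
    have hcov : (univ : Set (Pt δ G)) ⊆ ⋃ a : Σ n, L n, {p : Pt δ G | p.1 a = true} := by
      intro p _
      obtain ⟨ξ, -, h⟩ := p.2.2
      obtain ⟨n, hn⟩ := h.exists
      exact mem_iUnion.2 ⟨⟨n, G ξ n⟩, hn⟩
    obtain ⟨r, hr, hrc⟩ := isLindelof_univ.elim_countable_subcover
      (fun a : Σ n, L n => {p : Pt δ G | p.1 a = true})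
      (fun a => isOpen_preimage (isOpen_coord a)) hcov
    have h1 : ∀ n, ∃ b : L n, ∀ a : L n, (⟨n, a⟩ : Σ n, L n) ∈ r → a < b := by
      intro n
      have hcount : ((Sigma.mk n) ⁻¹' r : Set (L n)).Countable :=
        hr.preimage sigma_mk_injective
      exact hL n _ (Or.inl (hcount.le_aleph0.trans aleph0_le_continuum))
    choose h hh using h1
    obtain ⟨ξ, hξ, hf⟩ := hU h
    let e : Code L := fun a => decide (h a.1 ≤ a.2)
    have he : Mono e := by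
      intro n a b hab ha
      simp only [e, decide_eq_true_eq] at ha ⊢
      exact ha.trans hab
    have her : Rk G ξ e := hf.mono fun n hn => by simpa [e] using hn
    obtain ⟨a, ha, hpa⟩ := mem_iUnion₂.1 (hrc (mem_univ (⟨e, he, ξ, hξ, her⟩ : Pt δ G)))
    have h2 : a.2 < h a.1 := hh a.1 a.2 ha
    have h3 : e a = true := hpa
    simp only [e, decide_eq_true_eq] at h3
    exact absurd h3 (not_le.2 h2)

end Pool.Agent.V11218.HDL
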