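import Mathlib

/-!
# A criterion for a countable power not to be a `k_ℝ`-space
-/

namespace Pool.Agent.V11218.KR

open Set

variable {S : Type*} [TopologicalSpace S]

/-- The clopen set used in level `n`. -/
def B (p : ℕ → ℕ → S) (n : ℕ) : Set (ℕ → S) :=
  {z | ∃ a b : ℕ → ℕ, (∀ i ≤ n, z i = p (a i) (b i)) ∧ n ≤ a 0 ∧
    (∀ i < n, b i ≤ a (i + 1)) ∧ b n ≤ a n}

theorem isOpen_agree (p : ℕ → ℕ → S) (hopen : ∀ a b, IsOpen {p a b}) (m n : ℕ) (a b : ℕ → ℕ) :
    IsOpen {w : ℕ → S | ∀ i ∈ Finset.Ico m (n + 1), w i = p (a i) (b i)} := by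
  have : {w : ℕ → S | ∀ i ∈ Finset.Ico m (n + 1), w i = p (a i) (b i)} =
      ⋂ i ∈ Finset.Ico m (n + 1), (fun w : ℕ → S => w i) ⁻¹' {p (a i) (b i)} := by
    ext w
    simp
  rw [this]
  exact isOpen_biInter_finset fun i _ => (hopen _ _).preimage (continuous_apply i)

theorem isOpen_B (p : ℕ → ℕ → S) (hopen : ∀ a b, IsOpen {p a b}) (n : ℕ) : IsOpen (B p n) := by
  rw [isOpen_iff_forall_mem_open]
  rintro z ⟨a, b, h1, h2, h3, h4⟩
  refine ⟨_, ?_, isOpen_agree p hopen 0 n a b, ?_⟩
  · intro w hw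
    exact ⟨a, b, fun i hi => hw i (by simp; omega), h2, h3, h4⟩
  · intro i hi
    simp only [Finset.mem_Ico] at hi
    exact h1 i (by omega)

theorem isClosed_B (p : ℕ → ℕ → S)
    (hinj : ∀ a b a' b', p a b = p a' b' → a = a' ∧ b = b')
    (hopen : ∀ a b, IsOpen {p a b})
    (hsep : ∀ z, (∀ a b, z ≠ p a b) → ∀ f : ℕ → ℕ,
      ∃ V, IsOpen V ∧ z ∈ V ∧ ∀ a b, p a b ∈ V → f a ≤ b)
    (n : ℕ) : IsClosed (B p n) := by
  rw [← isOpen_compl_iff, isOpen_iff_forall_mem_open]
  intro z hz
  by_cases hall : ∀ i ≤ n, ∃ a b, z i = p a b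
  · have hall' : ∀ i, ∃ a b, i ≤ n → z i = p a b := by
      intro i
      by_cases hi : i ≤ n
      · obtain ⟨a, b, h⟩ := hall i hi
        exact ⟨a, b, fun _ => h⟩
      · exact ⟨0, 0, fun h => absurd h hi⟩
    choose a b hab using hall'
    refine ⟨_, ?_, isOpen_agree p hopen 0 n a b, ?_⟩
    · intro w hw
      rintro ⟨a', b', h1, h2, h3, h4⟩
      apply hz
      refine ⟨a', b', fun i hi => ?_, h2, h3, h4⟩
      rw [← h1 i hi, hab i hi, hw i (by simp; omega)]
    · intro i hi
      simp only [Finset.mem_Ico] at hi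
      exact hab i (by omega)
  · push Not at hall
    -- the largest bad coordinate
    have hex : ∃ j ≤ n, (∀ a b, z j ≠ p a b) ∧ ∀ i ≤ n, j < i → ∃ a b, z i = p a b := by
      by_contra hcon
      push Not at hcon
      have : ∀ k, ∀ j, n ≤ j + k → j ≤ n → ¬ (∀ a b, z j ≠ p a b) := by
        intro k
        induction k with
        | zero =>
          intro j hj hjn hbad
          obtain ⟨i, hi, hji, -⟩ := hcon j hjn hbad
          omega
        | succ k ih =>
          intro j hj hjn hbad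
          obtain ⟨i, hi, hji, hb⟩ := hcon j hjn hbad
          exact ih i (by omega) hi hb
      obtain ⟨j, hj, hb⟩ := hall
      exact this n j (by omega) hj hb
    obtain ⟨j, hjn, hbad, hgood⟩ := hex
    have hgood' : ∀ i, ∃ a b, i ≤ n → j < i → z i = p a b := by
      intro i
      by_cases hi : i ≤ n ∧ j < i
      · obtain ⟨a, b, h⟩ := hgood i hi.1 hi.2
        exact ⟨a, b, fun _ _ => h⟩
      · exact ⟨0, 0, fun h h' => absurd ⟨h, h'⟩ hi⟩
    choose a b hab using hgood'
    obtain ⟨V, hV, hzV, hVf⟩ := hsep (z j) hbad (fun x => x + a (j + 1) + 1)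
    refine ⟨_, ?_, (isOpen_agree p hopen (j + 1) n a b).inter
      (hV.preimage (continuous_apply j)), ?_, hzV⟩
    · rintro w ⟨hw, hwV⟩ ⟨a', b', h1, h2, h3, h4⟩
      have hwV' : w j ∈ V := hwV
      rw [h1 j hjn] at hwV'
      have hf := hVf _ _ hwV'
      rcases Nat.lt_or_ge j n with hlt | hge
      · have e1 : w (j + 1) = p (a (j + 1)) (b (j + 1)) := hw (j + 1) (by simp; omega)
        rw [h1 (j + 1) (by omega)] at e1
        have := (hinj _ _ _ _ e1).1
        have h3' := h3 j hlt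
        omega
      · have hjn' : j = n := by omega
        subst hjn'
        omega
    · intro i hi
      simp only [Finset.mem_Ico] at hi
      exact hab i (by omega) (by omega)

/-- If `S` has a family `p a b` of isolated points with the listed properties, then the
countable power of `S` is not a `k_ℝ`-space. -/
theorem exists_function (p : ℕ → ℕ → S) (inf : S)
    (hinj : ∀ a b a' b', p a b = p a' b' → a = a' ∧ b = b')
    (hopen : ∀ a b, IsOpen {p a b})
    (hinf : ∀ a b, inf ≠ p a b)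
    (hsep : ∀ z, (∀ a b, z ≠ p a b) → ∀ f : ℕ → ℕ,
      ∃ V, IsOpen V ∧ z ∈ V ∧ ∀ a b, p a b ∈ V → f a ≤ b)
    (hnear : ∀ V, IsOpen V → inf ∈ V → ∃ k, ∃ f : ℕ → ℕ, ∀ a b, k ≤ a → f a ≤ b → p a b ∈ V)
    (hcpt : ∀ K : Set S, IsCompact K → ∃ N, ∀ a b, p a b ∈ K → a ≤ N) :
    ∃ f : (ℕ → S) → ℝ, (∀ K, IsCompact K → ContinuousOn f K) ∧ ¬ Continuous f := by
  classical
  refine ⟨(⋃ n, B p n).indicator (fun _ => 1), ?_, ?_⟩
  · intro K hK
    obtain ⟨N, hN⟩ := hcpt _ (hK.image (continuous_apply 0))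
    have hclopen : IsClopen (⋃ n ∈ Finset.range (N + 1), B p n) := by
      refine ⟨?_, ?_⟩
      · exact isClosed_biUnion_finset fun n _ => isClosed_B p hinj hopen hsep n
      · exact isOpen_biUnion fun n _ => isOpen_B p hopen n
    have hcont : Continuous ((⋃ n ∈ Finset.range (N + 1), B p n).indicator
        (fun _ : ℕ → S => (1 : ℝ))) :=
      (continuous_const).indicator (by
        intro x hx
        rw [hclopen.frontier_eq] at hx
        exact absurd hx (Set.notMem_empty _))
    refine hcont.continuousOn.congr ?_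
    intro z hz
    have hiff : z ∈ (⋃ n, B p n) ↔ z ∈ (⋃ n ∈ Finset.range (N + 1), B p n) := by
      constructor
      · intro h
        obtain ⟨n, hn⟩ := mem_iUnion.1 h
        have hn' := hn
        obtain ⟨a, b, h1, h2, -, -⟩ := hn'
        have hle : a 0 ≤ N := hN (a 0) (b 0) ⟨z, hz, h1 0 (Nat.zero_le _)⟩
        refine mem_iUnion₂.2 ⟨n, ?_, hn⟩
        simp only [Finset.mem_range]
        omega
      · intro h
        obtain ⟨n, -, hn⟩ := mem_iUnion₂.1 h
        exact mem_iUnion.2 ⟨n, hn⟩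
    by_cases hz' : z ∈ (⋃ n, B p n)
    · rw [indicator_of_mem hz', indicator_of_mem (hiff.1 hz')]
    · rw [indicator_of_notMem hz', indicator_of_notMem fun h => hz' (hiff.2 h)]
  · intro hcont
    have hop : IsOpen ((⋃ n, B p n).indicator (fun _ : ℕ → S => (1 : ℝ)) ⁻¹' Iio (1 / 2)) :=
      isOpen_Iio.preimage hcont
    have hmem : (fun _ : ℕ => inf) ∈
        ((⋃ n, B p n).indicator (fun _ : ℕ → S => (1 : ℝ)) ⁻¹' Iio (1 / 2)) := by
      have : (fun _ : ℕ => inf) ∉ ⋃ n, B p n := by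
        intro h
        obtain ⟨n, a, b, h1, -⟩ := mem_iUnion.1 h
        exact hinf _ _ (h1 0 (Nat.zero_le _))
      rw [mem_preimage, indicator_of_notMem this]
      norm_num
    obtain ⟨I, u, hu, hsub⟩ := isOpen_pi_iff.1 hop _ hmem
    have hch : ∀ i, ∃ k, ∃ f : ℕ → ℕ, i ∈ I → ∀ a b, k ≤ a → f a ≤ b → p a b ∈ u i := by
      intro i
      by_cases hi : i ∈ I
      · obtain ⟨k, f, h⟩ := hnear (u i) (hu i hi).1 (hu i hi).2
        exact ⟨k, f, fun _ => h⟩
      · exact ⟨0, fun _ => 0, fun h => absurd h hi⟩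
    choose k f hkf using hch
    obtain ⟨n, hn⟩ : ∃ n, ∀ i ∈ I, i < n := ⟨I.sup id + 1, fun i hi =>
      Nat.lt_succ_of_le (Finset.le_sup (f := id) hi)⟩
    -- the recursive choice
    let a : ℕ → ℕ := fun i => Nat.rec (max n (k 0)) (fun i r => max (f i r) (k (i + 1))) i
    have ha0 : a 0 = max n (k 0) := rfl
    have hasucc : ∀ i, a (i + 1) = max (f i (a i)) (k (i + 1)) := fun _ => rfl
    have hka : ∀ i, k i ≤ a i := by
      intro i
      cases i with
      | zero => rw [ha0]; exact le_max_right _ _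
      | succ i => rw [hasucc]; exact le_max_right _ _
    let b : ℕ → ℕ := fun i => if i < n then f i (a i) else 0
    let z : ℕ → S := fun i => if i ≤ n then p (a i) (b i) else inf
    have hzB : z ∈ ⋃ n, B p n := by
      refine mem_iUnion.2 ⟨n, a, b, fun i hi => by simp [z, hi], ?_, ?_, ?_⟩
      · rw [ha0]; exact le_max_left _ _
      · intro i hi
        simp only [b, hi, if_true]
        rw [hasucc]
        exact le_max_left _ _
      · simp [b]
    have hzI : z ∈ (I : Set ℕ).pi u := by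
      intro i hi
      have hi' : i < n := hn i hi
      have : z i = p (a i) (f i (a i)) := by
        simp [z, b, hi', hi'.le]
      rw [this]
      exact hkf i hi _ _ (hka i) le_rfl
    have := hsub hzI
    rw [mem_preimage, indicator_of_mem hzB] at this
    norm_num at this

end Pool.Agent.V11218.KR
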