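import Pool.Agent.H960R3.DL1

/-!
# A strict quasi-Lindelöf space with uncountable piecewise weak Lindelöf degree: the space
-/

set_option autoImplicit false

open Set Topology Cardinal Filter

namespace Pool.Agent.V11218.SQL

variable {C H : Type} [LinearOrder H]

/-- Every countable set of elements below `α` is strictly bounded below `α`. -/
def CO (α : H) : Prop := ∀ s : Set H, s.Countable → (∀ a ∈ s, a < α) → ∃ b < α, ∀ a ∈ s, a < b

/-- The point set: nonempty finite subsets of `C × H`, and pairs `(J, α)` where `J` is a finite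
subset of `C` with at least two elements and `CO α`. -/
def Pt (C H : Type) [LinearOrder H] : Type :=
  {p : Finset (C × H) // p.Nonempty} ⊕ {v : Finset C × H // 2 ≤ v.1.card ∧ CO v.2}

/-- `q` is a good extension of `p` with respect to `e`. -/
def Ext (e : Finset C) (p q : Finset (C × H)) : Prop :=
  p ⊆ q ∧ ∀ x ∈ q, x ∉ p → ∀ y ∈ p, x.2 < y.2 → x.1 ∉ e

/-- The point given by a finite set. -/
def fp (p : Finset (C × H)) (hp : p.Nonempty) : Pt C H := Sum.inl ⟨p, hp⟩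

/-- The point given by one vertex. -/
def sp (k : C) (γ : H) : Pt C H := fp {(k, γ)} (Finset.singleton_nonempty _)

/-- The limit points. -/
def lp (J : Finset C) (α : H) (h : 2 ≤ J.card ∧ CO α) : Pt C H := Sum.inr ⟨(J, α), h⟩

theorem Ext.refl (e : Finset C) (p : Finset (C × H)) : Ext e p p :=
  ⟨Finset.Subset.refl _, fun x hx hx' => absurd hx hx'⟩

theorem Ext.trans {e : Finset C} {p q r : Finset (C × H)} (h : Ext e p q) (h' : Ext e q r) :
    Ext e p r := by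
  refine ⟨h.1.trans h'.1, fun x hx hxp y hy hlt => ?_⟩
  by_cases hxq : x ∈ q
  · exact h.2 x hxq hxp y hy hlt
  · exact h'.2 x hx hxq y (h.1 hy) hlt

theorem Ext.mono {e e' : Finset C} (hee : e ⊆ e') {p q : Finset (C × H)} (h : Ext e' p q) :
    Ext e p q :=
  ⟨h.1, fun x hx hxp y hy hlt hxe => h.2 x hx hxp y hy hlt (hee hxe)⟩

/-- Openness. -/
def Op (O : Set (Pt C H)) : Prop :=
  (∀ (p : Finset (C × H)) (hp : p.Nonempty), fp p hp ∈ O →
    ∃ e : Finset C, ∀ (q : Finset (C × H)) (hq : q.Nonempty), Ext e p q → fp q hq ∈ O) ∧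
  (∀ (J : Finset C) (α : H) (h : 2 ≤ J.card ∧ CO α), lp J α h ∈ O →
    ∃ δ < α, ∀ γ, δ < γ → γ < α → (∀ k ∈ J, sp k γ ∈ O) ∧
      ∀ (K : Finset C) (hK : 2 ≤ K.card ∧ CO γ), K ⊂ J → lp K γ hK ∈ O)

theorem CO.exists_lt {α : H} (h : CO α) : ∃ b, b < α := by
  obtain ⟨b, hb, -⟩ := h ∅ countable_empty (by simp)
  exact ⟨b, hb⟩

theorem CO.exists_between {α δ : H} (h : CO α) (hδ : δ < α) : ∃ b, δ < b ∧ b < α := by
  obtain ⟨b, hb, hb'⟩ := h {δ} (countable_singleton _) (by simpa using hδ)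
  exact ⟨b, hb' δ rfl, hb⟩

instance topP : TopologicalSpace (Pt C H) where
  IsOpen := Op
  isOpen_univ := by
    refine ⟨fun _ _ _ => ⟨∅, fun _ _ _ => mem_univ _⟩, fun J α h _ => ?_⟩
    obtain ⟨b, hb⟩ := h.2.exists_lt
    exact ⟨b, hb, fun _ _ _ => ⟨fun _ _ => mem_univ _, fun _ _ _ => mem_univ _⟩⟩
  isOpen_inter := by
    classical
    rintro s t ⟨hs, hs'⟩ ⟨ht, ht'⟩
    refine ⟨fun p hp hpm => ?_, fun J α h hm => ?_⟩
    · obtain ⟨e, he⟩ := hs p hp hpm.1
      obtain ⟨e', he'⟩ := ht p hp hpm.2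
      exact ⟨e ∪ e', fun q hq hE => ⟨he q hq (hE.mono Finset.subset_union_left),
        he' q hq (hE.mono Finset.subset_union_right)⟩⟩
    · obtain ⟨δ, hδ, hd⟩ := hs' J α h hm.1
      obtain ⟨δ', hδ', hd'⟩ := ht' J α h hm.2
      refine ⟨max δ δ', max_lt hδ hδ', fun γ h1 h2 => ?_⟩
      obtain ⟨a, b⟩ := hd γ ((le_max_left _ _).trans_lt h1) h2
      obtain ⟨a', b'⟩ := hd' γ ((le_max_right _ _).trans_lt h1) h2
      exact ⟨fun k hk => ⟨a k hk, a' k hk⟩, fun K hK hKJ => ⟨b K hK hKJ, b' K hK hKJ⟩⟩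
  isOpen_sUnion := by
    intro S hS
    refine ⟨fun p hp hpm => ?_, fun J α h hm => ?_⟩
    · obtain ⟨s, hs, hps⟩ := hpm
      obtain ⟨e, he⟩ := (hS s hs).1 p hp hps
      exact ⟨e, fun q hq hE => ⟨s, hs, he q hq hE⟩⟩
    · obtain ⟨s, hs, hps⟩ := hm
      obtain ⟨δ, hδ, hd⟩ := (hS s hs).2 J α h hps
      exact ⟨δ, hδ, fun γ h1 h2 => ⟨fun k hk => ⟨s, hs, (hd γ h1 h2).1 k hk⟩,
        fun K hK hKJ => ⟨s, hs, (hd γ h1 h2).2 K hK hKJ⟩⟩⟩

theorem isOpen_iff' {O : Set (Pt C H)} : IsOpen O ↔ Op O := Iff.rfl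

/-- The basic open sets at finite points. -/
def Nb (e : Finset C) (p : Finset (C × H)) : Set (Pt C H) :=
  {x | ∃ (q : Finset (C × H)) (hq : q.Nonempty), Ext e p q ∧ x = fp q hq}

theorem fp_inj {p q : Finset (C × H)} {hp : p.Nonempty} {hq : q.Nonempty}
    (h : fp p hp = fp q hq) : p = q := congrArg Subtype.val (Sum.inl.inj h)

theorem fp_ne_lp {p : Finset (C × H)} {hp : p.Nonempty} {J : Finset C} {α : H}
    {h : 2 ≤ J.card ∧ CO α} : fp p hp ≠ lp J α h := fun h' => by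
  have : (Sum.inl _ : Pt C H) = Sum.inr _ := h'
  cases this

theorem lp_inj {J K : Finset C} {α β : H} {h : 2 ≤ J.card ∧ CO α} {h' : 2 ≤ K.card ∧ CO β}
    (heq : lp J α h = lp K β h') : J = K ∧ α = β := by
  have := congrArg Subtype.val (Sum.inr.inj heq)
  exact ⟨congrArg Prod.fst this, congrArg Prod.snd this⟩

theorem isOpen_Nb (e : Finset C) (p : Finset (C × H)) : IsOpen (Nb e p) := by
  rw [isOpen_iff']
  refine ⟨fun q hq hm => ?_, fun J α h hm => ?_⟩
  · obtain ⟨q', hq', hE, heq⟩ := hm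
    have : q = q' := fp_inj heq
    subst this
    exact ⟨e, fun r hr hE' => ⟨r, hr, hE.trans hE', rfl⟩⟩
  · obtain ⟨q', hq', hE, heq⟩ := hm
    exact absurd heq.symm fp_ne_lp

theorem pt_cases (x : Pt C H) : (∃ p hp, x = fp p hp) ∨ (∃ J α h, x = lp J α h) := by
  rcases x with ⟨p, hp⟩ | ⟨⟨J, α⟩, h⟩
  · exact Or.inl ⟨p, hp, rfl⟩
  · exact Or.inr ⟨J, α, h, rfl⟩

instance t0 : T0Space (Pt C H) := by
  rw [t0Space_iff_not_inseparable]
  intro x y hxy hins
  -- finite points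
  have key : ∀ (p : Finset (C × H)) (hp : p.Nonempty) (y : Pt C H), fp p hp ≠ y →
      ¬ Inseparable (fp p hp) y := by
    intro p hp y hne hins
    have h1 : y ∈ Nb ∅ p := by
      rw [← hins.mem_open_iff (isOpen_Nb ∅ p)]
      exact ⟨p, hp, Ext.refl _ _, rfl⟩
    obtain ⟨q, hq, hE, rfl⟩ := h1
    have h2 : fp p hp ∈ Nb ∅ q := by
      rw [hins.mem_open_iff (isOpen_Nb ∅ q)]
      exact ⟨q, hq, Ext.refl _ _, rfl⟩
    obtain ⟨r, hr, hE', heq⟩ := h2
    have : p = r := fp_inj heq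
    subst this
    have : p = q := Finset.Subset.antisymm hE.1 hE'.1
    subst this
    exact hne rfl
  rcases pt_cases x with ⟨p, hp, rfl⟩ | ⟨J, α, h, rfl⟩
  · exact key p hp y hxy hins
  rcases pt_cases y with ⟨q, hq, rfl⟩ | ⟨K, β, h', rfl⟩
  · exact key q hq _ (Ne.symm hxy) hins.symm
  -- two limit points
  have hop : ∀ (J : Finset C) (α : H) (h : 2 ≤ J.card ∧ CO α),
      IsOpen ({x : Pt C H | ∃ p hp, x = fp p hp} ∪ ({lp J α h} ∪
        {x : Pt C H | ∃ K γ hK, γ < α ∧ x = lp K γ hK})) := by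
    intro J α h
    rw [isOpen_iff']
    refine ⟨fun q hq hm => ⟨∅, fun r hr _ => Or.inl ⟨r, hr, rfl⟩⟩, fun K β hK hm => ?_⟩
    have hβ : β ≤ α := by
      rcases hm with ⟨p, hp, h1⟩ | h1 | ⟨K', γ, hK', h1, h2⟩
      · exact absurd h1.symm fp_ne_lp
      · exact (lp_inj h1).2.le
      · rw [(lp_inj h2).2]
        exact h1.le
    obtain ⟨b, hb⟩ := hK.2.exists_lt
    exact ⟨b, hb, fun γ h1 h2 => ⟨fun k hk => Or.inl ⟨_, _, rfl⟩,
      fun K' hK' _ => Or.inr (Or.inr ⟨K', γ, hK', h2.trans_le hβ, rfl⟩)⟩⟩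
  have key2 : ∀ (J : Finset C) (α : H) (h : 2 ≤ J.card ∧ CO α) (K : Finset C) (β : H)
      (h' : 2 ≤ K.card ∧ CO β), lp J α h ≠ lp K β h' → α ≤ β →
      ¬ Inseparable (lp J α h) (lp K β h') := by
    intro J α h K β h' hne hle hins
    have h1 := (hins.mem_open_iff (hop J α h)).1 (Or.inr (Or.inl rfl))
    rcases h1 with ⟨p, hp, h1⟩ | h1 | ⟨K', γ, hK', h1, h2⟩
    · exact absurd h1.symm fp_ne_lp
    · exact hne h1.symm
    · rw [(lp_inj h2).2] at hle
      exact absurd h1 (not_lt.2 hle)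
  rcases le_total α β with hle | hle
  · exact key2 J α h K β h' hxy hle hins
  · exact key2 K β h' J α h (Ne.symm hxy) hle hins.symm

/-! ### Vertices -/

/-- `x` is the vertex given by the pair `v`. -/
def IsV (x : Pt C H) (v : Finset C × H) : Prop :=
  (∃ k, v.1 = {k} ∧ x = sp k v.2) ∨ ∃ h, x = lp v.1 v.2 h

theorem IsV.unique {x y : Pt C H} {v : Finset C × H} (h : IsV x v) (h' : IsV y v) : x = y := by
  rcases h with ⟨k, h1, h2⟩ | ⟨h1, h2⟩
  · rcases h' with ⟨k', h1', h2'⟩ | ⟨h1', h2'⟩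
    · rw [h1] at h1'
      rw [h2, h2', Finset.singleton_injective h1']
    · rw [h1, Finset.card_singleton] at h1'
      omega
  · rcases h' with ⟨k', h1', h2'⟩ | ⟨h1', h2'⟩
    · rw [h1', Finset.card_singleton] at h1
      omega
    · rw [h2, h2']

/-- An open set containing a vertex contains simple vertices in all its columns. -/
theorem exists_sp {x : Pt C H} {v : Finset C × H} (hx : IsV x v) {O : Set (Pt C H)}
    (hO : IsOpen O) (hxO : x ∈ O) {k : C} (hk : k ∈ v.1) : ∃ γ ≤ v.2, sp k γ ∈ O := by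
  rcases hx with ⟨k', h1, rfl⟩ | ⟨h, rfl⟩
  · rw [h1, Finset.mem_singleton] at hk
    subst hk
    exact ⟨v.2, le_rfl, hxO⟩
  · obtain ⟨δ, hδ, hd⟩ := (isOpen_iff'.1 hO).2 v.1 v.2 h hxO
    obtain ⟨b, hb1, hb2⟩ := h.2.exists_between hδ
    exact ⟨b, hb2.le, (hd b hb1 hb2).1 k hk⟩

theorem exists_tail {J : Finset C} {α : H} {h : 2 ≤ J.card ∧ CO α} {O : Set (Pt C H)}
    (hO : IsOpen O) (hxO : lp J α h ∈ O) : ∃ δ < α, ∀ γ, δ < γ → γ < α → ∀ k ∈ J, sp k γ ∈ O := by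
  obtain ⟨δ, hδ, hd⟩ := (isOpen_iff'.1 hO).2 J α h hxO
  exact ⟨δ, hδ, fun γ h1 h2 k hk => (hd γ h1 h2).1 k hk⟩

/-- Main closure lemma, finite points. -/
theorem closure_fin (k : ℕ → C) (hk : Function.Injective k) (γ : ℕ → H) (γs : H)
    (hγ : ∀ i, γ i ≤ γs) (U : ℕ → Set (Pt C H)) (hU : ∀ i, IsOpen (U i))
    (hkU : ∀ i, sp (k i) (γ i) ∈ U i) (p : Finset (C × H)) (hp : p.Nonempty)
    (hps : ∀ y ∈ p, γs ≤ y.2) : fp p hp ∈ closure (⋃ i, U i) := by
  classical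
  rw [mem_closure_iff]
  intro O hO hpO
  obtain ⟨e, he⟩ := (isOpen_iff'.1 hO).1 p hp hpO
  obtain ⟨i, hi⟩ : ∃ i, k i ∉ e := by
    by_contra hcon
    push Not at hcon
    exact (infinite_range_of_injective hk) (e.finite_toSet.subset (by
      rintro _ ⟨i, rfl⟩
      exact hcon i))
  obtain ⟨e', he'⟩ := (isOpen_iff'.1 (hU i)).1 _ _ (hkU i)
  refine ⟨fp (insert (k i, γ i) p) (Finset.insert_nonempty _ _), he _ _ ?_,
    mem_iUnion.2 ⟨i, he' _ _ ?_⟩⟩
  · refine ⟨Finset.subset_insert _ _, fun x hx hxp y hy hlt => ?_⟩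
    rcases Finset.mem_insert.1 hx with rfl | hx
    · exact hi
    · exact absurd hx hxp
  · refine ⟨by simp, fun x hx hxp y hy hlt => ?_⟩
    rw [Finset.mem_singleton] at hy
    subst hy
    rcases Finset.mem_insert.1 hx with rfl | hx
    · exact absurd (Finset.mem_singleton_self _) hxp
    · exact absurd hlt (not_lt.2 ((hγ i).trans (hps x hx)))

/-- Main closure lemma, limit points. -/
theorem closure_lim (k : ℕ → C) (hk : Function.Injective k) (γ : ℕ → H) (γs : H)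
    (hγ : ∀ i, γ i ≤ γs) (U : ℕ → Set (Pt C H)) (hU : ∀ i, IsOpen (U i))
    (hkU : ∀ i, sp (k i) (γ i) ∈ U i) (J : Finset C) (α : H) (h : 2 ≤ J.card ∧ CO α)
    (hα : γs < α) : lp J α h ∈ closure (⋃ i, U i) := by
  rw [mem_closure_iff]
  intro O hO hpO
  obtain ⟨δ, hδ, hd⟩ := exists_tail hO hpO
  obtain ⟨b, hb1, hb2⟩ := h.2.exists_between (max_lt hδ hα)
  obtain ⟨j, hj⟩ : J.Nonempty := Finset.card_pos.1 (by omega)
  have h1 : sp j b ∈ O := hd b ((le_max_left _ _).trans_lt hb1) hb2 j hj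
  have h2 : sp j b ∈ closure (⋃ i, U i) :=
    closure_fin k hk γ γs hγ U hU hkU _ _ (by
      intro y hy
      rw [Finset.mem_singleton] at hy
      subst hy
      exact ((le_max_right _ _).trans_lt hb1).le)
  exact mem_closure_iff.1 h2 O hO h1

/-- A closed set containing a finite point contains the vertices of least height. -/
theorem min_mem {F : Set (Pt C H)} (hF : IsClosed F) {p : Finset (C × H)} {hp : p.Nonempty}
    (hpF : fp p hp ∈ F) {x : C × H} (hx : x ∈ p) (hmin : ∀ y ∈ p, x.2 ≤ y.2) :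
    sp x.1 x.2 ∈ F := by
  by_contra hcon
  obtain ⟨e, he⟩ := (isOpen_iff'.1 hF.isOpen_compl).1 _ _ hcon
  refine he p hp ⟨?_, ?_⟩ hpF
  · simpa using hx
  · intro y hy hyp z hz hlt
    rw [Finset.mem_singleton] at hz
    subst hz
    exact absurd hlt (not_lt.2 (hmin y hy))

/-- An open set containing a vertex contains all finite sets in which it has least height. -/
theorem mem_of_min {O : Set (Pt C H)} (hO : IsOpen O) {p : Finset (C × H)} {hp : p.Nonempty}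
    {x : C × H} (hx : x ∈ p) (hmin : ∀ y ∈ p, x.2 ≤ y.2) (hxO : sp x.1 x.2 ∈ O) :
    fp p hp ∈ O := by
  obtain ⟨e, he⟩ := (isOpen_iff'.1 hO).1 _ _ hxO
  refine he p hp ⟨?_, ?_⟩
  · simpa using hx
  · intro y hy hyp z hz hlt
    rw [Finset.mem_singleton] at hz
    subst hz
    exact absurd hlt (not_lt.2 (hmin y hy))

end Pool.Agent.V11218.SQL
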