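import Pool.Agent.V11218.SQL

/-!
# The space is strict quasi-Lindelöf and has uncountable piecewise weak Lindelöf degree
-/

set_option autoImplicit false

open Set Topology Cardinal Filter

namespace Pool.Agent.V11218.SQL

variable {C H : Type} [LinearOrder H]

/-- The vertices of a set. -/
def Sv (F : Set (Pt C H)) : Set (Finset C × H) := {v | ∃ x ∈ F, IsV x v}

/-- Strict quasi-Lindelöf spaces. -/
def StrictQL (X : Type*) [TopologicalSpace X] : Prop :=
  ∀ F : Set X, IsClosed F → ∀ 𝒰 : ℕ → Set (Set X), (∀ n, ∀ U ∈ 𝒰 n, IsOpen U) →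
    F ⊆ ⋃ n, ⋃₀ 𝒰 n → ∃ 𝒱 : ℕ → Set (Set X), (∀ n, 𝒱 n ⊆ 𝒰 n ∧ (𝒱 n).Countable) ∧
      F ⊆ ⋃ n, closure (⋃₀ 𝒱 n)

/-- The finishing argument. -/
theorem finish {F : Set (Pt C H)} (𝒰 : ℕ → Set (Set (Pt C H)))
    (hU : ∀ n, ∀ U ∈ 𝒰 n, IsOpen U) (hc : F ⊆ ⋃ n, ⋃₀ 𝒰 n) (T : Set (Finset C × H))
    (hT : T.Countable) (n0 : ℕ) (W : ℕ → Set (Pt C H)) (hW : ∀ i, W i ∈ 𝒰 n0)
    (hcov : ∀ x ∈ F, (∃ v ∈ T, ∃ y ∈ F, IsV y v ∧ ∀ O, IsOpen O → y ∈ O → x ∈ O) ∨
      x ∈ closure (⋃ i, W i)) :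
    ∃ 𝒱 : ℕ → Set (Set (Pt C H)), (∀ n, 𝒱 n ⊆ 𝒰 n ∧ (𝒱 n).Countable) ∧
      F ⊆ ⋃ n, closure (⋃₀ 𝒱 n) := by
  classical
  have hch : ∀ x : Pt C H, ∃ (n : ℕ) (U : Set (Pt C H)), x ∈ F → U ∈ 𝒰 n ∧ x ∈ U := by
    intro x
    by_cases hx : x ∈ F
    · obtain ⟨n, hn⟩ := mem_iUnion.1 (hc hx)
      obtain ⟨U, h1, h2⟩ := hn
      exact ⟨n, U, fun _ => ⟨h1, h2⟩⟩
    · exact ⟨0, ∅, fun h => absurd h hx⟩
  choose nn UU hUU using hch
  let Y : Set (Pt C H) := {y | y ∈ F ∧ ∃ v ∈ T, IsV y v}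
  have hY : Y.Countable := by
    have hch2 : ∀ y : Pt C H, ∃ v : Finset C × H, y ∈ Y → v ∈ T ∧ IsV y v := by
      intro y
      by_cases hy : y ∈ Y
      · obtain ⟨-, v, hv, hyv⟩ := hy
        exact ⟨v, fun _ => ⟨hv, hyv⟩⟩
      · by_cases hne : Nonempty (Finset C × H)
        · exact ⟨hne.some, fun h => absurd h hy⟩
        · exfalso
          apply hne
          rcases pt_cases y with ⟨p, ⟨a, ha⟩, -⟩ | ⟨J, α, -, -⟩
          · exact ⟨({a.1}, a.2)⟩
          · exact ⟨(J, α)⟩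
    choose vv hvv using hch2
    have hinj : InjOn vv Y := by
      intro y hy y' hy' heq
      have h1 := (hvv y hy).2
      have h2 := (hvv y' hy').2
      rw [heq] at h1
      exact h1.unique h2
    have hmaps : MapsTo vv Y T := fun y hy => (hvv y hy).1
    exact hmaps.countable_of_injOn hinj hT
  refine ⟨fun n => {U | (n = n0 ∧ ∃ i, U = W i) ∨ ∃ y ∈ Y, nn y = n ∧ U = UU y}, ?_, ?_⟩
  · intro n
    refine ⟨?_, ?_⟩
    · rintro U (⟨rfl, i, rfl⟩ | ⟨y, hy, rfl, rfl⟩)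
      · exact hW i
      · exact (hUU y hy.1).1
    · have hsub : {U | (n = n0 ∧ ∃ i, U = W i) ∨ ∃ y ∈ Y, nn y = n ∧ U = UU y} ⊆
          range W ∪ UU '' Y := by
        rintro U (⟨-, i, rfl⟩ | ⟨y, hy, -, rfl⟩)
        · exact Or.inl ⟨i, rfl⟩
        · exact Or.inr ⟨y, hy, rfl⟩
      exact ((countable_range W).union (hY.image UU)).mono hsub
  · intro x hx
    rcases hcov x hx with ⟨v, hv, y, hy, hyv, hyx⟩ | h
    · have hyY : y ∈ Y := ⟨hy, v, hv, hyv⟩
      obtain ⟨h1, h2⟩ := hUU y hy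
      refine mem_iUnion.2 ⟨nn y, subset_closure ⟨UU y, Or.inr ⟨y, hyY, rfl, rfl⟩, ?_⟩⟩
      exact hyx _ (hU _ _ h1) h2
    · refine mem_iUnion.2 ⟨n0, closure_mono ?_ h⟩
      intro z hz
      obtain ⟨i, hi⟩ := mem_iUnion.1 hz
      exact ⟨W i, Or.inl ⟨rfl, i, rfl⟩, hi⟩

/-- Covering below a good height. -/
theorem finish_good {F : Set (Pt C H)} (hF : IsClosed F) (𝒰 : ℕ → Set (Set (Pt C H)))
    (hU : ∀ n, ∀ U ∈ 𝒰 n, IsOpen U) (hc : F ⊆ ⋃ n, ⋃₀ 𝒰 n) (γs : H)
    (h1 : {v ∈ Sv F | v.2 < γs}.Countable)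
    (h2 : {v ∈ Sv F | v.2 = γs ∧ 2 ≤ v.1.card}.Countable) (n0 : ℕ) (k : ℕ → C)
    (hk : Function.Injective k) (γ : ℕ → H) (hγ : ∀ i, γ i ≤ γs) (W : ℕ → Set (Pt C H))
    (hW : ∀ i, W i ∈ 𝒰 n0) (hkW : ∀ i, sp (k i) (γ i) ∈ W i) :
    ∃ 𝒱 : ℕ → Set (Set (Pt C H)), (∀ n, 𝒱 n ⊆ 𝒰 n ∧ (𝒱 n).Countable) ∧
      F ⊆ ⋃ n, closure (⋃₀ 𝒱 n) := by
  have hWo : ∀ i, IsOpen (W i) := fun i => hU n0 _ (hW i)
  refine finish 𝒰 hU hc _ (h1.union h2) n0 W hW ?_
  intro x hx
  rcases pt_cases x with ⟨p, hp, rfl⟩ | ⟨J, α, h, rfl⟩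
  · obtain ⟨a, ha, hmin⟩ := p.exists_min_image (fun y => y.2) hp
    by_cases hlt : a.2 < γs
    · left
      refine ⟨({a.1}, a.2), Or.inl ⟨⟨sp a.1 a.2, min_mem hF hx ha hmin, Or.inl ⟨a.1, rfl, rfl⟩⟩,
        hlt⟩, sp a.1 a.2, min_mem hF hx ha hmin, Or.inl ⟨a.1, rfl, rfl⟩, ?_⟩
      intro O hO hyO
      exact mem_of_min hO ha hmin hyO
    · right
      exact closure_fin k hk γ γs hγ W hWo hkW p hp fun y hy => (not_lt.1 hlt).trans (hmin y hy)
  · rcases lt_trichotomy α γs with hlt | heq | hgt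
    · left
      exact ⟨(J, α), Or.inl ⟨⟨_, hx, Or.inr ⟨h, rfl⟩⟩, hlt⟩, _, hx, Or.inr ⟨h, rfl⟩,
        fun O _ hO => hO⟩
    · left
      exact ⟨(J, α), Or.inr ⟨⟨_, hx, Or.inr ⟨h, rfl⟩⟩, heq, h.1⟩, _, hx, Or.inr ⟨h, rfl⟩,
        fun O _ hO => hO⟩
    · right
      exact closure_lim k hk γ γs hγ W hWo hkW J α h hgt

omit [LinearOrder H] in
/-- Pigeonhole for columns. -/
theorem columns (T : Set (Finset C × H)) (hT : ¬ T.Countable) (cl : Finset C × H → ℕ) :
    (∃ n, {k : C | ∃ v ∈ T, cl v = n ∧ k ∈ v.1}.Infinite) ∨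
      ∃ J : Finset C, ¬ {γ : H | (J, γ) ∈ T}.Countable := by
  by_contra hcon
  push Not at hcon
  obtain ⟨h1, h2⟩ := hcon
  apply hT
  have hsub : T ⊆ ⋃ n : ℕ, ⋃ J ∈ {J : Finset C | (J : Set C) ⊆
      {k : C | ∃ v ∈ T, cl v = n ∧ k ∈ v.1}}, (fun γ : H => (J, γ)) '' {γ : H | (J, γ) ∈ T} := by
    rintro ⟨J, γ⟩ hv
    refine mem_iUnion.2 ⟨cl (J, γ), mem_iUnion₂.2 ⟨J, ?_, γ, hv, rfl⟩⟩
    intro k hk
    exact ⟨(J, γ), hv, rfl, hk⟩
  refine Set.Countable.mono hsub ?_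
  refine countable_iUnion fun n => ?_
  have hfin : {J : Finset C | (J : Set C) ⊆
      {k : C | ∃ v ∈ T, cl v = n ∧ k ∈ v.1}}.Finite := by
    refine ((h1 n).toFinset.powerset : Finset (Finset C)).finite_toSet.subset fun J hJ => ?_
    rw [Finset.mem_coe, Finset.mem_powerset]
    intro k hk
    rw [Set.Finite.mem_toFinset]
    exact hJ hk
  exact hfin.countable.biUnion fun J _ => (h2 J).image _

/-- An injective sequence in an infinite set. -/
theorem exists_seq (A : Set C) (hA : A.Infinite) : ∃ k : ℕ → C, Function.Injective k ∧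
    ∀ i, k i ∈ A := by
  let e := hA.natEmbedding
  exact ⟨fun i => (e i).1, fun i j h => e.injective (Subtype.ext h), fun i => (e i).2⟩

/-- The space is strict quasi-Lindelöf. -/
theorem strictQL [WellFoundedLT H] [Uncountable C]
    (hH : ∀ s : Set H, #s ≤ 𝔠 → ∃ b, ∀ a ∈ s, a < b) : StrictQL (Pt C H) := by
  classical
  intro F hF 𝒰 hU hc
  -- choice of open sets for vertices
  have hch : ∀ x : Pt C H, ∃ (n : ℕ) (U : Set (Pt C H)), x ∈ F → U ∈ 𝒰 n ∧ x ∈ U := by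
    intro x
    by_cases hx : x ∈ F
    · obtain ⟨n, hn⟩ := mem_iUnion.1 (hc hx)
      obtain ⟨U, h1, h2⟩ := hn
      exact ⟨n, U, fun _ => ⟨h1, h2⟩⟩
    · exact ⟨0, ∅, fun h => absurd h hx⟩
  choose nn UU hUU using hch
  have hUUo : ∀ x ∈ F, IsOpen (UU x) := fun x hx => hU _ _ (hUU x hx).1
  have hvx : ∀ v : Finset C × H, ∃ x : Option (Pt C H), v ∈ Sv F →
      ∃ y, x = some y ∧ y ∈ F ∧ IsV y v := by
    intro v
    by_cases hv : v ∈ Sv F
    · obtain ⟨y, hy, hyv⟩ := hv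
      exact ⟨some y, fun _ => ⟨y, rfl, hy, hyv⟩⟩
    · exact ⟨none, fun h => absurd h hv⟩
  choose vx hvx using hvx
  let cl : Finset C × H → ℕ := fun v => (vx v).elim 0 nn
  -- for vertices of a class
  have hcl : ∀ v ∈ Sv F, ∃ y ∈ F, IsV y v ∧ nn y = cl v := by
    intro v hv
    obtain ⟨y, h1, h2, h3⟩ := hvx v hv
    exact ⟨y, h2, h3, by simp [cl, h1]⟩
  by_cases hS : (Sv F).Countable
  · -- easy case
    by_cases hFe : F.Nonempty
    · obtain ⟨x0, hx0⟩ := hFe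
      refine finish 𝒰 hU hc (Sv F) hS (nn x0) (fun _ => UU x0) (fun _ => (hUU x0 hx0).1) ?_
      intro x hx
      left
      rcases pt_cases x with ⟨p, hp, rfl⟩ | ⟨J, α, h, rfl⟩
      · obtain ⟨a, ha, hmin⟩ := p.exists_min_image (fun y => y.2) hp
        exact ⟨({a.1}, a.2), ⟨sp a.1 a.2, min_mem hF hx ha hmin, Or.inl ⟨a.1, rfl, rfl⟩⟩,
          sp a.1 a.2, min_mem hF hx ha hmin, Or.inl ⟨a.1, rfl, rfl⟩,
          fun O hO hyO => mem_of_min hO ha hmin hyO⟩
      · exact ⟨(J, α), ⟨_, hx, Or.inr ⟨h, rfl⟩⟩, _, hx, Or.inr ⟨h, rfl⟩, fun O _ hO => hO⟩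
    · rw [not_nonempty_iff_eq_empty] at hFe
      exact ⟨fun _ => ∅, fun n => ⟨empty_subset _, countable_empty⟩, by
        rw [hFe]; exact empty_subset _⟩
  -- a bounded uncountable set of vertices
  have hex : ∃ α : H, ¬ {v ∈ Sv F | v.2 < α}.Countable := by
    by_contra hcon
    push Not at hcon
    have h1 : ℵ₁ ≤ #(Sv F) := by
      rw [← Cardinal.succ_aleph0, Order.succ_le_iff, ← not_le]
      intro h
      exact hS (Cardinal.le_aleph0_iff_set_countable.1 h)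
    obtain ⟨T, hT, hTc⟩ := Cardinal.le_mk_iff_exists_subset.1 h1
    obtain ⟨b, hb⟩ := hH (Prod.snd '' T) (mk_image_le.trans (by
      rw [hTc, ← Cardinal.succ_aleph0, Order.succ_le_iff]
      exact aleph0_lt_continuum))
    have h2 : T.Countable := by
      refine (hcon b).mono ?_
      intro v hv
      exact ⟨hT hv, hb v.2 ⟨v, hv, rfl⟩⟩
    have h3 := Cardinal.le_aleph0_iff_set_countable.2 h2
    rw [hTc] at h3
    exact absurd h3 (not_le.2 Cardinal.aleph0_lt_aleph_one)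
  let α0 := WellFounded.min (wellFounded_lt (α := H)) {α | ¬ {v ∈ Sv F | v.2 < α}.Countable} hex
  have hα0 : ¬ {v ∈ Sv F | v.2 < α0}.Countable :=
    WellFounded.min_mem (wellFounded_lt (α := H)) {α | ¬ {v ∈ Sv F | v.2 < α}.Countable} hex
  have hlow : ∀ β < α0, {v ∈ Sv F | v.2 < β}.Countable := by
    intro β hβ
    by_contra hcon
    exact WellFounded.not_lt_min (wellFounded_lt (α := H))
      {α | ¬ {v ∈ Sv F | v.2 < α}.Countable} hcon hβ
  by_cases hrow : ∃ β < α0, ¬ {v ∈ Sv F | v.2 = β}.Countable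
  · obtain ⟨β, hβ, hrow⟩ := hrow
    by_cases hlim : {v ∈ Sv F | v.2 = β ∧ 2 ≤ v.1.card}.Countable
    · -- many simple vertices in the row `β`
      have hsing : ¬ {v ∈ Sv F | v.2 = β ∧ ¬ 2 ≤ v.1.card}.Countable := by
        intro hcon
        apply hrow
        refine (hlim.union hcon).mono fun v hv => ?_
        by_cases h : 2 ≤ v.1.card
        · exact Or.inl ⟨hv.1, hv.2, h⟩
        · exact Or.inr ⟨hv.1, hv.2, h⟩
      rcases columns _ hsing cl with ⟨n, hn⟩ | ⟨J, hJ⟩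
      · obtain ⟨k, hk, hkm⟩ := exists_seq _ hn
        choose v hv hvn hkv using hkm
        have h1 : ∀ i, ∃ y ∈ F, y = sp (k i) β ∧ nn y = n := by
          intro i
          obtain ⟨y, hy, hyv, hyn⟩ := hcl (v i) (hv i).1
          refine ⟨y, hy, ?_, hyn.trans (hvn i)⟩
          rcases hyv with ⟨k', h1, h2⟩ | ⟨h1, h2⟩
          · have h3 := hkv i
            rw [h1, Finset.mem_singleton] at h3
            rw [h2, h3, (hv i).2.1]
          · exact absurd h1.1 (hv i).2.2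
        choose y hy hyk hyn using h1
        refine finish_good hF 𝒰 hU hc β (hlow β hβ) hlim n k hk (fun _ => β) (fun _ => le_rfl)
          (fun i => UU (y i)) (fun i => ?_) (fun i => ?_)
        · rw [← hyn i]
          exact (hUU _ (hy i)).1
        · rw [← hyk i]
          exact (hUU _ (hy i)).2
      · exfalso
        apply hJ
        exact (countable_singleton β).mono fun γ hγ => hγ.2.1
    · -- many limit vertices in the row `β`
      rcases columns _ hlim cl with ⟨n, hn⟩ | ⟨J, hJ⟩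
      · obtain ⟨k, hk, hkm⟩ := exists_seq _ hn
        choose v hv hvn hkv using hkm
        have h1 : ∀ i, ∃ y ∈ F, ∃ δ < β, (∀ γ, δ < γ → γ < β → sp (k i) γ ∈ UU y) ∧
            nn y = n ∧ CO β := by
          intro i
          obtain ⟨y, hy, hyv, hyn⟩ := hcl (v i) (hv i).1
          rcases hyv with ⟨k', h1, h2⟩ | ⟨h1, h2⟩
          · exfalso
            have := (hv i).2.2
            rw [h1, Finset.card_singleton] at this
            omega
          · subst h2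
            obtain ⟨δ, hδ, hd⟩ := exists_tail (hUUo _ hy) (hUU _ hy).2
            have hβ' : (v i).2 = β := (hv i).2.1
            refine ⟨_, hy, δ, hβ' ▸ hδ, fun γ h3 h4 => hd γ h3 (hβ'.symm ▸ h4) (k i) (hkv i),
              hyn.trans (hvn i), hβ' ▸ h1.2⟩
        choose y hy δ hδ hd hyn hCO using h1
        obtain ⟨b, hb, hb'⟩ := hCO 0 (range δ) (countable_range δ) (by
          rintro _ ⟨i, rfl⟩
          exact hδ i)
        refine finish_good hF 𝒰 hU hc b (hlow b (hb.trans hβ)) ?_ n k hk (fun _ => b)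
          (fun _ => le_rfl) (fun i => UU (y i)) (fun i => ?_) (fun i => ?_)
        · refine (hlow β hβ).mono ?_
          intro v hv
          refine ⟨hv.1, ?_⟩
          rw [hv.2.1]
          exact hb
        · rw [← hyn i]
          exact (hUU _ (hy i)).1
        · exact hd i b (hb' (δ i) ⟨i, rfl⟩) hb
      · exfalso
        apply hJ
        exact (countable_singleton β).mono fun γ hγ => hγ.2.1
  · -- no uncountable row below `α0`
    push Not at hrow
    have hCO : CO α0 := by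
      intro s hs hsα
      by_contra hcon
      push Not at hcon
      apply hα0
      have hsub : {v ∈ Sv F | v.2 < α0} ⊆
          ⋃ a ∈ s, ({v ∈ Sv F | v.2 < a} ∪ {v ∈ Sv F | v.2 = a}) := by
        intro v hv
        obtain ⟨a, ha, hle⟩ := hcon v.2 hv.2
        refine mem_iUnion₂.2 ⟨a, ha, ?_⟩
        rcases hle.lt_or_eq with h | h
        · exact Or.inl ⟨hv.1, h⟩
        · exact Or.inr ⟨hv.1, h⟩
      exact (hs.biUnion fun a ha => (hlow a (hsα a ha)).union (hrow a (hsα a ha))).mono hsub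
    -- good heights
    have hgood : ∀ b < α0, {v ∈ Sv F | v.2 = b ∧ 2 ≤ v.1.card}.Countable := by
      intro b hb
      refine (hrow b hb).mono ?_
      intro v hv
      exact ⟨hv.1, hv.2.1⟩
    rcases columns _ hα0 cl with ⟨n, hn⟩ | ⟨J, hJ⟩
    · obtain ⟨k, hk, hkm⟩ := exists_seq _ hn
      choose v hv hvn hkv using hkm
      have h1 : ∀ i, ∃ y ∈ F, nn y = n ∧ ∃ γ < α0, sp (k i) γ ∈ UU y := by
        intro i
        obtain ⟨y, hy, hyv, hyn⟩ := hcl (v i) (hv i).1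
        obtain ⟨γ, hγ, hγU⟩ := exists_sp hyv (hUUo _ hy) (hUU _ hy).2 (hkv i)
        exact ⟨y, hy, hyn.trans (hvn i), γ, hγ.trans_lt (hv i).2, hγU⟩
      choose y hy hyn γ hγ hγU using h1
      obtain ⟨b, hb, hb'⟩ := hCO (range γ) (countable_range γ) (by
        rintro _ ⟨i, rfl⟩
        exact hγ i)
      refine finish_good hF 𝒰 hU hc b (hlow b hb) (hgood b hb) n k hk γ
        (fun i => (hb' (γ i) ⟨i, rfl⟩).le) (fun i => UU (y i)) (fun i => ?_) hγU
      rw [← hyn i]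
      exact (hUU _ (hy i)).1
    · -- one finite set `J` occurs at uncountably many heights
      have hJne : J.Nonempty := by
        by_contra hcon
        rw [Finset.not_nonempty_iff_eq_empty] at hcon
        apply hJ
        refine countable_empty.mono ?_
        rintro γ ⟨⟨x, -, hxv⟩, -⟩
        rcases hxv with ⟨k, h1, -⟩ | ⟨h1, -⟩
        · rw [hcon] at h1
          exact absurd h1.symm (Finset.singleton_ne_empty k)
        · have := h1.1
          rw [hcon] at this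
          simp at this
      have hcof : ∀ δ < α0, ∃ γ, δ < γ ∧ γ < α0 ∧ (J, γ) ∈ Sv F := by
        intro δ hδ
        by_contra hcon
        push Not at hcon
        apply hJ
        have h1 : {γ : H | (J, γ) ∈ {v ∈ Sv F | v.2 < α0}} ⊆
            Prod.snd '' ({v ∈ Sv F | v.2 < δ} ∪ {v ∈ Sv F | v.2 = δ}) := by
          intro γ hγ
          refine ⟨(J, γ), ?_, rfl⟩
          have h2 : γ ≤ δ := by
            by_contra h3
            exact hcon γ (not_le.1 h3) hγ.2 hγ.1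
          rcases h2.lt_or_eq with h | h
          · exact Or.inl ⟨hγ.1, h⟩
          · exact Or.inr ⟨hγ.1, h⟩
        exact (((hlow δ hδ).union (hrow δ hδ)).image _).mono h1
      have hcard : ∀ j ∉ J, 2 ≤ (insert j J).card ∧ CO α0 := by
        intro j hj
        rw [Finset.card_insert_of_notMem hj]
        have := hJne.card_pos
        exact ⟨by omega, hCO⟩
      have hmemF : ∀ (j : C) (hj : j ∉ J), lp (insert j J) α0 (hcard j hj) ∈ F := by
        intro j hj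
        by_contra hcon
        obtain ⟨δ, hδ, hd⟩ := (isOpen_iff'.1 hF.isOpen_compl).2 _ _ _ hcon
        obtain ⟨γ, h1, h2, x, hxF, hxv⟩ := hcof δ hδ
        obtain ⟨h3, h4⟩ := hd γ h1 h2
        rcases hxv with ⟨k, h5, h6⟩ | ⟨h5, h6⟩
        · refine h3 k ?_ (h6 ▸ hxF)
          have h5' : J = {k} := h5
          rw [h5']
          simp
        · exact h4 J h5 (Finset.ssubset_insert hj) (h6 ▸ hxF)
      -- pigeonhole for the new columns
      have hunc : ¬ {v : Finset C × H | ∃ j, j ∉ J ∧ v = ({j}, α0)}.Countable := by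
        intro hcon
        have h1 : (univ : Set C).Countable := by
          have h2 : {j : C | j ∉ J}.Countable := by
            have hmaps : MapsTo (fun j : C => (({j}, α0) : Finset C × H)) {j : C | j ∉ J}
                {v : Finset C × H | ∃ j, j ∉ J ∧ v = ({j}, α0)} := fun j hj => ⟨j, hj, rfl⟩
            refine hmaps.countable_of_injOn ?_ hcon
            intro i _ j _ hij
            exact Finset.singleton_injective (congrArg Prod.fst hij)
          refine (h2.union J.countable_toSet).mono fun j _ => ?_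
          by_cases hj : j ∈ J
          · exact Or.inr hj
          · exact Or.inl hj
        exact not_countable (α := C) (countable_univ_iff.1 h1)
      let cl' : Finset C × H → ℕ := fun v =>
        if hv : ∃ j, j ∉ J ∧ v = ({j}, α0) then nn (lp (insert hv.choose J) α0
          (hcard _ hv.choose_spec.1)) else 0
      rcases columns _ hunc cl' with ⟨n, hn⟩ | ⟨J', hJ'⟩
      · obtain ⟨k, hk, hkm⟩ := exists_seq _ hn
        have hkm' : ∀ i, ∃ (hj : k i ∉ J), nn (lp (insert (k i) J) α0 (hcard _ hj)) = n := by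
          intro i
          obtain ⟨v, hv, hvn, hkv⟩ := hkm i
          have h1 := hv.choose_spec
          have h2 : k i = hv.choose := by
            rw [h1.2] at hkv
            simpa using hkv
          have h3 : cl' v = nn (lp (insert hv.choose J) α0 (hcard _ hv.choose_spec.1)) :=
            dif_pos hv
          rw [h3] at hvn
          have h4 : k i ∉ J := by rw [h2]; exact h1.1
          refine ⟨h4, ?_⟩
          rw [← hvn]
          congr 1
          have : ∀ (a b : C) (ha : a ∉ J) (hb : b ∉ J), a = b →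
              lp (insert a J) α0 (hcard a ha) = lp (insert b J) α0 (hcard b hb) := by
            intro a b ha hb hab
            subst hab
            rfl
          exact this _ _ h4 h1.1 h2
        choose hkJ hkn using hkm'
        have h1 : ∀ i, ∃ δ < α0, ∀ γ, δ < γ → γ < α0 →
            sp (k i) γ ∈ UU (lp (insert (k i) J) α0 (hcard _ (hkJ i))) := by
          intro i
          obtain ⟨δ, hδ, hd⟩ := exists_tail (hUUo _ (hmemF (k i) (hkJ i)))
            (hUU _ (hmemF (k i) (hkJ i))).2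
          exact ⟨δ, hδ, fun γ h3 h4 => hd γ h3 h4 (k i) (Finset.mem_insert_self _ _)⟩
        choose δ hδ hd using h1
        obtain ⟨b, hb, hb'⟩ := hCO (range δ) (countable_range δ) (by
          rintro _ ⟨i, rfl⟩
          exact hδ i)
        refine finish_good hF 𝒰 hU hc b (hlow b hb) (hgood b hb) n k hk (fun _ => b)
          (fun _ => le_rfl) (fun i => UU (lp (insert (k i) J) α0 (hcard _ (hkJ i))))
          (fun i => ?_) (fun i => hd i b (hb' (δ i) ⟨i, rfl⟩) hb)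
        have h2 := (hUU _ (hmemF (k i) (hkJ i))).1
        rw [hkn i] at h2
        exact h2
      · exfalso
        apply hJ'
        refine (countable_singleton α0).mono ?_
        rintro γ ⟨j, -, h⟩
        exact congrArg Prod.snd h

/-- The bounded open sets of the cover. -/
def OO (J : Finset C) (α : H) : Set (Pt C H) :=
  {x | (∃ p hp, x = fp p hp ∧ ∃ y ∈ p, y.1 ∈ J ∧ y.2 ≤ α) ∨
    ∃ K γ hK, x = lp K γ hK ∧ K ⊆ J ∧ γ ≤ α}

theorem isOpen_OO (J : Finset C) (α : H) : IsOpen (OO J α) := by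
  rw [isOpen_iff']
  refine ⟨fun p hp hm => ⟨∅, fun q hq hE => ?_⟩, fun K γ hK hm => ?_⟩
  · rcases hm with ⟨p', hp', h1, y, hy, h2, h3⟩ | ⟨K, γ, hK, h1, h2, h3⟩
    · have := fp_inj h1
      subst this
      exact Or.inl ⟨q, hq, rfl, y, hE.1 hy, h2, h3⟩
    · exact absurd h1 fp_ne_lp
  · rcases hm with ⟨p', hp', h1, y, hy, h2, h3⟩ | ⟨K', γ', hK', h1, h2, h3⟩
    · exact absurd h1.symm fp_ne_lp
    · obtain ⟨h4, h5⟩ := lp_inj h1
      subst h4 h5
      obtain ⟨b, hb⟩ := hK.2.exists_lt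
      refine ⟨b, hb, fun β _ h7 => ⟨fun k hk => ?_, fun K' hK' hKK => ?_⟩⟩
      · exact Or.inl ⟨_, _, rfl, (k, β), Finset.mem_singleton_self _, h2 hk, h7.le.trans h3⟩
      · exact Or.inr ⟨K', β, hK', rfl, hKK.1.trans h2, h7.le.trans h3⟩

/-- The piecewise weak Lindelöf property for closed sets with bound `κ`. -/
def PwProp (κ : Cardinal.{0}) (X : Type) [TopologicalSpace X] : Prop :=
  ∀ F : Set X, IsClosed F → ∀ (I : Type) (𝒰 : I → Set (Set X)), (∀ i, ∀ U ∈ 𝒰 i, IsOpen U) →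
    F ⊆ ⋃ i, ⋃₀ 𝒰 i → ∃ 𝒱 : I → Set (Set X), (∀ i, 𝒱 i ⊆ 𝒰 i ∧ #(𝒱 i) ≤ κ) ∧
      F ⊆ ⋃ i, closure (⋃₀ 𝒱 i)

theorem not_pw [Nonempty C] (hC : #C ≤ 𝔠) (hH : ∀ s : Set H, #s ≤ 𝔠 → ∃ b, ∀ a ∈ s, a < b) :
    ¬ PwProp ℵ₀ (Pt C H) := by
  classical
  intro h
  obtain ⟨𝒱, h𝒱, hcov⟩ := h univ isClosed_univ (Finset C) (fun J => range (OO J)) (by
    rintro J _ ⟨α, rfl⟩
    exact isOpen_OO J α) (by
    intro x _
    rcases pt_cases x with ⟨p, ⟨a, ha⟩, rfl⟩ | ⟨J, α, h, rfl⟩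
    · refine mem_iUnion.2 ⟨{a.1}, OO {a.1} a.2, ⟨a.2, rfl⟩, ?_⟩
      exact Or.inl ⟨p, _, rfl, a, ha, Finset.mem_singleton_self _, le_rfl⟩
    · exact mem_iUnion.2 ⟨J, OO J α, ⟨α, rfl⟩, Or.inr ⟨J, α, h, rfl, Finset.Subset.refl _, le_rfl⟩⟩)
  have hb : ∀ J : Finset C, ∃ b : H, ∀ V ∈ 𝒱 J, ∃ α < b, V = OO J α := by
    intro J
    have h1 : ∀ V : 𝒱 J, ∃ α, OO J α = V.1 := fun V => (h𝒱 J).1 V.2
    choose α hα using h1
    obtain ⟨b, hb⟩ := hH (range α) (mk_range_le.trans ((h𝒱 J).2.trans aleph0_le_continuum))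
    exact ⟨b, fun V hV => ⟨α ⟨V, hV⟩, hb _ ⟨_, rfl⟩, (hα ⟨V, hV⟩).symm⟩⟩
  choose b hb using hb
  obtain ⟨bs, hbs⟩ := hH (range b) (mk_range_le.trans (by
    rcases finite_or_infinite C with hfin | hinf
    · exact (Cardinal.lt_aleph0_of_finite _).le.trans aleph0_le_continuum
    · rw [mk_finset_of_infinite]
      exact hC))
  obtain ⟨k⟩ := ‹Nonempty C›
  obtain ⟨J, hJ⟩ := mem_iUnion.1 (hcov (mem_univ (sp k bs)))
  rw [mem_closure_iff] at hJ
  obtain ⟨x, hx1, V, hV, hxV⟩ := hJ (Nb J {(k, bs)}) (isOpen_Nb _ _)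
    ⟨_, Finset.singleton_nonempty _, Ext.refl _ _, rfl⟩
  obtain ⟨α, hα, rfl⟩ := hb J V hV
  obtain ⟨q, hq, hE, rfl⟩ := hx1
  rcases hxV with ⟨p, hp, h1, y, hy, hyJ, hyα⟩ | ⟨K, γ, hK, h1, -, -⟩
  · have := fp_inj h1
    subst this
    have hlt : y.2 < bs := (hyα.trans_lt hα).trans (hbs _ ⟨J, rfl⟩)
    refine hE.2 y hy ?_ (k, bs) (Finset.mem_singleton_self _) hlt hyJ
    rw [Finset.mem_singleton]
    rintro rfl
    exact lt_irrefl _ hlt
  · exact absurd h1 fp_ne_lp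

/-- The piecewise weak Lindelöf degree for closed sets. -/
noncomputable def pwLc (X : Type) [TopologicalSpace X] : Cardinal.{0} :=
  sInf {κ | PwProp κ X}

theorem PwProp.mono {κ μ : Cardinal.{0}} (hκ : κ ≤ μ) {X : Type} [TopologicalSpace X]
    (h : PwProp κ X) : PwProp μ X := by
  intro F hF I 𝒰 hU hc
  obtain ⟨𝒱, h1, h2⟩ := h F hF I 𝒰 hU hc
  exact ⟨𝒱, fun i => ⟨(h1 i).1, (h1 i).2.trans hκ⟩, h2⟩

theorem PwProp.exists (X : Type) [TopologicalSpace X] : PwProp (#(Set X)) X := by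
  intro F hF I 𝒰 hU hc
  exact ⟨𝒰, fun i => ⟨Subset.rfl, mk_set_le _⟩, hc.trans (iUnion_mono fun i => subset_closure)⟩

theorem pwLc_gt {X : Type} [TopologicalSpace X] (h : ¬ PwProp ℵ₀ X) : ℵ₀ < pwLc X := by
  by_contra hcon
  have h1 : PwProp (pwLc X) X := csInf_mem (⟨_, PwProp.exists X⟩ : {κ | PwProp κ X}.Nonempty)
  exact h (h1.mono (not_lt.1 hcon))

theorem exists_space : ∃ (X : Type) (_ : TopologicalSpace X), T0Space X ∧ StrictQL X ∧
    ℵ₀ < pwLc X := by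
  obtain ⟨L, i1, i2, hL⟩ := Pool.Agent.H960R3.DL.exists_L
  have hH : ∀ s : Set (L 0), #s ≤ 𝔠 → ∃ b, ∀ a ∈ s, a < b := fun s hs => hL 0 s (Or.inl hs)
  refine ⟨Pt ℝ (L 0), inferInstance, inferInstance, strictQL hH, pwLc_gt (not_pw ?_ hH)⟩
  rw [mk_real]

end Pool.Agent.V11218.SQL
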